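import Pool.Agent.H389R2.NS.S4

/-!
Four arms in an annulus, critical bond percolation on `ℤ²`: the sharp upper bound `(d/k)^(5/4)`
(the proof of `H389NS.A4a_bound_of`, with the exponent kept).
-/

set_option autoImplicit false

namespace Pool.Agent.W822.PV

open H974 H12S Finset H389NS

/-- **Four arms in an annulus**, from `blk_dom` and `exit_blk`. -/
theorem A4a_sharp_of
    (hblk : ∃ C : ℝ, 0 < C ∧ ∀ (p : Edg → ℝ) (S : Finset Edg) (I J I' J' : Set Vtx)
      (c : ℤ × ℤ) (d k : ℕ), 1 ≤ d → d ≤ k → DomB p S I J I' J' c k →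
        Pr p S (fun F => BPv I J (blk c d) ↑F) ≤ C * ((d:ℝ) / k) ^ (5/4 : ℝ))
    (hexit : ∃ (C c : ℝ), 0 < C ∧ 0 < c ∧ ∀ (L : ℕ) (δ : ℝ), 2 ≤ L → 0 < δ →
      ∃ M1 M20 : ℕ, 64 ≤ M1 ∧ 8 * M1 ≤ M20 ∧ ∀ M2 : ℕ, M20 ≤ M2 → ∃ N : ℕ, ∀ m d : ℕ,
        64 * M2 ≤ m → 1 ≤ d → 64 * d ≤ m →
        PQ (1/2) (SR L m) (fun F => ∃ u ∈ bdB (0, 0) d, ∃ u' ∈ bdB (0, 0) d,
            (∃ w ∈ bdR (-(2 * L * m : ℕ)) (2 * L * m : ℕ) (-m) m,
              Reach ((↑F : Set Edg) \ ↑(boxE d)) u w) ∧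
            (∃ w ∈ bdR (-(2 * L * m : ℕ)) (2 * L * m : ℕ) (-m) m,
              Reach ((↑F : Set Edg) \ ↑(boxE d)) u' w) ∧
            ¬ Reach ((↑F : Set Edg) \ ↑(boxE d)) u u') ≤
          (∑ p ∈ prs L m (m / M2) N, PQ (1/2) (SR L m) (fun F =>
            (p.1.1 = p.2.1 → 4 * ((m / M2 : ℕ):ℤ) <
              |2 * ((m / M2 : ℕ):ℤ) * p.1.2 - 2 * ((m / M2 : ℕ):ℤ) * p.2.2|) ∧
            BPv (cell p.1.1 m (2 * (m / M2 : ℕ) * p.1.2) (m / M2))
              (cell p.2.1 m (2 * (m / M2 : ℕ) * p.2.2) (m / M2)) (boxE d) ↑F)) +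
          (δ + C * Real.exp (-c * L)) *
            PQ (1/2) (boxE (m / 8)) (fun F => A4a (0, 0) d (m / 8) ↑F)) :
    ∃ C : ℝ, 0 < C ∧ ∀ (c0 : ℤ × ℤ) (d k : ℕ), 1 ≤ d → d ≤ k →
      ∀ S : Finset Edg, blk c0 k ⊆ S →
        PQ (1/2) S (fun F => A4a c0 d k ↑F) ≤ C * ((d:ℝ) / k) ^ (5/4 : ℝ) := by
  obtain ⟨Cb, hCb, hdom⟩ := hblk
  obtain ⟨C, c, hC, hc, hex⟩ := hexit
  obtain ⟨L, hL, hLK⟩ := KY_choose_L C c (5/4) hc
  have hL0 : (0:ℝ) < L := by
    have : 0 < L := by omega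
    exact_mod_cast this
  obtain ⟨K, hK⟩ : ∃ K : ℝ, K = (192 * L : ℝ) ^ (5/4 : ℝ) := ⟨_, rfl⟩
  have hK0 : 0 < K := by rw [hK]; positivity
  rw [show (64 * (3 * L : ℕ) : ℝ) = 192 * L by push_cast; ring, ← hK] at hLK
  obtain ⟨M1, M2, hM1, hM2, hex2⟩ := hex L (1 / (32 * K)) hL (by positivity)
  obtain ⟨N, hex3⟩ := hex2 M2 le_rfl
  clear hex2 hex
  obtain ⟨cd, hcd⟩ : ∃ cd : ℕ, cd = (2 * (2 * N + 1)) * (2 * (2 * N + 1)) := ⟨_, rfl⟩
  have hcd0 : (0:ℝ) < cd := by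
    have : 0 < cd := by rw [hcd]; positivity
    exact_mod_cast this
  have hM2p : 512 ≤ M2 := by omega
  obtain ⟨k0, hk0⟩ : ∃ k0 : ℕ, k0 = 256 * L * M2 := ⟨_, rfl⟩
  have hk0p : 0 < k0 := by rw [hk0]; positivity
  have hk0r : (0:ℝ) < k0 := by exact_mod_cast hk0p
  -- one step
  have step : ∀ m d : ℕ, 64 * M2 ≤ m → 1 ≤ d → 64 * d ≤ m →
      S4C_h d (4 * L * m) ≤ cd * (Cb * ((d:ℝ) / m) ^ (5/4 : ℝ)) +
        2 / (32 * K) * S4C_h d (m / 8) := by
    intro m d hm hd1 hd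
    have s1 := S4C_h_thin (L := L) (m := m) (d := d) hL (by omega)
    have s2 := hex3 m d hm hd1 hd
    have s3 : ∀ p ∈ prs L m (m / M2) N, PQ (1/2) (SR L m) (fun F =>
            (p.1.1 = p.2.1 → 4 * ((m / M2 : ℕ):ℤ) <
              |2 * ((m / M2 : ℕ):ℤ) * p.1.2 - 2 * ((m / M2 : ℕ):ℤ) * p.2.2|) ∧
            BPv (cell p.1.1 m (2 * (m / M2 : ℕ) * p.1.2) (m / M2))
              (cell p.2.1 m (2 * (m / M2 : ℕ) * p.2.2) (m / M2)) (boxE d) ↑F) ≤
          Cb * ((d:ℝ) / m) ^ (5/4 : ℝ) := by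
      intro p hp
      unfold prs at hp
      rw [Finset.mem_filter] at hp
      obtain ⟨-, g1, g2⟩ := hp
      by_cases hfar : (p.1.1 = p.2.1 → 4 * ((m / M2 : ℕ):ℤ) <
              |2 * ((m / M2 : ℕ):ℤ) * p.1.2 - 2 * ((m / M2 : ℕ):ℤ) * p.2.2|)
      · refine le_trans (Pr_mono S4C_ok (fun F _ hF => hF.2)) ?_
        have hr1 : 1 ≤ m / M2 := by
          rw [Nat.le_div_iff_mul_le (by omega)]; omega
        have hr2 : 512 * (m / M2) ≤ m :=
          (Nat.mul_le_mul_right _ hM2p).trans (Nat.mul_div_le m M2)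
        exact S4C_pair hdom hL hr1 hr2 hd1 (by omega) p.1.1 p.2.1 p.1.2 p.2.2 g1 g2 hfar
      · refine le_trans (Pr_mono S4C_ok (B := fun _ => False) (fun F _ hF => hfar hF.1)) ?_
        have e0 : Pr (fun _ => (1/2:ℝ)) (SR L m) (fun _ => False) = 0 := by
          unfold Pr
          rw [Ex_congr (g := fun _ => (0:ℝ)) (fun F _ => ind_not_of (fun h => h)), Ex_const]
        rw [e0]
        positivity
    have s4 := Finset.sum_le_card_nsmul _ _ _ s3
    rw [nsmul_eq_mul] at s4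
    have hcard : ((prs L m (m / M2) N).card : ℝ) ≤ cd := by
      rw [hcd]
      exact_mod_cast kc_prs_card L m (m / M2) N
    have s5 : ((prs L m (m / M2) N).card : ℝ) * (Cb * ((d:ℝ) / m) ^ (5/4 : ℝ)) ≤
        cd * (Cb * ((d:ℝ) / m) ^ (5/4 : ℝ)) :=
      mul_le_mul_of_nonneg_right hcard (by positivity)
    have e2 : C * Real.exp (-c * L) ≤ 1 / (32 * K) := by
      rw [div_mul_eq_div_div, le_div_iff₀ hK0]
      exact hLK
    have e3 : (1 / (32 * K) + C * Real.exp (-c * L)) * S4C_h d (m / 8) ≤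
        2 / (32 * K) * S4C_h d (m / 8) := by
      apply mul_le_mul_of_nonneg_right _ (S4C_h_nonneg _ _)
      have : 2 / (32 * K) = 1 / (32 * K) + 1 / (32 * K) := by ring
      rw [this]
      linarith
    have s6 := s1.trans s2
    exact s6.trans (add_le_add (s4.trans s5) e3)
  -- iteration
  set C0 : ℝ := 2 * (cd * Cb) * (8 * L : ℝ) ^ (5/4 : ℝ) + (k0:ℝ) ^ (5/4 : ℝ) with hC0
  have hC0p : 0 < C0 := by positivity
  have main : ∀ d : ℕ, 1 ≤ d → ∀ k : ℕ, d ≤ k → S4C_h d k ≤ C0 * ((d:ℝ) / k) ^ (5/4 : ℝ) := by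
    intro d hd k
    have hd0 : (0:ℝ) < d := by exact_mod_cast hd
    induction k using Nat.strong_induction_on with
    | _ k ih =>
      intro hk
      have hkr : (0:ℝ) < k := hd0.trans_le (by exact_mod_cast hk)
      rcases lt_or_ge k (k0 * d) with hlt | hge
      · have h1 := S4C_h_le_one d k
        have h2 : (1:ℝ) ≤ (k0:ℝ) ^ (5/4 : ℝ) * ((d:ℝ) / k) ^ (5/4 : ℝ) := by
          rw [← Real.mul_rpow hk0r.le (by positivity)]
          apply Real.one_le_rpow _ (by norm_num)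
          rw [← mul_div_assoc, le_div_iff₀ hkr, one_mul]
          exact_mod_cast hlt.le
        have h3 : 0 ≤ 2 * (cd * Cb) * (8 * L : ℝ) ^ (5/4 : ℝ) * ((d:ℝ) / k) ^ (5/4 : ℝ) := by
          positivity
        rw [hC0, add_mul]
        linarith
      · obtain ⟨m, hm⟩ : ∃ m : ℕ, m = k / (4 * L) := ⟨_, rfl⟩
        have hq : 0 < 4 * L := by omega
        have h1 : 4 * L * m ≤ k := by rw [hm]; exact Nat.mul_div_le _ _
        have h2 : k < 4 * L * m + 4 * L := by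
          rw [hm]
          have := Nat.lt_mul_div_succ k hq
          rw [Nat.mul_add, Nat.mul_one] at this
          exact this
        have hmb : 64 * M2 * d ≤ m := by
          rw [hm, Nat.le_div_iff_mul_le hq]
          calc 64 * M2 * d * (4 * L) = k0 * d := by rw [hk0]; ring
            _ ≤ k := hge
        have hmM : 64 * M2 ≤ m := by
          calc 64 * M2 = 64 * M2 * 1 := by ring
            _ ≤ 64 * M2 * d := Nat.mul_le_mul_left _ hd
            _ ≤ m := hmb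
        have hmd : 64 * d ≤ m := by
          calc 64 * d = 64 * 1 * d := by ring
            _ ≤ 64 * M2 * d := Nat.mul_le_mul_right _ (Nat.mul_le_mul_left _ (by omega))
            _ ≤ m := hmb
        have hm1 : 1 ≤ m := by omega
        have hkm : k ≤ 8 * L * m := by
          have h6 : 8 * L * m = 2 * (4 * L * m) := by ring
          rw [h6]
          have h7 : 4 * L * 1 ≤ 4 * L * m := Nat.mul_le_mul_left _ hm1
          omega
        have hm0 : (0:ℝ) < m := by exact_mod_cast (show 0 < m by omega)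
        have h4 := step m d hmM hd hmd
        have h5 : S4C_h d k ≤ S4C_h d (4 * L * m) := by
          apply S4C_h_anti _ h1
          have : 1 * m ≤ 4 * L * m := Nat.mul_le_mul_right _ (by omega)
          omega
        have hmk : m < k := by
          have : 1 * m < 4 * L * m := Nat.mul_lt_mul_of_pos_right (by omega) (by omega)
          omega
        have h6 := ih (m / 8) (by omega) (by omega)
        have hmk2 : (k:ℝ) / (8 * L) ≤ m := by
          rw [div_le_iff₀ (by positivity)]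
          have : (k:ℝ) ≤ ((8 * L * m : ℕ) : ℝ) := by exact_mod_cast hkm
          push_cast at this
          linarith
        have h7 : ((d:ℝ) / m) ^ (5/4 : ℝ) ≤ (8 * L : ℝ) ^ (5/4 : ℝ) * ((d:ℝ) / k) ^ (5/4 : ℝ) := by
          rw [← Real.mul_rpow (by positivity) (by positivity)]
          apply Real.rpow_le_rpow (by positivity) _ (by norm_num)
          rw [div_le_iff₀ hm0]
          rw [div_le_iff₀ (by positivity)] at hmk2
          have e : 8 * (L:ℝ) * ((d:ℝ) / k) * m = d * ((m * (8 * L)) / k) := by ring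
          rw [e]
          have : (1:ℝ) ≤ (m * (8 * L)) / k := by rw [le_div_iff₀ hkr]; linarith
          nlinarith
        have hm8 : (0:ℝ) < ((m / 8 : ℕ) : ℝ) := by
          have : 0 < m / 8 := by omega
          exact_mod_cast this
        have h8 : ((d:ℝ) / ((m / 8 : ℕ) : ℝ)) ^ (5/4 : ℝ) ≤
            (192 * L : ℝ) ^ (5/4 : ℝ) * ((d:ℝ) / k) ^ (5/4 : ℝ) := by
          have e1 : (k:ℝ) ≤ ((m / 8 : ℕ) : ℝ) * (192 * L) := by
            have e2 : m ≤ 9 * (m / 8) + 0 := by omega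
            have e3 : (m:ℝ) ≤ 9 * ((m / 8 : ℕ) : ℝ) := by exact_mod_cast e2
            rw [div_le_iff₀ (by positivity)] at hmk2
            nlinarith
          rw [← Real.mul_rpow (by positivity) (by positivity)]
          apply Real.rpow_le_rpow (by positivity) _ (by norm_num)
          rw [div_le_iff₀ hm8]
          have e : 192 * (L:ℝ) * ((d:ℝ) / k) * ((m / 8 : ℕ) : ℝ) =
            d * ((((m / 8 : ℕ) : ℝ) * (192 * L)) / k) := by ring
          rw [e]
          have : (1:ℝ) ≤ (((m / 8 : ℕ) : ℝ) * (192 * L)) / k := by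
            rw [le_div_iff₀ hkr]; linarith
          nlinarith
        have hkp : 0 < ((d:ℝ) / k) ^ (5/4 : ℝ) := by positivity
        have h9 : 2 / (32 * K) * S4C_h d (m / 8) ≤ C0 / 4 * ((d:ℝ) / k) ^ (5/4 : ℝ) := by
          calc 2 / (32 * K) * S4C_h d (m / 8)
              ≤ 2 / (32 * K) * (C0 * ((d:ℝ) / ((m / 8 : ℕ) : ℝ)) ^ (5/4 : ℝ)) :=
                mul_le_mul_of_nonneg_left h6 (by positivity)
            _ ≤ 2 / (32 * K) * (C0 * (K * ((d:ℝ) / k) ^ (5/4 : ℝ))) := by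
                rw [hK]; gcongr
            _ = 1 / 16 * (C0 * ((d:ℝ) / k) ^ (5/4 : ℝ)) := by
                field_simp; norm_num
            _ ≤ C0 / 4 * ((d:ℝ) / k) ^ (5/4 : ℝ) := by
                have := mul_pos hC0p hkp
                linarith
        have h10 : cd * (Cb * ((d:ℝ) / m) ^ (5/4 : ℝ)) ≤ C0 / 2 * ((d:ℝ) / k) ^ (5/4 : ℝ) := by
          calc cd * (Cb * ((d:ℝ) / m) ^ (5/4 : ℝ)) ≤
                cd * (Cb * ((8 * L : ℝ) ^ (5/4 : ℝ) * ((d:ℝ) / k) ^ (5/4 : ℝ))) := by gcongr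
            _ = (cd * Cb * (8 * L : ℝ) ^ (5/4 : ℝ)) * ((d:ℝ) / k) ^ (5/4 : ℝ) := by ring
            _ ≤ C0 / 2 * ((d:ℝ) / k) ^ (5/4 : ℝ) := by
                apply mul_le_mul_of_nonneg_right _ hkp.le
                have : 0 ≤ (k0:ℝ) ^ (5/4 : ℝ) := by positivity
                rw [hC0]
                linarith
        calc S4C_h d k ≤ S4C_h d (4 * L * m) := h5
          _ ≤ cd * (Cb * ((d:ℝ) / m) ^ (5/4 : ℝ)) + 2 / (32 * K) * S4C_h d (m / 8) := h4
          _ ≤ C0 / 2 * ((d:ℝ) / k) ^ (5/4 : ℝ) + C0 / 4 * ((d:ℝ) / k) ^ (5/4 : ℝ) :=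
              add_le_add h10 h9
          _ ≤ C0 * ((d:ℝ) / k) ^ (5/4 : ℝ) := by
              have := mul_pos hC0p hkp
              linarith
  refine ⟨C0, hC0p, ?_⟩
  intro c0 d k hd hk S hS
  exact (S4C_le_h hS).trans (main d hd k hk)

theorem A4a_sharp : ∃ C : ℝ, 0 < C ∧ ∀ (c0 : ℤ × ℤ) (d k : ℕ), 1 ≤ d → d ≤ k →
    ∀ S : Finset Edg, blk c0 k ⊆ S →
      PQ (1/2) S (fun F => A4a c0 d k ↑F) ≤ C * ((d:ℝ) / k) ^ (5/4 : ℝ) :=
  A4a_sharp_of blk_dom exit_blk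

end Pool.Agent.W822.PV
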