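import Pool.Agent.H389R2.CL.Model
import Pool.Agent.H389R2.NS.E1b
import Pool.Agent.W822.PV.A4s

/-!
# Discrete upper estimate for pairs of distinct clusters which cross an annulus
-/

set_option autoImplicit false
set_option maxHeartbeats 1000000
set_option linter.unusedSimpArgs false

namespace Pool.Agent.W822.PV

open H974 H934E Pool.Agent.H160R2.CV MeasureTheory TopologicalSpace Filter Topology Metric Set
open Pool.Agent.H389R2.Dim Pool.Agent.H389R2.CD Pool.Agent.H389R2.CL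
open scoped ENNReal NNReal

/-- The lattice annulus of an annulus of the plane. -/
structure Lat (R : Rect) (z : ℂ) (ρ s δ : ℝ) (c : Vtx) (r n : ℕ) : Prop where
  h1r : 1 ≤ r
  hrn : 3 * r ≤ n
  hw : ∀ e ∈ R.wired δ, e ∉ RE (c.1 - n) (c.1 + n) (c.2 - n) (c.2 + n)
  hsub : RE (c.1 - n) (c.1 + n) (c.2 - n) (c.2 + n) ⊆ R.edges δ
  hin : ∀ v : Vtx, |(pt δ v).re - z.re| ≤ s + δ → |(pt δ v).im - z.im| ≤ s + δ →
    inR (c.1 - r) (c.1 + r) (c.2 - r) (c.2 + r) v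
  hout : ∀ v : Vtx, ρ - δ ≤ |(pt δ v).re - z.re| ∨ ρ - δ ≤ |(pt δ v).im - z.im| →
    v.1 ≤ c.1 - n ∨ c.1 + n ≤ v.1 ∨ v.2 ≤ c.2 - n ∨ c.2 + n ≤ v.2
  hq : (r : ℝ) / n ≤ 4 * (s / ρ)

theorem exists_lat (R : Rect) (z : ℂ) (ρ s δ : ℝ) (hs : 0 < s) (hsρ : 16 * s ≤ ρ)
    (hD : csq z ρ ⊆ R.D) (hδ : 0 < δ) (hδs : 16 * δ ≤ s) : ∃ c r n, Lat R z ρ s δ c r n := by
  have hρ : 0 < ρ := by linarith
  -- the square is inside the rectangle
  have m1 : (⟨z.re - ρ, z.im⟩ : ℂ) ∈ R.D := hD (by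
    unfold csq
    simp only [Set.mem_ofPred_eq]
    constructor
    · rw [show z.re - ρ - z.re = -ρ by ring, abs_neg, abs_of_pos hρ]
    · rw [sub_self, abs_zero]; exact hρ.le)
  have m2 : (⟨z.re + ρ, z.im⟩ : ℂ) ∈ R.D := hD (by
    unfold csq
    simp only [Set.mem_ofPred_eq]
    constructor
    · rw [show z.re + ρ - z.re = ρ by ring, abs_of_pos hρ]
    · rw [sub_self, abs_zero]; exact hρ.le)
  have m3 : (⟨z.re, z.im - ρ⟩ : ℂ) ∈ R.D := hD (by
    unfold csq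
    simp only [Set.mem_ofPred_eq]
    constructor
    · rw [sub_self, abs_zero]; exact hρ.le
    · rw [show z.im - ρ - z.im = -ρ by ring, abs_neg, abs_of_pos hρ])
  have m4 : (⟨z.re, z.im + ρ⟩ : ℂ) ∈ R.D := hD (by
    unfold csq
    simp only [Set.mem_ofPred_eq]
    constructor
    · rw [sub_self, abs_zero]; exact hρ.le
    · rw [show z.im + ρ - z.im = ρ by ring, abs_of_pos hρ])
  unfold Rect.D at m1 m2 m3 m4
  simp only [Set.mem_ofPred_eq] at m1 m2 m3 m4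
  have h1 : ρ ≤ z.re + R.A := by obtain ⟨_, _, _⟩ := m1; linarith
  have h2 : ρ ≤ z.im := by obtain ⟨_, _, _⟩ := m3; linarith
  have h3 : ρ ≤ R.H - z.im := by obtain ⟨_, _, _⟩ := m4; linarith
  have h4 : ρ ≤ R.B - z.re := by obtain ⟨_, _, _⟩ := m2; linarith
  set c : Vtx := (⌊z.re / δ⌋, ⌊z.im / δ⌋ - 1) with hc
  set r : ℕ := ⌈s / δ⌉₊ + 3 with hr
  set n : ℕ := ⌊ρ / δ⌋₊ - 4 with hn
  have q1 : 16 ≤ s / δ := by rw [le_div_iff₀ hδ]; exact hδs
  have q2 : 16 * (s / δ) ≤ ρ / δ := by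
    rw [← mul_div_assoc]; exact div_le_div_of_nonneg_right hsρ hδ.le
  have r1 : (⌈s / δ⌉₊ : ℝ) < s / δ + 1 := Nat.ceil_lt_add_one (by positivity)
  have r2 : s / δ ≤ (⌈s / δ⌉₊ : ℝ) := Nat.le_ceil _
  have n1 : (⌊ρ / δ⌋₊ : ℝ) ≤ ρ / δ := Nat.floor_le (by positivity)
  have n2 : ρ / δ < (⌊ρ / δ⌋₊ : ℝ) + 1 := Nat.lt_floor_add_one _
  have hn3 : 4 ≤ ⌊ρ / δ⌋₊ := by
    rw [Nat.le_floor_iff (by positivity)]
    push_cast
    linarith
  have nR : (n : ℝ) = (⌊ρ / δ⌋₊ : ℝ) - 4 := by rw [hn, Nat.cast_sub hn3]; norm_num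
  have rR : (r : ℝ) = (⌈s / δ⌉₊ : ℝ) + 3 := by rw [hr]; push_cast; ring
  have hrn : 3 * r ≤ n := by
    have : ((3 * r : ℕ) : ℝ) ≤ (n : ℝ) := by
      push_cast
      rw [nR, rR]
      linarith
    exact_mod_cast this
  have f1 : (⌊z.re / δ⌋ : ℝ) ≤ z.re / δ := Int.floor_le _
  have f2 : z.re / δ < (⌊z.re / δ⌋ : ℝ) + 1 := Int.lt_floor_add_one _
  have f3 : (⌊z.im / δ⌋ : ℝ) ≤ z.im / δ := Int.floor_le _
  have f4 : z.im / δ < (⌊z.im / δ⌋ : ℝ) + 1 := Int.lt_floor_add_one _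
  have d1 : ρ / δ ≤ z.re / δ + R.A / δ := by
    rw [← add_div]; exact div_le_div_of_nonneg_right h1 hδ.le
  have d2 : ρ / δ ≤ z.im / δ := div_le_div_of_nonneg_right h2 hδ.le
  have d3 : ρ / δ ≤ R.H / δ - z.im / δ := by
    rw [← sub_div]; exact div_le_div_of_nonneg_right h3 hδ.le
  have d4 : ρ / δ ≤ R.B / δ - z.re / δ := by
    rw [← sub_div]; exact div_le_div_of_nonneg_right h4 hδ.le
  have u1 : (c.1 : ℝ) - n ≥ -(R.A / δ) + 2 := by
    rw [nR, hc]; simp only; linarith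
  have u2 : (c.2 : ℝ) - n ≥ 1 := by
    rw [nR, hc]; simp only; push_cast; linarith
  have u3 : (c.2 : ℝ) + n ≤ R.H / δ - 4 := by
    rw [nR, hc]; simp only; push_cast; linarith
  have u4 : (c.1 : ℝ) + n ≤ R.B / δ - 3 := by
    rw [nR, hc]; simp only; linarith
  have hx0 : (R.x0 δ : ℝ) ≤ -(R.A / δ) + 1 := by
    unfold Rect.x0
    push_cast
    linarith [Int.floor_le (-(R.A / δ))]
  have hx1 : R.B / δ - 1 ≤ (R.x1 δ : ℝ) := by
    unfold Rect.x1
    push_cast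
    linarith [Int.le_ceil (R.B / δ)]
  have hy1 : R.H / δ - 2 ≤ (R.y1 δ : ℝ) := by
    unfold Rect.y1
    push_cast
    linarith [Int.le_ceil (R.H / δ)]
  have v1 : R.x0 δ < c.1 - n := by
    have : (R.x0 δ : ℝ) < ((c.1 - n : ℤ) : ℝ) := by push_cast; linarith
    exact_mod_cast this
  have v2 : 0 < c.2 - n := by
    have : (0 : ℝ) < ((c.2 - n : ℤ) : ℝ) := by push_cast; linarith
    exact_mod_cast this
  have v3 : c.2 + n < R.y1 δ := by
    have : ((c.2 + n : ℤ) : ℝ) < (R.y1 δ : ℝ) := by push_cast; linarith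
    exact_mod_cast this
  have v4 : c.1 + n < R.x1 δ := by
    have : ((c.1 + n : ℤ) : ℝ) < (R.x1 δ : ℝ) := by push_cast; linarith
    exact_mod_cast this
  refine ⟨c, r, n, ⟨by omega, hrn, ?_, ?_, ?_, ?_, ?_⟩⟩
  · rintro ⟨x, y, b⟩ he hE
    unfold Rect.wired at he
    simp only [Set.mem_ofPred_eq] at he
    cases b
    · rw [mem_RE_false] at hE
      rcases he with ⟨h, _⟩ | h | ⟨h, _⟩
      · exact absurd h (by simp)
      · omega
      · exact absurd h (by simp)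
    · rw [mem_RE_true] at hE
      rcases he with h | ⟨h, _⟩ | h
      · omega
      · exact absurd h (by simp)
      · omega
  · rintro ⟨x, y, b⟩ hE
    unfold Rect.edges
    rw [H973.mem_ES, Rect.mem_verts', Rect.mem_verts']
    cases b
    · rw [mem_RE_false] at hE
      rw [src_mk, tgt_false]
      simp only
      omega
    · rw [mem_RE_true] at hE
      rw [src_mk, tgt_true]
      simp only
      omega
  · intro v hv1 hv2
    unfold pt at hv1 hv2
    simp only at hv1 hv2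
    have g1 : δ * |(v.1 : ℝ) - z.re / δ| ≤ s + δ := by
      rw [← abs_of_pos hδ, ← abs_mul, abs_of_pos hδ, mul_sub, mul_div_cancel₀ _ hδ.ne']
      exact hv1
    have g2 : δ * |(v.2 : ℝ) + 1 - z.im / δ| ≤ s + δ := by
      rw [← abs_of_pos hδ, ← abs_mul, abs_of_pos hδ, mul_sub, mul_div_cancel₀ _ hδ.ne']
      exact hv2
    have g3 : |(v.1 : ℝ) - z.re / δ| ≤ s / δ + 1 := by
      rw [show s / δ + 1 = (s + δ) / δ by field_simp, le_div_iff₀ hδ, mul_comm]; exact g1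
    have g4 : |(v.2 : ℝ) + 1 - z.im / δ| ≤ s / δ + 1 := by
      rw [show s / δ + 1 = (s + δ) / δ by field_simp, le_div_iff₀ hδ, mul_comm]; exact g2
    rw [abs_le] at g3 g4
    have k1 : ((c.1 - r : ℤ) : ℝ) ≤ v.1 := by
      push_cast; rw [rR, hc]; simp only; linarith
    have k2 : (v.1 : ℝ) ≤ ((c.1 + r : ℤ) : ℝ) := by
      push_cast; rw [rR, hc]; simp only; linarith
    have k3 : ((c.2 - r : ℤ) : ℝ) ≤ v.2 := by
      push_cast; rw [rR, hc]; simp only; push_cast; linarith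
    have k4 : (v.2 : ℝ) ≤ ((c.2 + r : ℤ) : ℝ) := by
      push_cast; rw [rR, hc]; simp only; push_cast; linarith
    exact ⟨⟨by exact_mod_cast k1, by exact_mod_cast k2⟩, ⟨by exact_mod_cast k3,
      by exact_mod_cast k4⟩⟩
  · intro v hv
    unfold pt at hv
    simp only at hv
    have hδm : ∀ x y : ℝ, δ * x ≤ δ * y → x ≤ y := fun x y h => le_of_mul_le_mul_left h hδ
    have ezr : δ * (z.re / δ) = z.re := mul_div_cancel₀ _ hδ.ne'
    have ezi : δ * (z.im / δ) = z.im := mul_div_cancel₀ _ hδ.ne'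
    have eρ : δ * (ρ / δ) = ρ := mul_div_cancel₀ _ hδ.ne'
    rcases hv with ho | ho
    · rcases le_abs.1 ho with ho | ho
      · right; left
        have t1 : z.re / δ + ρ / δ - 1 ≤ (v.1 : ℝ) := by
          apply hδm
          rw [mul_sub, mul_add, ezr, eρ]
          linarith
        have : ((c.1 + n : ℤ) : ℝ) ≤ v.1 := by
          push_cast; rw [nR, hc]; simp only; linarith
        exact_mod_cast this
      · left
        have t1 : (v.1 : ℝ) ≤ z.re / δ - ρ / δ + 1 := by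
          apply hδm
          rw [mul_add, mul_sub, ezr, eρ]
          linarith
        have : (v.1 : ℝ) ≤ ((c.1 - n : ℤ) : ℝ) := by
          push_cast; rw [nR, hc]; simp only; linarith
        exact_mod_cast this
    · rcases le_abs.1 ho with ho | ho
      · right; right; right
        have t1 : z.im / δ + ρ / δ - 1 ≤ (v.2 : ℝ) + 1 := by
          apply hδm
          rw [mul_sub, mul_add, ezi, eρ]
          linarith
        have : ((c.2 + n : ℤ) : ℝ) ≤ v.2 := by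
          push_cast; rw [nR, hc]; simp only; push_cast; linarith
        exact_mod_cast this
      · right; right; left
        have t1 : (v.2 : ℝ) + 1 ≤ z.im / δ - ρ / δ + 1 := by
          apply hδm
          have e0 : δ * (z.im / δ - ρ / δ + 1) = z.im - ρ + δ := by
            rw [mul_add, mul_sub, ezi, eρ, mul_one]
          rw [e0]
          linarith
        have : (v.2 : ℝ) ≤ ((c.2 - n : ℤ) : ℝ) := by
          push_cast; rw [nR, hc]; simp only; push_cast; linarith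
        exact_mod_cast this
  · have hn0 : (0 : ℝ) < n := by rw [nR]; linarith
    have hr0 : (0 : ℝ) < r := by rw [rR]; linarith
    rw [div_le_iff₀ hn0]
    have e2 : 4 * (s / ρ) * n = 4 * ((s / δ) / (ρ / δ)) * n := by
      field_simp
    rw [e2]
    have e3 : (0 : ℝ) < ρ / δ := by positivity
    have e4 : (ρ / δ) / 2 ≤ n := by rw [nR]; linarith
    have e5 : 4 * ((s / δ) / (ρ / δ)) * ((ρ / δ) / 2) = 2 * (s / δ) := by field_simp; ring
    have e6 : 4 * ((s / δ) / (ρ / δ)) * ((ρ / δ) / 2) ≤ 4 * ((s / δ) / (ρ / δ)) * n :=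
      mul_le_mul_of_nonneg_left e4 (by positivity)
    rw [rR]
    linarith

/-- A cluster which meets `sq z s` and the complement of `csq z ρ` crosses the lattice annulus. -/
theorem Lat.cross {R : Rect} {z : ℂ} {ρ s δ : ℝ} {c : Vtx} {r n : ℕ} (h : Lat R z ρ s δ c r n)
    (hδ : 0 ≤ δ) {F : Finset Edg} {v0 : Vtx} (h1 : (csetAt R δ F v0 ∩ sq z s).Nonempty)
    (h2 : (csetAt R δ F v0 ∩ (csq z ρ)ᶜ).Nonempty) :
    ∃ u ∈ H12S.bdB c r, Reach (↑F ∪ R.wired δ) v0 u ∧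
      ∃ w ∈ H12S.bdB c n, Reach ((↑F : Set Edg) ∩ ↑(H12S.blk c n \ H12S.blk c r)) u w := by
  obtain ⟨w, hw1, hw2, hw3⟩ := h1
  obtain ⟨w', hw1', hw2'⟩ := h2
  obtain ⟨v, hv, hv1, hv2⟩ := csetAt_near R hδ hw1
  obtain ⟨v', hv', hv1', hv2'⟩ := csetAt_near R hδ hw1'
  have hvin := h.hin v (by
    rw [abs_le] at hv1 ⊢; rw [abs_lt] at hw2
    constructor <;> linarith) (by
    rw [abs_le] at hv2 ⊢; rw [abs_lt] at hw3
    constructor <;> linarith)
  have hout : ρ < |w'.re - z.re| ∨ ρ < |w'.im - z.im| := by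
    by_contra hcon
    push Not at hcon
    exact hw2' hcon
  have hvout := h.hout v' (by
    rw [abs_le] at hv1' hv2'
    rcases hout with ho | ho
    · left
      rcases lt_abs.1 ho with ho | ho
      · exact le_abs.2 (Or.inl (by linarith))
      · exact le_abs.2 (Or.inr (by linarith))
    · right
      rcases lt_abs.1 ho with ho | ho
      · exact le_abs.2 (Or.inl (by linarith))
      · exact le_abs.2 (Or.inr (by linarith)))
  have hreach : Reach (↑F ∪ R.wired δ) v v' := hv.symm.trans hv'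
  have hrn : (r : ℤ) ≤ n := by have := h.hrn; omega
  obtain ⟨w, k1, k2, k3⟩ := first_exit (a := c.1 - n) (b := c.1 + n) (c := c.2 - n)
    (d := c.2 + n) (u := v) (v := v') (by unfold inR at hvin ⊢; omega) hreach hvout
  have k4 : Reach (↑F ∩ ↑(H12S.blk c n)) v w := by
    refine k3.mono ?_
    rintro e ⟨he | he, he2⟩
    · exact ⟨he, he2⟩
    · exact absurd (Finset.mem_coe.mp he2) (h.hw e he)
  have hwb : w ∈ H12S.bdB c n := H389NS.E1b.bdB_iff.2 ⟨k1, k2⟩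
  obtain ⟨u, g1, g2, g3⟩ := H389NS.E1b.last_exit (c := c) (d := r) (k := n) (by exact_mod_cast hrn)
    (G := ↑F ∩ ↑(H12S.blk c n)) (F := (↑F : Set Edg)) Set.inter_subset_left (fun e he => he.2) (w := w)
    (by
      rcases k2 with k | k | k | k
      · left; omega
      · right; left; omega
      · right; right; left; omega
      · right; right; right; omega) k4.symm hvin
  refine ⟨u, H389NS.E1b.bdB_iff.2 ⟨g1, g2⟩, ?_, w, hwb, g3⟩
  have e1 : Reach (↑F ∪ R.wired δ) w u := (g3.mono (fun e he => Or.inl he.1)).symm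
  have e2 : Reach (↑F ∪ R.wired δ) v w := k4.mono (fun e he => Or.inl he.1)
  exact (hv.trans e2).trans e1

theorem clAt_eq_of_reach {R : Rect} {δ : ℝ} {F : Finset Edg} {v v' : Vtx}
    (h : Reach (↑F ∪ R.wired δ) v v') : clAt R δ F v = clAt R δ F v' := by
  have hc : cluAt R δ F v = cluAt R δ F v' := by
    ext u
    exact ⟨fun hu => h.symm.trans hu, fun hu => h.trans hu⟩
  apply NonemptyCompacts.ext
  show csetAt R δ F v = csetAt R δ F v'
  unfold csetAt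
  rw [hc]

/-- **Discrete upper estimate for pairs.** -/
theorem disc_pair_reach : ∃ C : ℝ, 0 < C ∧ ∀ (R : Rect) (z : ℂ) (ρ s δ : ℝ), 0 < s →
    16 * s ≤ ρ → csq z ρ ⊆ R.D → 0 < δ → 16 * δ ≤ s →
    Pr P (R.edges δ) (fun F => ∃ v v' : Vtx, ¬ Reach (↑F ∪ R.wired δ) v v' ∧
      ((csetAt R δ F v ∩ sq z s).Nonempty ∧ (csetAt R δ F v ∩ (csq z ρ)ᶜ).Nonempty) ∧
      ((csetAt R δ F v' ∩ sq z s).Nonempty ∧ (csetAt R δ F v' ∩ (csq z ρ)ᶜ).Nonempty)) ≤
      C * (s / ρ) ^ ((5 : ℝ) / 4) := by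
  obtain ⟨C, hC, hb⟩ := A4a_sharp
  refine ⟨C * 4 ^ ((5 : ℝ) / 4), by positivity, ?_⟩
  intro R z ρ s δ hs hsρ hD hδ hδs
  have hρ : 0 < ρ := by linarith
  obtain ⟨c, r, n, hL⟩ := exists_lat R z ρ s δ hs hsρ hD hδ hδs
  have hn := hL.hrn
  have hr := hL.h1r
  have h1 := hb c r n hr (by omega) (R.edges δ) hL.hsub
  have h2 : Pr P (R.edges δ) (fun F => ∃ v v' : Vtx, ¬ Reach (↑F ∪ R.wired δ) v v' ∧
      ((csetAt R δ F v ∩ sq z s).Nonempty ∧ (csetAt R δ F v ∩ (csq z ρ)ᶜ).Nonempty) ∧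
      ((csetAt R δ F v' ∩ sq z s).Nonempty ∧ (csetAt R δ F v' ∩ (csq z ρ)ᶜ).Nonempty)) ≤
      H12S.PQ (1/2) (R.edges δ) (fun F => H389NS.A4a c r n ↑F) := by
    refine Pr_mono w_ok ?_
    rintro F _ ⟨v, v', hne, ⟨g1, g2⟩, g1', g2'⟩
    obtain ⟨u, hu, hru, w, hw, hrw⟩ := hL.cross hδ.le g1 g2
    obtain ⟨u', hu', hru', w', hw', hrw'⟩ := hL.cross hδ.le g1' g2'
    refine ⟨u, hu, u', hu', ⟨w, hw, hrw⟩, ⟨w', hw', hrw'⟩, ?_⟩
    intro hcon
    apply hne
    exact (hru.trans (hcon.mono (fun e he => Or.inl he.1))).trans hru'.symm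
  refine h2.trans (h1.trans ?_)
  rw [mul_assoc, ← Real.mul_rpow (by norm_num) (by positivity)]
  apply mul_le_mul_of_nonneg_left _ hC.le
  exact Real.rpow_le_rpow (by positivity) hL.hq (by norm_num)

/-- **Discrete upper estimate for pairs.** -/
theorem disc_pair : ∃ C : ℝ, 0 < C ∧ ∀ (R : Rect) (z : ℂ) (ρ s δ : ℝ), 0 < s →
    16 * s ≤ ρ → csq z ρ ⊆ R.D → 0 < δ → 16 * δ ≤ s →
    Pr P (R.edges δ) (fun F => ∃ v v' : Vtx, clAt R δ F v ≠ clAt R δ F v' ∧
      ((csetAt R δ F v ∩ sq z s).Nonempty ∧ (csetAt R δ F v ∩ (csq z ρ)ᶜ).Nonempty) ∧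
      ((csetAt R δ F v' ∩ sq z s).Nonempty ∧ (csetAt R δ F v' ∩ (csq z ρ)ᶜ).Nonempty)) ≤
      C * (s / ρ) ^ ((5 : ℝ) / 4) := by
  obtain ⟨C, hC, h⟩ := disc_pair_reach
  refine ⟨C, hC, ?_⟩
  intro R z ρ s δ hs hsρ hD hδ hδs
  refine le_trans (Pr_mono w_ok ?_) (h R z ρ s δ hs hsρ hD hδ hδs)
  rintro F _ ⟨v, v', hne, g⟩
  exact ⟨v, v', fun hr => hne (clAt_eq_of_reach hr), g⟩

end Pool.Agent.W822.PV
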