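import Pool.Agent.W822.PV.Up2

/-!
# Passage to the limit for the lower bound
-/

set_option autoImplicit false
set_option maxHeartbeats 1000000
set_option linter.unusedSimpArgs false
set_option linter.unusedVariables false

namespace Pool.Agent.W822.PV

open H974 H934E Pool.Agent.H160R2.CV MeasureTheory TopologicalSpace Filter Topology Metric Set
open Pool.Agent.H389R2.Dim Pool.Agent.H389R2.CD Pool.Agent.H389R2.CL
open scoped ENNReal NNReal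

theorem isOpen_all_pairs {X : Type*} [MetricSpace X] {n : Set (X × X)} (hn : IsOpen n) :
    IsOpen {C : NonemptyCompacts X | (C : Set X) ×ˢ (C : Set X) ⊆ n} := by
  rw [isOpen_iff_mem_nhds]
  intro C hC
  obtain ⟨u, v, hu, hv, h1, h2, h3⟩ := generalized_tube_lemma C.isCompact C.isCompact hn hC
  have h4 : IsOpen {C : NonemptyCompacts X | (C : Set X) ⊆ u ∩ v} :=
    NonemptyCompacts.isOpen_subsets_of_isOpen (hu.inter hv)
  refine mem_of_superset (h4.mem_nhds (Set.subset_inter h1 h2)) ?_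
  rintro C' hC' ⟨x, y⟩ ⟨hx, hy⟩
  exact h3 ⟨(hC' hx).1, (hC' hy).2⟩

/-- Compact sets of diameter at least `ρ`. -/
def BigC (ρ : ℝ) : Set (NonemptyCompacts ℂ) := {K | ∃ x ∈ K, ∃ y ∈ K, ρ ≤ dist x y}

theorem isClosed_BigC (ρ : ℝ) : IsClosed (BigC ρ) := by
  rw [← isOpen_compl_iff]
  have h : (BigC ρ)ᶜ = {K : NonemptyCompacts ℂ | (K : Set ℂ) ×ˢ (K : Set ℂ) ⊆
      {p : ℂ × ℂ | dist p.1 p.2 < ρ}} := by
    ext K
    simp only [Set.mem_compl_iff, BigC, Set.mem_ofPred_eq]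
    constructor
    · rintro h ⟨x, y⟩ ⟨hx, hy⟩
      by_contra hcon
      simp only [Set.mem_ofPred_eq, not_lt] at hcon
      exact h ⟨x, hx, y, hy, hcon⟩
    · rintro h ⟨x, hx, y, hy, hxy⟩
      have := h (show (x, y) ∈ (K : Set ℂ) ×ˢ (K : Set ℂ) from ⟨hx, hy⟩)
      simp only [Set.mem_ofPred_eq] at this
      linarith
  rw [h]
  exact isOpen_all_pairs (isOpen_lt (continuous_fst.dist continuous_snd) continuous_const)

/-- Pairs of separated large sets, and a point of the first which is close to the second. -/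
def DD (ρ η : ℝ) : Set ((NonemptyCompacts ℂ × NonemptyCompacts ℂ) × ℂ) :=
  {p | infDist p.2 (p.1.1 : Set ℂ) ≤ 0 ∧ infDist p.2 (p.1.2 : Set ℂ) ≤ η ∧
    ρ ≤ dist p.1.1 p.1.2 ∧ p.1.1 ∈ BigC ρ ∧ p.1.2 ∈ BigC ρ}

theorem cont_inf : Continuous (fun p : ℂ × NonemptyCompacts ℂ => infDist p.1 (p.2 : Set ℂ)) :=
  (Metric.lipschitz_infDist (α := ℂ)).continuous

theorem cont_inf1 : Continuous (fun p : (NonemptyCompacts ℂ × NonemptyCompacts ℂ) × ℂ =>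
    infDist p.2 (p.1.1 : Set ℂ)) := by
  have hf : Continuous (fun p : (NonemptyCompacts ℂ × NonemptyCompacts ℂ) × ℂ =>
      ((p.2, p.1.1) : ℂ × NonemptyCompacts ℂ)) :=
    Continuous.prodMk continuous_snd (continuous_fst.comp continuous_fst)
  have := Continuous.comp (g := fun p : ℂ × NonemptyCompacts ℂ => infDist p.1 (p.2 : Set ℂ))
    (f := fun p : (NonemptyCompacts ℂ × NonemptyCompacts ℂ) × ℂ =>
      ((p.2, p.1.1) : ℂ × NonemptyCompacts ℂ)) cont_inf hf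
  exact this

theorem cont_inf2 : Continuous (fun p : (NonemptyCompacts ℂ × NonemptyCompacts ℂ) × ℂ =>
    infDist p.2 (p.1.2 : Set ℂ)) := by
  have hf : Continuous (fun p : (NonemptyCompacts ℂ × NonemptyCompacts ℂ) × ℂ =>
      ((p.2, p.1.2) : ℂ × NonemptyCompacts ℂ)) :=
    Continuous.prodMk continuous_snd (continuous_snd.comp continuous_fst)
  have := Continuous.comp (g := fun p : ℂ × NonemptyCompacts ℂ => infDist p.1 (p.2 : Set ℂ))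
    (f := fun p : (NonemptyCompacts ℂ × NonemptyCompacts ℂ) × ℂ =>
      ((p.2, p.1.2) : ℂ × NonemptyCompacts ℂ)) cont_inf hf
  exact this

theorem cont_dst : Continuous (fun p : (NonemptyCompacts ℂ × NonemptyCompacts ℂ) × ℂ =>
    dist p.1.1 p.1.2) := by
  have h1 : Continuous (fun p : NonemptyCompacts ℂ × NonemptyCompacts ℂ => dist p.1 p.2) :=
    continuous_dist
  have := Continuous.comp (g := fun p : NonemptyCompacts ℂ × NonemptyCompacts ℂ => dist p.1 p.2)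
    (f := fun p : (NonemptyCompacts ℂ × NonemptyCompacts ℂ) × ℂ => p.1) h1 continuous_fst
  exact this

theorem isClosed_DD (ρ η : ℝ) : IsClosed (DD ρ η) := by
  have h1 := cont_inf1
  have h2 := cont_inf2
  have h3 := cont_dst
  have c1 : IsClosed {p : (NonemptyCompacts ℂ × NonemptyCompacts ℂ) × ℂ |
      infDist p.2 (p.1.1 : Set ℂ) ≤ 0} := isClosed_le h1 continuous_const
  have c2 : IsClosed {p : (NonemptyCompacts ℂ × NonemptyCompacts ℂ) × ℂ |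
      infDist p.2 (p.1.2 : Set ℂ) ≤ η} := isClosed_le h2 continuous_const
  have c3 : IsClosed {p : (NonemptyCompacts ℂ × NonemptyCompacts ℂ) × ℂ |
      ρ ≤ dist p.1.1 p.1.2} := isClosed_le continuous_const h3
  have c4 : IsClosed {p : (NonemptyCompacts ℂ × NonemptyCompacts ℂ) × ℂ |
      p.1.1 ∈ BigC ρ} := IsClosed.preimage (f := fun p : (NonemptyCompacts ℂ ×
      NonemptyCompacts ℂ) × ℂ => p.1.1) (continuous_fst.comp continuous_fst) (isClosed_BigC ρ)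
  have c5 : IsClosed {p : (NonemptyCompacts ℂ × NonemptyCompacts ℂ) × ℂ |
      p.1.2 ∈ BigC ρ} := IsClosed.preimage (f := fun p : (NonemptyCompacts ℂ ×
      NonemptyCompacts ℂ) × ℂ => p.1.2) (continuous_snd.comp continuous_fst) (isClosed_BigC ρ)
  have e : DD ρ η = {p : (NonemptyCompacts ℂ × NonemptyCompacts ℂ) × ℂ |
      infDist p.2 (p.1.1 : Set ℂ) ≤ 0} ∩ ({p : (NonemptyCompacts ℂ × NonemptyCompacts ℂ) × ℂ |
      infDist p.2 (p.1.2 : Set ℂ) ≤ η} ∩ ({p : (NonemptyCompacts ℂ × NonemptyCompacts ℂ) × ℂ |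
      ρ ≤ dist p.1.1 p.1.2} ∩ ({p : (NonemptyCompacts ℂ × NonemptyCompacts ℂ) × ℂ |
      p.1.1 ∈ BigC ρ} ∩ {p : (NonemptyCompacts ℂ × NonemptyCompacts ℂ) × ℂ |
      p.1.2 ∈ BigC ρ}))) := rfl
  rw [e]
  exact c1.inter (c2.inter (c3.inter (c4.inter c5)))

theorem DD_mono (ρ : ℝ) {η η' : ℝ} (h : η ≤ η') : DD ρ η ⊆ DD ρ η' :=
  fun _ hp => ⟨hp.1, hp.2.1.trans h, hp.2.2⟩

/-- The points of `Q` at which two separated large members of the collection almost touch. -/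
def TQ (Q : Set ℂ) (ρ η : ℝ) (𝒞 : NonemptyCompacts (NonemptyCompacts ℂ)) : Set ℂ :=
  {w | w ∈ Q ∧ ∃ K ∈ 𝒞, ∃ K' ∈ 𝒞, ((K, K'), w) ∈ DD ρ η}

theorem TQ_mono (Q : Set ℂ) (ρ : ℝ) {η η' : ℝ} (h : η ≤ η')
    (𝒞 : NonemptyCompacts (NonemptyCompacts ℂ)) : TQ Q ρ η 𝒞 ⊆ TQ Q ρ η' 𝒞 := by
  rintro w ⟨h1, K, hK, K', hK', h2⟩
  exact ⟨h1, K, hK, K', hK', DD_mono ρ h h2⟩

theorem TQ_image (Q : Set ℂ) (ρ η : ℝ) (𝒞 : NonemptyCompacts (NonemptyCompacts ℂ)) :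
    TQ Q ρ η 𝒞 = Prod.snd '' ((((𝒞 : Set (NonemptyCompacts ℂ)) ×ˢ
      (𝒞 : Set (NonemptyCompacts ℂ))) ×ˢ Q) ∩ DD ρ η) := by
  ext w
  constructor
  · rintro ⟨h1, K, hK, K', hK', h2⟩
    exact ⟨((K, K'), w), ⟨⟨⟨hK, hK'⟩, h1⟩, h2⟩, rfl⟩
  · rintro ⟨⟨⟨K, K'⟩, w'⟩, ⟨⟨⟨hK, hK'⟩, h1⟩, h2⟩, rfl⟩
    exact ⟨h1, K, hK, K', hK', h2⟩

theorem isCompact_TQ {Q : Set ℂ} (hQ : IsCompact Q) (ρ η : ℝ)
    (𝒞 : NonemptyCompacts (NonemptyCompacts ℂ)) : IsCompact (TQ Q ρ η 𝒞) := by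
  rw [TQ_image]
  exact (((𝒞.isCompact.prod 𝒞.isCompact).prod hQ).inter_right (isClosed_DD ρ η)).image
    continuous_snd

theorem isOpen_TQ_sub {Q : Set ℂ} (hQ : IsCompact Q) (ρ η : ℝ) {O : Set ℂ} (hO : IsOpen O) :
    IsOpen {𝒞 : NonemptyCompacts (NonemptyCompacts ℂ) | TQ Q ρ η 𝒞 ⊆ O} := by
  rw [isOpen_iff_mem_nhds]
  intro 𝒞 h𝒞
  have hQO : IsCompact (Q \ O) := hQ.diff hO
  have hsub : ((𝒞 : Set (NonemptyCompacts ℂ)) ×ˢ (𝒞 : Set (NonemptyCompacts ℂ))) ×ˢ (Q \ O) ⊆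
      (DD ρ η)ᶜ := by
    rintro ⟨⟨K, K'⟩, w⟩ ⟨⟨hK, hK'⟩, hw1, hw2⟩ hD
    exact hw2 (h𝒞 ⟨hw1, K, hK, K', hK', hD⟩)
  obtain ⟨u, v, hu, hv, h1, h2, h3⟩ := generalized_tube_lemma (𝒞.isCompact.prod 𝒞.isCompact) hQO
    (isClosed_DD ρ η).isOpen_compl hsub
  refine mem_of_superset ((isOpen_all_pairs hu).mem_nhds h1) ?_
  rintro 𝒞' h𝒞' w ⟨hw, K, hK, K', hK', hD⟩
  by_contra hcon
  exact h3 (show ((K, K'), w) ∈ u ×ˢ v from ⟨h𝒞' ⟨hK, hK'⟩, h2 ⟨hw, hcon⟩⟩) hD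

theorem isClosed_good_TQ {Q : Set ℂ} (hQ : IsCompact Q) (ρ η t δ c : ℝ) :
    IsClosed {𝒞 : NonemptyCompacts (NonemptyCompacts ℂ) | Good t δ c (TQ Q ρ η 𝒞)} := by
  have h : {𝒞 : NonemptyCompacts (NonemptyCompacts ℂ) | Good t δ c (TQ Q ρ η 𝒞)} =
      ⋂ s : Finset (ℂ × ℝ), {𝒞 : NonemptyCompacts (NonemptyCompacts ℂ) | (∀ p ∈ s, δ ≤ p.2) →
        TQ Q ρ η 𝒞 ⊆ ⋃ p ∈ s, ball p.1 p.2 → c ≤ ∑ p ∈ s, p.2 ^ t} := by
    ext 𝒞; simp [Good]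
  rw [h]
  apply isClosed_iInter
  intro s
  by_cases h1 : (∀ p ∈ s, δ ≤ p.2) ∧ ¬ c ≤ ∑ p ∈ s, p.2 ^ t
  · have h2 : {𝒞 : NonemptyCompacts (NonemptyCompacts ℂ) | (∀ p ∈ s, δ ≤ p.2) →
        TQ Q ρ η 𝒞 ⊆ ⋃ p ∈ s, ball p.1 p.2 → c ≤ ∑ p ∈ s, p.2 ^ t} =
        {𝒞 : NonemptyCompacts (NonemptyCompacts ℂ) |
          TQ Q ρ η 𝒞 ⊆ ⋃ p ∈ s, ball p.1 p.2}ᶜ := by
      ext 𝒞
      simp only [Set.mem_ofPred_eq, Set.mem_compl_iff]
      constructor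
      · intro h3 h4; exact h1.2 (h3 h1.1 h4)
      · intro h3 _ h4; exact absurd h4 h3
    rw [h2]
    exact (isOpen_TQ_sub hQ ρ η (isOpen_biUnion fun p _ => isOpen_ball)).isClosed_compl
  · have h2 : {𝒞 : NonemptyCompacts (NonemptyCompacts ℂ) | (∀ p ∈ s, δ ≤ p.2) →
        TQ Q ρ η 𝒞 ⊆ ⋃ p ∈ s, ball p.1 p.2 → c ≤ ∑ p ∈ s, p.2 ^ t} = univ := by
      ext 𝒞
      simp only [Set.mem_ofPred_eq, Set.mem_univ, iff_true]
      intro h3 _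
      by_contra h4
      exact h1 ⟨h3, h4⟩
    rw [h2]; exact isClosed_univ

theorem good_zero {Q : Set ℂ} (hQ : IsCompact Q) {ρ t c : ℝ}
    {𝒞 : NonemptyCompacts (NonemptyCompacts ℂ)}
    (h : ∀ m : ℕ, Good t (1 / ((m : ℝ) + 1)) c (TQ Q ρ (1 / ((m : ℝ) + 1)) 𝒞)) {δ : ℝ}
    (hδ : 0 < δ) : Good t δ c (TQ Q ρ 0 𝒞) := by
  intro s hs hcov
  set O : Set ℂ := ⋃ p ∈ s, ball p.1 p.2 with hO
  have hOo : IsOpen O := isOpen_biUnion fun p _ => isOpen_ball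
  have hQO : IsCompact (Q \ O) := hQ.diff hOo
  have key : ∃ m : ℕ, TQ Q ρ (1 / ((m : ℝ) + 1)) 𝒞 ⊆ O := by
    by_contra hcon
    push Not at hcon
    set A : ℕ → Set ((NonemptyCompacts ℂ × NonemptyCompacts ℂ) × ℂ) := fun m =>
      (((𝒞 : Set (NonemptyCompacts ℂ)) ×ˢ (𝒞 : Set (NonemptyCompacts ℂ))) ×ˢ (Q \ O)) ∩
        DD ρ (1 / ((m : ℝ) + 1)) with hA
    have hcomp : IsCompact (((𝒞 : Set (NonemptyCompacts ℂ)) ×ˢ
        (𝒞 : Set (NonemptyCompacts ℂ))) ×ˢ (Q \ O)) := (𝒞.isCompact.prod 𝒞.isCompact).prod hQO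
    have hne : (⋂ m, A m).Nonempty := by
      apply IsCompact.nonempty_iInter_of_sequence_nonempty_isCompact_isClosed
      · intro m
        apply Set.inter_subset_inter_right
        apply DD_mono
        exact Nat.one_div_le_one_div (Nat.le_succ m)
      · intro m
        obtain ⟨w, ⟨hw, K, hK, K', hK', hD⟩, hwO⟩ := Set.not_subset.mp (hcon m)
        exact ⟨((K, K'), w), ⟨⟨hK, hK'⟩, hw, hwO⟩, hD⟩
      · exact hcomp.inter_right (isClosed_DD _ _)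
      · intro m
        exact (hcomp.inter_right (isClosed_DD _ _)).isClosed
    obtain ⟨⟨⟨K, K'⟩, w⟩, hp⟩ := hne
    rw [Set.mem_iInter] at hp
    obtain ⟨⟨⟨⟨hK, hK'⟩, hw, hwO⟩, hD0⟩, hD⟩ := And.intro (hp 0) hp
    apply hwO
    apply hcov
    refine ⟨hw, K, hK, K', hK', hD0.1, ?_, hD0.2.2⟩
    refine ge_of_tendsto' tendsto_one_div_add_atTop_nhds_zero_nat (fun m => ?_)
    exact (hD m).2.2.1
  obtain ⟨m, hm⟩ := key
  obtain ⟨n, hn⟩ := exists_nat_one_div_lt hδ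
  set k := max m n with hk
  have h1 : 1 / ((k : ℝ) + 1) ≤ 1 / ((m : ℝ) + 1) := Nat.one_div_le_one_div (le_max_left _ _)
  have h2 : 1 / ((k : ℝ) + 1) ≤ 1 / ((n : ℝ) + 1) := Nat.one_div_le_one_div (le_max_right _ _)
  exact h k s (fun p hp => (h2.trans hn.le).trans (hs p hp)) ((TQ_mono Q ρ h1 𝒞).trans hm)

theorem TQ_zero_sub {Q : Set ℂ} {ρ : ℝ} (hρ : 0 < ρ) (𝒞 : NonemptyCompacts (NonemptyCompacts ℂ)) :
    TQ Q ρ 0 𝒞 ⊆ dbl 𝒞 ∩ Q := by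
  have hmem : ∀ (K : NonemptyCompacts ℂ) (w : ℂ), infDist w (K : Set ℂ) ≤ 0 → w ∈ K := by
    intro K w h
    have h1 : infDist w (K : Set ℂ) = 0 := le_antisymm h infDist_nonneg
    exact (K.isCompact.isClosed.mem_iff_infDist_zero K.nonempty).mpr h1
  have hnt : ∀ K : NonemptyCompacts ℂ, K ∈ BigC ρ → (K : Set ℂ).Nontrivial := by
    rintro K ⟨x, hx, y, hy, hxy⟩
    refine ⟨x, hx, y, hy, ?_⟩
    rintro rfl
    rw [dist_self] at hxy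
    linarith
  rintro w ⟨hw, K, hK, K', hK', h1, h2, h3, h4, h5⟩
  refine ⟨⟨K, hK, K', hK', hnt K h4, hnt K' h5, ?_, hmem K w h1, hmem K' w h2⟩, hw⟩
  rintro rfl
  simp only [dist_self] at h3
  linarith

/-- **The lower bound in the limit.** -/
theorem lower_lim {μs : ℕ → ProbabilityMeasure (NonemptyCompacts (NonemptyCompacts ℂ))}
    {μ : ProbabilityMeasure (NonemptyCompacts (NonemptyCompacts ℂ))}
    (hμ : Tendsto μs atTop (𝓝 μ)) {Q : Set ℂ} (hQ : IsCompact Q) {t c ρ : ℝ} (ht : 0 < t)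
    (hc : 0 < c) (hρ : 0 < ρ) {ε : ℝ≥0∞}
    (h : ∀ η δ' : ℝ, 0 < η → 0 < δ' → ∃ᶠ n in atTop,
      (μs n : Measure (NonemptyCompacts (NonemptyCompacts ℂ)))
        {𝒞 | ¬ Good t δ' c (TQ Q ρ η 𝒞)} ≤ ε) :
    (μ : Measure (NonemptyCompacts (NonemptyCompacts ℂ)))
      {𝒞 | ¬ ENNReal.ofReal t ≤ dimH (dbl 𝒞 ∩ Q)} ≤ ε := by
  set B : ℕ → Set (NonemptyCompacts (NonemptyCompacts ℂ)) := fun m =>
    {𝒞 | ¬ Good t (1 / ((m : ℝ) + 1)) c (TQ Q ρ (1 / ((m : ℝ) + 1)) 𝒞)} with hB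
  have h2 : ∀ m, (μ : Measure (NonemptyCompacts (NonemptyCompacts ℂ))) (B m) ≤ ε := by
    intro m
    have hopen : IsOpen (B m) := (isClosed_good_TQ hQ ρ (1 / ((m : ℝ) + 1)) t
      (1 / ((m : ℝ) + 1)) c).isOpen_compl
    refine (ProbabilityMeasure.le_liminf_measure_open_of_tendsto hμ hopen).trans ?_
    exact liminf_le_of_frequently_le (h _ _ (by positivity) (by positivity))
  have h3 : {𝒞 : NonemptyCompacts (NonemptyCompacts ℂ) |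
      ¬ ENNReal.ofReal t ≤ dimH (dbl 𝒞 ∩ Q)} ⊆ ⋃ m : ℕ, B m := by
    intro 𝒞 h𝒞
    by_contra hcon
    simp only [hB, Set.mem_iUnion, Set.mem_ofPred_eq, not_exists, not_not] at hcon
    apply h𝒞
    refine le_trans ?_ (dimH_mono (TQ_zero_sub hρ 𝒞))
    exact le_dimH_of_good ht hc (isCompact_TQ hQ ρ 0 𝒞) (fun δ hδ => good_zero hQ hcon hδ)
  refine le_trans (measure_mono h3) ?_
  have hmono : Monotone B := by
    intro m m' hmm 𝒞 hK hG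
    have h4 : 1 / ((m' : ℝ) + 1) ≤ 1 / ((m : ℝ) + 1) := Nat.one_div_le_one_div hmm
    exact hK ((hG.anti h4).mono (TQ_mono Q ρ h4 𝒞))
  rw [hmono.measure_iUnion]
  exact iSup_le h2

end Pool.Agent.W822.PV
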