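import Pool.Agent.W822.PV.Loc5
import Pool.Agent.W822.PV.Lim

/-!
# The discrete lower estimate for the touching points
-/

set_option autoImplicit false
set_option maxHeartbeats 1000000
set_option linter.unusedSimpArgs false
set_option linter.unusedVariables false

namespace Pool.Agent.W822.PV

open H974 H934E Pool.Agent.H160R2.CV MeasureTheory TopologicalSpace Filter Topology Metric Set
open Pool.Agent.H389R2.Dim Pool.Agent.H389R2.CD Pool.Agent.H389R2.CL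
open scoped ENNReal NNReal

/-- The lattice box of a square of the plane. -/
structure GeoJ (R : Rect) (z : ℂ) (σ δ : ℝ) (s : ℕ) (c : ℤ × ℤ) : Prop where
  hw : ∀ e ∈ R.wired δ, e ∉ H12S.blk c (16 * s)
  hsub : H12S.blk c (16 * s) ⊆ R.edges δ
  h1 : |δ * (c.1 : ℝ) - z.re| ≤ δ
  h2 : |δ * ((c.2 : ℝ) + 1) - z.im| ≤ δ

/-- the lattice point of a point of the plane -/
noncomputable def cpt (δ : ℝ) (z : ℂ) : ℤ × ℤ := (⌊z.re / δ⌋, ⌊z.im / δ⌋ - 1)

theorem geoJ (R : Rect) (z : ℂ) (σ δ : ℝ) (s : ℕ) (hσ : 0 < σ) (hD : csq z (20 * σ) ⊆ R.D)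
    (hδ : 0 < δ) (hδσ : 16 * δ ≤ σ) (hs : δ * s ≤ σ) : GeoJ R z σ δ s (cpt δ z) := by
  -- the square is inside the rectangle
  have m1 : (⟨z.re - 20 * σ, z.im⟩ : ℂ) ∈ R.D := hD (by
    unfold csq
    simp only [Set.mem_ofPred_eq]
    constructor
    · rw [show z.re - 20 * σ - z.re = -(20 * σ) by ring, abs_neg, abs_of_pos (by positivity)]
    · rw [sub_self, abs_zero]; positivity)
  have m2 : (⟨z.re + 20 * σ, z.im⟩ : ℂ) ∈ R.D := hD (by
    unfold csq
    simp only [Set.mem_ofPred_eq]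
    constructor
    · rw [show z.re + 20 * σ - z.re = 20 * σ by ring, abs_of_pos (by positivity)]
    · rw [sub_self, abs_zero]; positivity)
  have m3 : (⟨z.re, z.im - 20 * σ⟩ : ℂ) ∈ R.D := hD (by
    unfold csq
    simp only [Set.mem_ofPred_eq]
    constructor
    · rw [sub_self, abs_zero]; positivity
    · rw [show z.im - 20 * σ - z.im = -(20 * σ) by ring, abs_neg, abs_of_pos (by positivity)])
  have m4 : (⟨z.re, z.im + 20 * σ⟩ : ℂ) ∈ R.D := hD (by
    unfold csq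
    simp only [Set.mem_ofPred_eq]
    constructor
    · rw [sub_self, abs_zero]; positivity
    · rw [show z.im + 20 * σ - z.im = 20 * σ by ring, abs_of_pos (by positivity)])
  unfold Rect.D at m1 m2 m3 m4
  simp only [Set.mem_ofPred_eq] at m1 m2 m3 m4
  have h1 : 20 * σ ≤ z.re + R.A := by obtain ⟨_, _, _⟩ := m1; linarith
  have h2 : 20 * σ ≤ z.im := by obtain ⟨_, _, _⟩ := m3; linarith
  have h3 : 20 * σ ≤ R.H - z.im := by obtain ⟨_, _, _⟩ := m4; linarith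
  have h4 : 20 * σ ≤ R.B - z.re := by obtain ⟨_, _, _⟩ := m2; linarith
  set c : Vtx := cpt δ z with hc
  have hc1 : c.1 = ⌊z.re / δ⌋ := rfl
  have hc2 : c.2 = ⌊z.im / δ⌋ - 1 := rfl
  have q1 : 16 ≤ σ / δ := by rw [le_div_iff₀ hδ]; exact hδσ
  have q2 : (s : ℝ) ≤ σ / δ := by rw [le_div_iff₀ hδ, mul_comm]; exact hs
  have f1 : (⌊z.re / δ⌋ : ℝ) ≤ z.re / δ := Int.floor_le _
  have f2 : z.re / δ < (⌊z.re / δ⌋ : ℝ) + 1 := Int.lt_floor_add_one _
  have f3 : (⌊z.im / δ⌋ : ℝ) ≤ z.im / δ := Int.floor_le _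
  have f4 : z.im / δ < (⌊z.im / δ⌋ : ℝ) + 1 := Int.lt_floor_add_one _
  have d1 : 20 * (σ / δ) ≤ z.re / δ + R.A / δ := by
    rw [← add_div, ← mul_div_assoc]; exact div_le_div_of_nonneg_right h1 hδ.le
  have d2 : 20 * (σ / δ) ≤ z.im / δ := by
    rw [← mul_div_assoc]; exact div_le_div_of_nonneg_right h2 hδ.le
  have d3 : 20 * (σ / δ) ≤ R.H / δ - z.im / δ := by
    rw [← sub_div, ← mul_div_assoc]; exact div_le_div_of_nonneg_right h3 hδ.le
  have d4 : 20 * (σ / δ) ≤ R.B / δ - z.re / δ := by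
    rw [← sub_div, ← mul_div_assoc]; exact div_le_div_of_nonneg_right h4 hδ.le
  have hx0 : (R.x0 δ : ℝ) ≤ -(R.A / δ) + 1 := by
    unfold Rect.x0
    push_cast
    linarith [Int.floor_le (-(R.A / δ))]
  have hx1 : R.B / δ - 1 ≤ (R.x1 δ : ℝ) := by
    unfold Rect.x1
    push_cast
    linarith [Int.le_ceil (R.B / δ)]
  have hy1 : R.H / δ - 2 ≤ (R.y1 δ : ℝ) := by
    unfold Rect.y1
    push_cast
    linarith [Int.le_ceil (R.H / δ)]
  obtain ⟨n, hn⟩ : ∃ n : ℕ, 16 * s = n := ⟨_, rfl⟩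
  have hnR : (n : ℝ) ≤ 16 * (σ / δ) := by
    rw [← hn]; push_cast; linarith
  have v1 : R.x0 δ < c.1 - n := by
    have : (R.x0 δ : ℝ) < ((c.1 - n : ℤ) : ℝ) := by push_cast; rw [hc1]; linarith
    exact_mod_cast this
  have v2 : 0 < c.2 - n := by
    have : (0 : ℝ) < ((c.2 - n : ℤ) : ℝ) := by push_cast; rw [hc2]; push_cast; linarith
    exact_mod_cast this
  have v3 : c.2 + n < R.y1 δ := by
    have : ((c.2 + n : ℤ) : ℝ) < (R.y1 δ : ℝ) := by push_cast; rw [hc2]; push_cast; linarith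
    exact_mod_cast this
  have v4 : c.1 + n < R.x1 δ := by
    have : ((c.1 + n : ℤ) : ℝ) < (R.x1 δ : ℝ) := by push_cast; rw [hc1]; linarith
    exact_mod_cast this
  refine ⟨?_, ?_, ?_, ?_⟩
  · rw [hn]
    rintro ⟨x, y, b⟩ he hE
    unfold Rect.wired at he
    simp only [Set.mem_ofPred_eq] at he
    unfold H12S.blk at hE
    cases b
    · rw [mem_RE_false] at hE
      rcases he with ⟨h, _⟩ | h | ⟨h, _⟩
      · exact absurd h (by simp)
      · omega
      · exact absurd h (by simp)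
    · rw [mem_RE_true] at hE
      rcases he with h | ⟨h, _⟩ | h
      · omega
      · exact absurd h (by simp)
      · omega
  · rw [hn]
    rintro ⟨x, y, b⟩ hE
    unfold Rect.edges
    rw [H973.mem_ES, Rect.mem_verts', Rect.mem_verts']
    unfold H12S.blk at hE
    cases b
    · rw [mem_RE_false] at hE
      rw [src_mk, tgt_false]
      simp only
      omega
    · rw [mem_RE_true] at hE
      rw [src_mk, tgt_true]
      simp only
      omega
  · rw [hc1]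
    have e1 : z.re = δ * (z.re / δ) := by field_simp
    rw [e1, ← mul_sub, abs_mul, abs_of_pos hδ]
    have : |(⌊δ * (z.re / δ) / δ⌋ : ℝ) - z.re / δ| ≤ 1 := by
      rw [← e1, abs_le]; constructor <;> linarith
    calc δ * _ ≤ δ * 1 := mul_le_mul_of_nonneg_left this hδ.le
      _ = δ := mul_one _
  · rw [hc2]
    have e1 : z.im = δ * (z.im / δ) := by field_simp
    rw [e1, ← mul_sub, abs_mul, abs_of_pos hδ]
    have : |(((⌊δ * (z.im / δ) / δ⌋ - 1 : ℤ) : ℝ) + 1) - z.im / δ| ≤ 1 := by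
      rw [← e1, abs_le]; push_cast; constructor <;> linarith
    calc δ * _ ≤ δ * 1 := mul_le_mul_of_nonneg_left this hδ.le
      _ = δ := mul_one _

/-- union bound -/
theorem pr_exists_le {ι : Type*} {p : Edg → ℝ} (hp : Ok p) {S : Finset Edg} (I : Finset ι)
    (A : ι → Finset Edg → Prop) {b : ℝ} (h : ∀ i ∈ I, Pr p S (A i) ≤ b) :
    Pr p S (fun F => ∃ i ∈ I, A i F) ≤ I.card * b := by
  classical
  induction I using Finset.induction_on with
  | empty =>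
    have : Pr p S (fun F => ∃ i ∈ (∅ : Finset ι), A i F) = 0 := by
      have h1 := Pr_not (p := p) S (fun F => ¬ ∃ i ∈ (∅ : Finset ι), A i F)
      have h2 : Pr p S (fun F => ¬ ∃ i ∈ (∅ : Finset ι), A i F) = 1 :=
        Pr_true _ (fun F _ => by simp)
      rw [h2] at h1
      have h3 : Pr p S (fun F => ¬ ¬ ∃ i ∈ (∅ : Finset ι), A i F) =
          Pr p S (fun F => ∃ i ∈ (∅ : Finset ι), A i F) := Pr_congr (fun F _ => not_not)
      rw [← h3, h1]
      norm_num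
    rw [this]
    simp
  | insert a I ha ih =>
    have h1 := ih (fun i hi => h i (Finset.mem_insert_of_mem hi))
    have h2 := h a (Finset.mem_insert_self _ _)
    rw [Finset.card_insert_of_notMem ha]
    have h3 : Pr p S (fun F => ∃ i ∈ insert a I, A i F) ≤
        Pr p S (fun F => A a F ∨ ∃ i ∈ I, A i F) := by
      apply Pr_mono hp
      rintro F _ ⟨i, hi, hA⟩
      rcases Finset.mem_insert.mp hi with rfl | hi
      · exact Or.inl hA
      · exact Or.inr ⟨i, hi, hA⟩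
    have h4 := Pr_or_le hp S (A a) (fun F => ∃ i ∈ I, A i F)
    push_cast
    linarith

/-- Two distinct clusters cross the annulus around `n`. -/
def Cr2 (R : Rect) (δ : ℝ) (n : ℂ) (s ρ : ℝ) (F : Finset Edg) : Prop :=
  ∃ v v' : Vtx, ¬ Reach (↑F ∪ R.wired δ) v v' ∧
      ((csetAt R δ F v ∩ sq n s).Nonempty ∧ (csetAt R δ F v ∩ (csq n ρ)ᶜ).Nonempty) ∧
      ((csetAt R δ F v' ∩ sq n s).Nonempty ∧ (csetAt R δ F v' ∩ (csq n ρ)ᶜ).Nonempty)

/-- The net. -/
noncomputable def net (δ ρ : ℝ) (s : ℕ) (c : ℤ × ℤ) (κ : ℕ) (k : ℤ) : ℂ :=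
  match κ with
  | 0 => ⟨δ * ((c.1 : ℝ) - 2 * s), δ * ((c.2 : ℝ) + 1) + k * ρ⟩
  | 1 => ⟨δ * ((c.1 : ℝ) + 2 * s), δ * ((c.2 : ℝ) + 1) + k * ρ⟩
  | 2 => ⟨δ * (c.1 : ℝ) + k * ρ, δ * ((c.2 : ℝ) + 1 - 2 * s)⟩
  | _ => ⟨δ * (c.1 : ℝ) + k * ρ, δ * ((c.2 : ℝ) + 1 + 2 * s)⟩

theorem sup_le_dist (x y : ℂ) : |x.re - y.re| ≤ dist x y ∧ |x.im - y.im| ≤ dist x y := by
  rw [Complex.dist_eq]
  constructor
  · have := Complex.abs_re_le_norm (x - y)
    rwa [Complex.sub_re] at this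
  · have := Complex.abs_im_le_norm (x - y)
    rwa [Complex.sub_im] at this

theorem exists_mult {ρ x B : ℝ} (hρ : 0 < ρ) (hx : |x| ≤ B) {L : ℤ} (hL : B / ρ + 1 ≤ L) :
    ∃ k ∈ Finset.Icc (-L) L, |x - k * ρ| ≤ ρ := by
  refine ⟨⌊x / ρ⌋, ?_, ?_⟩
  · rw [abs_le] at hx
    have h1 : (⌊x / ρ⌋ : ℝ) ≤ x / ρ := Int.floor_le _
    have h2 : x / ρ < (⌊x / ρ⌋ : ℝ) + 1 := Int.lt_floor_add_one _
    have h3 : x / ρ ≤ B / ρ := div_le_div_of_nonneg_right hx.2 hρ.le
    have h4 : -(B / ρ) ≤ x / ρ := by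
      rw [← neg_div]; exact div_le_div_of_nonneg_right hx.1 hρ.le
    rw [Finset.mem_Icc]
    constructor
    · have : ((-L : ℤ) : ℝ) ≤ (⌊x / ρ⌋ : ℝ) := by push_cast; linarith
      exact_mod_cast this
    · have : (⌊x / ρ⌋ : ℝ) ≤ ((L : ℤ) : ℝ) := by linarith
      exact_mod_cast this
  · have h1 : (⌊x / ρ⌋ : ℝ) ≤ x / ρ := Int.floor_le _
    have h2 : x / ρ < (⌊x / ρ⌋ : ℝ) + 1 := Int.lt_floor_add_one _
    have e1 : x = x / ρ * ρ := by field_simp
    rw [abs_le]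
    constructor
    · have := mul_le_mul_of_nonneg_right h1 hρ.le
      linarith
    · have := mul_le_mul_of_nonneg_right h2.le hρ.le
      nlinarith

/-- **Separation**: if no two distinct clusters cross the annuli of the net, then the two clusters
at a touching edge of an isolated box have Hausdorff distance at least `ρ`. -/
theorem sep_touch {R : Rect} {z : ℂ} {σ δ ρ : ℝ} {s : ℕ} {c : ℤ × ℤ} (hδ : 0 < δ) (hs1 : 1 ≤ s)
    (hg : GeoJ R z σ δ s c) (hs : δ * s ≤ σ) (hs2 : σ / 2 ≤ δ * s) (hσ : 0 < σ) (hρ : 0 < ρ)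
    {L : ℤ} (hL : 2 * σ / ρ + 1 ≤ L)
    {F : Finset Edg} {e : Edg} (he : e ∈ H12S.blk c s) (hT : Tch c s e F)
    (hI : Iso c (5 * s) F)
    (hno : ∀ κ ∈ Finset.range 4, ∀ k ∈ Finset.Icc (-L) L,
      ¬ Cr2 R δ (net δ ρ s c κ k) (3 * ρ) (σ / 4) F) :
    ρ ≤ dist (clAt R δ F (src e)) (clAt R δ F (tgt e)) := by
  by_contra hcon
  push Not at hcon
  have hne := tch_ne hs1 he hg.hw hT hI
  obtain ⟨_, ⟨w, hw, hr⟩, _, _⟩ := hT
  obtain ⟨i1, i2⟩ := inR_blk he
  have i3 : inR (c.1 - (2 * s : ℕ)) (c.1 + (2 * s : ℕ)) (c.2 - (2 * s : ℕ)) (c.2 + (2 * s : ℕ))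
      (src e) := by
    unfold inR at i1 ⊢; push_cast; omega
  obtain ⟨-, hwb⟩ := H389NS.E1b.bdB_iff.1 hw
  obtain ⟨y, hy1, hy2, hy3⟩ := first_exit i3 hr (by push_cast at hwb ⊢; omega)
  have hyK : pt δ y ∈ csetAt R δ F (src e) :=
    Or.inl ⟨y, hy3.mono (fun x hx => Or.inl hx.1.1), rfl⟩
  have hx : pt δ (src e) ∈ csetAt R δ F (src e) := Or.inl ⟨src e, Reach.refl _ _, rfl⟩
  have hv : pt δ (tgt e) ∈ csetAt R δ F (tgt e) := Or.inl ⟨tgt e, Reach.refl _ _, rfl⟩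
  have hinf : infDist (pt δ y) (csetAt R δ F (tgt e)) < ρ := by
    refine lt_of_le_of_lt (infDist_le_hausdorffDist_of_mem hyK
      (hausdorffEDist_ne_top_of_nonempty_of_bounded (csetAt_nonempty R δ F _)
        (csetAt_nonempty R δ F _) (csetAt_compact R δ F _).isBounded
        (csetAt_compact R δ F _).isBounded)) ?_
    exact hcon
  obtain ⟨y', hy', hyy'⟩ := (infDist_lt_iff (csetAt_nonempty R δ F _)).mp hinf
  have hd := sup_le_dist (pt δ y) y'
  have hyr : (pt δ y).re = δ * (y.1 : ℝ) := rfl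
  have hyi : (pt δ y).im = δ * ((y.2 : ℝ) + 1) := rfl
  have hcons : ∀ n : ℂ, |(pt δ y).re - n.re| ≤ ρ → |(pt δ y).im - n.im| ≤ ρ →
      (pt δ (src e) ∉ csq n (σ / 4)) → (pt δ (tgt e) ∉ csq n (σ / 4)) →
      Cr2 R δ n (3 * ρ) (σ / 4) F := by
    intro n hn1 hn2 hn3 hn4
    refine ⟨src e, tgt e, hne, ⟨⟨pt δ y, hyK, ?_⟩, ⟨pt δ (src e), hx, hn3⟩⟩,
      ⟨⟨y', hy', ?_⟩, ⟨pt δ (tgt e), hv, hn4⟩⟩⟩
    · exact ⟨by linarith, by linarith⟩
    · obtain ⟨hd1, hd2⟩ := hd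
      constructor
      · rw [abs_le] at hn1 hd1
        rw [abs_lt]; constructor <;> linarith
      · rw [abs_le] at hn2 hd2
        rw [abs_lt]; constructor <;> linarith
  have hs0 : (0 : ℝ) < s := by exact_mod_cast hs1
  -- position of the box of radius `s`
  have hfar : ∀ v : Vtx, inR (c.1 - s) (c.1 + s) (c.2 - s) (c.2 + s) v →
      (δ * ((c.1 : ℝ) - s) ≤ (pt δ v).re ∧ (pt δ v).re ≤ δ * ((c.1 : ℝ) + s)) ∧
      (δ * ((c.2 : ℝ) + 1 - s) ≤ (pt δ v).im ∧ (pt δ v).im ≤ δ * ((c.2 : ℝ) + 1 + s)) := by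
    rintro v ⟨⟨g1, g2⟩, g3, g4⟩
    have e1 : (pt δ v).re = δ * (v.1 : ℝ) := rfl
    have e2 : (pt δ v).im = δ * ((v.2 : ℝ) + 1) := rfl
    have r1 : (c.1 : ℝ) - s ≤ v.1 := by exact_mod_cast g1
    have r2 : (v.1 : ℝ) ≤ c.1 + s := by exact_mod_cast g2
    have r3 : (c.2 : ℝ) - s ≤ v.2 := by exact_mod_cast g3
    have r4 : (v.2 : ℝ) ≤ c.2 + s := by exact_mod_cast g4
    rw [e1, e2]
    refine ⟨⟨?_, ?_⟩, ?_, ?_⟩ <;> apply mul_le_mul_of_nonneg_left _ hδ.le <;> linarith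
  obtain ⟨⟨s1, s2⟩, s3, s4⟩ := hfar _ i1
  obtain ⟨⟨t1, t2⟩, t3, t4⟩ := hfar _ i2
  obtain ⟨⟨y1, y2⟩, y3, y4⟩ := hy1
  have z1 : ((c.1 : ℝ) - 2 * s ≤ y.1 ∧ (y.1 : ℝ) ≤ c.1 + 2 * s) := by
    constructor
    · have : ((c.1 - (2 * s : ℕ) : ℤ) : ℝ) ≤ y.1 := by exact_mod_cast y1
      push_cast at this; exact this
    · have : (y.1 : ℝ) ≤ ((c.1 + (2 * s : ℕ) : ℤ) : ℝ) := by exact_mod_cast y2
      push_cast at this; exact this
  have z2 : ((c.2 : ℝ) - 2 * s ≤ y.2 ∧ (y.2 : ℝ) ≤ c.2 + 2 * s) := by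
    constructor
    · have : ((c.2 - (2 * s : ℕ) : ℤ) : ℝ) ≤ y.2 := by exact_mod_cast y3
      push_cast at this; exact this
    · have : (y.2 : ℝ) ≤ ((c.2 + (2 * s : ℕ) : ℤ) : ℝ) := by exact_mod_cast y4
      push_cast at this; exact this
  have b1 : |δ * (y.1 : ℝ) - δ * (c.1 : ℝ)| ≤ 2 * σ := by
    rw [← mul_sub, abs_mul, abs_of_pos hδ]
    have : |(y.1 : ℝ) - c.1| ≤ 2 * s := by rw [abs_le]; constructor <;> linarith
    calc δ * |(y.1 : ℝ) - c.1| ≤ δ * (2 * s) := mul_le_mul_of_nonneg_left this hδ.le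
      _ ≤ 2 * σ := by linarith
  have b2 : |δ * ((y.2 : ℝ) + 1) - δ * ((c.2 : ℝ) + 1)| ≤ 2 * σ := by
    rw [← mul_sub, abs_mul, abs_of_pos hδ]
    have : |((y.2 : ℝ) + 1) - (c.2 + 1)| ≤ 2 * s := by rw [abs_le]; constructor <;> linarith
    calc δ * |((y.2 : ℝ) + 1) - (c.2 + 1)| ≤ δ * (2 * s) := mul_le_mul_of_nonneg_left this hδ.le
      _ ≤ 2 * σ := by linarith
  rcases hy2 with h | h | h | h
  · obtain ⟨k, hk, hk2⟩ := exists_mult hρ b2 hL
    refine hno 0 (by simp) k hk (hcons _ ?_ ?_ ?_ ?_)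
    · unfold net
      simp only
      rw [hyr, h]
      push_cast
      rw [sub_self, abs_zero]
      exact hρ.le
    · unfold net
      simp only
      rw [hyi, ← sub_sub]
      exact hk2
    · rintro ⟨g1, -⟩
      unfold net at g1
      simp only at g1
      rw [abs_le] at g1
      nlinarith [g1.2]
    · rintro ⟨g1, -⟩
      unfold net at g1
      simp only at g1
      rw [abs_le] at g1
      nlinarith [g1.2]
  · obtain ⟨k, hk, hk2⟩ := exists_mult hρ b2 hL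
    refine hno 1 (by simp) k hk (hcons _ ?_ ?_ ?_ ?_)
    · unfold net
      simp only
      rw [hyr, h]
      push_cast
      rw [sub_self, abs_zero]
      exact hρ.le
    · unfold net
      simp only
      rw [hyi, ← sub_sub]
      exact hk2
    · rintro ⟨g1, -⟩
      unfold net at g1
      simp only at g1
      rw [abs_le] at g1
      nlinarith [g1.1]
    · rintro ⟨g1, -⟩
      unfold net at g1
      simp only at g1
      rw [abs_le] at g1
      nlinarith [g1.1]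
  · obtain ⟨k, hk, hk2⟩ := exists_mult hρ b1 hL
    refine hno 2 (by simp) k hk (hcons _ ?_ ?_ ?_ ?_)
    · unfold net
      simp only
      rw [hyr, ← sub_sub]
      exact hk2
    · unfold net
      simp only
      rw [hyi, h]
      push_cast
      rw [show δ * ((c.2 : ℝ) - 2 * s + 1) - δ * ((c.2 : ℝ) + 1 - 2 * s) = 0 by ring, abs_zero]
      exact hρ.le
    · rintro ⟨-, g1⟩
      unfold net at g1
      simp only at g1
      rw [abs_le] at g1
      nlinarith [g1.2]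
    · rintro ⟨-, g1⟩
      unfold net at g1
      simp only at g1
      rw [abs_le] at g1
      nlinarith [g1.2]
  · obtain ⟨k, hk, hk2⟩ := exists_mult hρ b1 hL
    refine hno 3 (by simp) k hk (hcons _ ?_ ?_ ?_ ?_)
    · unfold net
      simp only
      rw [hyr, ← sub_sub]
      exact hk2
    · unfold net
      simp only
      rw [hyi, h]
      push_cast
      rw [show δ * ((c.2 : ℝ) + 2 * s + 1) - δ * ((c.2 : ℝ) + 1 + 2 * s) = 0 by ring, abs_zero]
      exact hρ.le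
    · rintro ⟨-, g1⟩
      unfold net at g1
      simp only at g1
      rw [abs_le] at g1
      nlinarith [g1.1]
    · rintro ⟨-, g1⟩
      unfold net at g1
      simp only at g1
      rw [abs_le] at g1
      nlinarith [g1.1]

end Pool.Agent.W822.PV
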