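import Pool.Agent.W822.PV.Dlow

/-!
# The discrete lower estimate for the touching points, and the lower bound in the limit
-/

set_option autoImplicit false
set_option maxHeartbeats 1000000
set_option linter.unusedSimpArgs false
set_option linter.unusedVariables false

namespace Pool.Agent.W822.PV

open H974 H934E Pool.Agent.H160R2.CV MeasureTheory TopologicalSpace Filter Topology Metric Set
open Pool.Agent.H389R2.Dim Pool.Agent.H389R2.CD Pool.Agent.H389R2.CL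
open scoped ENNReal NNReal

theorem mem_coll_of {R : Rect} {δ : ℝ} {F : Finset Edg} {v : Vtx} (hv : v ∈ R.verts δ) :
    clAt R δ F v ∈ coll R δ F := by
  show clAt R δ F v ∈ clAt R δ F '' (insert (0, 0) (↑(R.verts δ) : Set Vtx))
  exact ⟨v, Set.mem_insert_of_mem _ (Finset.mem_coe.mpr hv), rfl⟩

theorem dist_edge {δ : ℝ} (hδ : 0 < δ) (e : Edg) : dist (pt δ (src e)) (pt δ (tgt e)) ≤ δ := by
  rw [Complex.dist_eq]
  obtain ⟨x, y, _ | _⟩ := e
  · rw [src_mk, tgt_false]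
    have : pt δ (x, y) - pt δ (x, y + 1) = ((-δ : ℝ) : ℂ) * Complex.I := by
      unfold pt
      apply Complex.ext
      · simp
      · simp; ring
    rw [this, norm_mul, Complex.norm_I, mul_one, Complex.norm_real, norm_neg, Real.norm_eq_abs,
      abs_of_pos hδ]
  · rw [src_mk, tgt_true]
    have : pt δ (x, y) - pt δ (x + 1, y) = ((-δ : ℝ) : ℂ) := by
      unfold pt
      apply Complex.ext
      · simp; ring
      · simp
    rw [this, Complex.norm_real, norm_neg, Real.norm_eq_abs, abs_of_pos hδ]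

theorem big_of_arm {R : Rect} {δ σ ρ : ℝ} {s : ℕ} {c : ℤ × ℤ} (hδ : 0 < δ) (hs2 : σ / 2 ≤ δ * s)
    (hσ : 0 < σ) (hρ : ρ ≤ σ) {F : Finset Edg} {x w : Vtx}
    (hx : inR (c.1 - s) (c.1 + s) (c.2 - s) (c.2 + s) x) (hw : w ∈ H12S.bdB c (4 * s))
    (hr : Reach (↑F ∩ ↑(H12S.blk c (4 * s))) x w) : clAt R δ F x ∈ BigC ρ := by
  refine ⟨pt δ x, Or.inl ⟨x, Reach.refl _ _, rfl⟩, pt δ w,
    Or.inl ⟨w, hr.mono (fun e he => Or.inl he.1), rfl⟩, ?_⟩
  obtain ⟨h1, h2⟩ := sup_le_dist (pt δ x) (pt δ w)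
  obtain ⟨⟨a1, a2⟩, a3, a4⟩ := hx
  obtain ⟨-, hb⟩ := H389NS.E1b.bdB_iff.1 hw
  have ex : (pt δ x).re = δ * (x.1 : ℝ) := rfl
  have ex' : (pt δ x).im = δ * ((x.2 : ℝ) + 1) := rfl
  have ew : (pt δ w).re = δ * (w.1 : ℝ) := rfl
  have ew' : (pt δ w).im = δ * ((w.2 : ℝ) + 1) := rfl
  have key1 : 3 * (s : ℤ) ≤ |x.1 - w.1| ∨ 3 * (s : ℤ) ≤ |x.2 - w.2| := by
    rw [le_abs, le_abs]
    push_cast at hb
    omega
  rcases key1 with k | k
  · have k' : (3 * (s : ℝ)) ≤ |(x.1 : ℝ) - w.1| := by exact_mod_cast k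
    rw [ex, ew, ← mul_sub, abs_mul, abs_of_pos hδ] at h1
    have := mul_le_mul_of_nonneg_left k' hδ.le
    linarith
  · have k' : (3 * (s : ℝ)) ≤ |(x.2 : ℝ) - w.2| := by exact_mod_cast k
    rw [ex', ew', ← mul_sub, abs_mul, abs_of_pos hδ, show (x.2 : ℝ) + 1 - (w.2 + 1) =
      (x.2 : ℝ) - w.2 by ring] at h2
    have := mul_le_mul_of_nonneg_left k' hδ.le
    linarith

/-- The touching points are in the set `TQ`. -/
theorem touch_sub {R : Rect} {z : ℂ} {σ δ ρ η : ℝ} {s : ℕ} {c : ℤ × ℤ} (hδ : 0 < δ) (hs1 : 1 ≤ s)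
    (hg : GeoJ R z σ δ s c) (hs : δ * s ≤ σ) (hs2 : σ / 2 ≤ δ * s) (hσ : 0 < σ) (hρ : 0 < ρ)
    (hρσ : ρ ≤ σ) (hδη : δ ≤ η) (hδσ : δ ≤ σ) {Q : Set ℂ} (hQ : csq z (2 * σ) ⊆ Q)
    {L : ℤ} (hL : 2 * σ / ρ + 1 ≤ L) {F : Finset Edg} (hI : Iso c (5 * s) F)
    (hno : ∀ κ ∈ Finset.range 4, ∀ k ∈ Finset.Icc (-L) L,
      ¬ Cr2 R δ (net δ ρ s c κ k) (3 * ρ) (σ / 4) F) :
    pt δ '' ↑(TV c s F) ⊆ TQ Q ρ η (coll R δ F) := by
  rintro _ ⟨x, hx, rfl⟩
  obtain ⟨e, he, rfl, hT⟩ := mem_TV (Finset.mem_coe.mp hx)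
  obtain ⟨i1, i2⟩ := inR_blk he
  have heE : e ∈ R.edges δ := hg.hsub (H389NS.S4a.blk_mono c (by omega) he)
  have hvv : src e ∈ R.verts δ ∧ tgt e ∈ R.verts δ := by
    unfold Rect.edges at heE
    rwa [H973.mem_ES] at heE
  have hsep := sep_touch hδ hs1 hg hs hs2 hσ hρ hL he hT hI hno
  obtain ⟨_, ⟨w, hw, hr⟩, ⟨w', hw', hr'⟩, _⟩ := hT
  refine ⟨hQ ?_, clAt R δ F (src e), mem_coll_of hvv.1, clAt R δ F (tgt e), mem_coll_of hvv.2,
    ?_, ?_, hsep, big_of_arm hδ hs2 hσ hρσ i1 hw hr, big_of_arm hδ hs2 hσ hρσ i2 hw' hr'⟩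
  · obtain ⟨⟨a1, a2⟩, a3, a4⟩ := i1
    have g1 := hg.h1
    have g2 := hg.h2
    have ex : (pt δ (src e)).re = δ * ((src e).1 : ℝ) := rfl
    have ex' : (pt δ (src e)).im = δ * (((src e).2 : ℝ) + 1) := rfl
    have r1 : (c.1 : ℝ) - s ≤ (src e).1 := by exact_mod_cast a1
    have r2 : ((src e).1 : ℝ) ≤ c.1 + s := by exact_mod_cast a2
    have r3 : (c.2 : ℝ) - s ≤ (src e).2 := by exact_mod_cast a3
    have r4 : ((src e).2 : ℝ) ≤ c.2 + s := by exact_mod_cast a4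
    have k1 := mul_le_mul_of_nonneg_left r1 hδ.le
    have k2 := mul_le_mul_of_nonneg_left r2 hδ.le
    have k3 := mul_le_mul_of_nonneg_left r3 hδ.le
    have k4 := mul_le_mul_of_nonneg_left r4 hδ.le
    rw [abs_le] at g1 g2
    constructor
    · rw [ex, abs_le]; constructor <;> linarith
    · rw [ex', abs_le]; constructor <;> linarith
  · have : pt δ (src e) ∈ csetAt R δ F (src e) := Or.inl ⟨src e, Reach.refl _ _, rfl⟩
    exact (infDist_zero_of_mem this).le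
  · have : pt δ (tgt e) ∈ csetAt R δ F (tgt e) := Or.inl ⟨tgt e, Reach.refl _ _, rfl⟩
    exact (infDist_le_dist_of_mem this).trans ((dist_edge hδ e).trans hδη)

theorem cpt_disj {δ σ : ℝ} (hδ : 0 < δ) {s : ℕ} (hs : δ * s ≤ σ) (hδσ : 16 * δ ≤ σ) {z z' : ℂ}
    (hz : z.re + 100 * σ ≤ z'.re) (h1 : |δ * ((cpt δ z).1 : ℝ) - z.re| ≤ δ)
    (h2 : |δ * ((cpt δ z').1 : ℝ) - z'.re| ≤ δ) :
    Disjoint (H12S.blk (cpt δ z) (16 * s)) (H12S.blk (cpt δ z') (16 * s)) := by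
  set c := cpt δ z
  set c' := cpt δ z'
  have key : c.1 + 32 * s + 2 ≤ c'.1 := by
    rw [abs_le] at h1 h2
    have h3 : δ * ((c.1 : ℝ) + 32 * s + 2) ≤ δ * (c'.1 : ℝ) := by
      have e1 : δ * ((c.1 : ℝ) + 32 * s + 2) = δ * (c.1 : ℝ) + 32 * (δ * s) + 2 * δ := by ring
      rw [e1]
      linarith
    have h4 : (c.1 : ℝ) + 32 * s + 2 ≤ (c'.1 : ℝ) := le_of_mul_le_mul_left h3 hδ
    exact_mod_cast h4
  rw [Finset.disjoint_left]
  intro e h3 h4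
  have b1 := blk_ends h3
  have b2 := blk_ends h4
  push_cast at b1 b2
  omega

theorem net_near {z : ℂ} {σ δ ρ : ℝ} {s : ℕ} {c : ℤ × ℤ} {κ : ℕ} {k : ℤ}
    (h1 : -δ ≤ δ * (c.1 : ℝ) - z.re) (h2 : δ * (c.1 : ℝ) - z.re ≤ δ)
    (h3 : -δ ≤ δ * ((c.2 : ℝ) + 1) - z.im) (h4 : δ * ((c.2 : ℝ) + 1) - z.im ≤ δ) (hδ : 0 < δ)
    (hδσ : 16 * δ ≤ σ) (hs : δ * s ≤ σ) (hk1 : -(3 * σ) ≤ (k : ℝ) * ρ) (hk2 : (k : ℝ) * ρ ≤ 3 * σ) :
    |(net δ ρ s c κ k).re - z.re| ≤ 4 * σ ∧ |(net δ ρ s c κ k).im - z.im| ≤ 4 * σ := by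
  have hs0 : 0 ≤ δ * (s : ℝ) := by positivity
  have e1 : δ * ((c.1 : ℝ) - 2 * s) = δ * (c.1 : ℝ) - 2 * (δ * s) := by ring
  have e2 : δ * ((c.1 : ℝ) + 2 * s) = δ * (c.1 : ℝ) + 2 * (δ * s) := by ring
  have e3 : δ * ((c.2 : ℝ) + 1 - 2 * s) = δ * ((c.2 : ℝ) + 1) - 2 * (δ * s) := by ring
  have e4 : δ * ((c.2 : ℝ) + 1 + 2 * s) = δ * ((c.2 : ℝ) + 1) + 2 * (δ * s) := by ring
  unfold net
  split
  · simp only
    rw [e1]
    constructor
    · rw [abs_le]; constructor <;> linarith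
    · rw [abs_le]; constructor <;> linarith
  · simp only
    rw [e2]
    constructor
    · rw [abs_le]; constructor <;> linarith
    · rw [abs_le]; constructor <;> linarith
  · simp only
    rw [e3]
    constructor
    · rw [abs_le]; constructor <;> linarith
    · rw [abs_le]; constructor <;> linarith
  · simp only
    rw [e4]
    constructor
    · rw [abs_le]; constructor <;> linarith
    · rw [abs_le]; constructor <;> linarith

theorem exists_rat_sq' (w : ℂ) {s : ℝ} (hs : 0 < s) : ∃ a b : ℚ, w ∈ sq (⟨a, b⟩ : ℂ) s := by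
  obtain ⟨a, ha, ha'⟩ := exists_rat_btwn (show w.re < w.re + s by linarith)
  obtain ⟨b, hb, hb'⟩ := exists_rat_btwn (show w.im < w.im + s by linarith)
  refine ⟨a, b, ?_, ?_⟩
  · simp only; rw [abs_lt]; constructor <;> linarith
  · simp only; rw [abs_lt]; constructor <;> linarith

/-- the centres -/
noncomputable def zc (z0 : ℂ) (σ : ℝ) (j : ℕ) : ℂ := ⟨z0.re + 100 * σ * j, z0.im⟩

/-- **Discrete lower estimate.** -/
theorem disc_touch {t : ℝ} (ht0 : 0 < t) (ht : t < 3 / 4) (R : Rect) (z0 : ℂ) {ρ0 : ℝ}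
    (hρ0 : 0 < ρ0) (hD : csq z0 ρ0 ⊆ R.D) {ε : ℝ} (hε : 0 < ε) :
    ∃ ρ c0 : ℝ, 0 < ρ ∧ 0 < c0 ∧ ∀ η δ' : ℝ, 0 < η → 0 < δ' → ∃ δ0 : ℝ, 0 < δ0 ∧
      ∀ δ : ℝ, 0 < δ → δ < δ0 → Pr P (R.edges δ)
        (fun F => ¬ Good t δ' c0 (TQ (csq z0 ρ0) ρ η (coll R δ F))) ≤ ε := by
  obtain ⟨A, r0, p, a, E, hA, hr0, hp, ha, hE, hmain⟩ := main_prob ht0.le ht
  obtain ⟨C, hC, hpair⟩ := disc_pair_reach
  set p' : ℝ := min p (1/2) with hp'
  have hp'0 : 0 < p' := lt_min hp (by norm_num)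
  have hp'1 : p' ≤ 1/2 := min_le_right _ _
  have hp'p : p' ≤ p := min_le_left _ _
  obtain ⟨M, hM⟩ := exists_pow_lt_of_lt_one (show 0 < ε / 2 by positivity)
    (show 1 - p' < 1 by linarith)
  set σ : ℝ := ρ0 / (100 * ((M : ℝ) + 1)) with hσd
  have hM1 : (0 : ℝ) < (M : ℝ) + 1 := by positivity
  have hσ : 0 < σ := by positivity
  have hσM : 100 * σ * ((M : ℝ) + 1) = ρ0 := by rw [hσd]; field_simp
  -- the ratio
  set K : ℝ := 28 * M * (C * 12 ^ ((5 : ℝ) / 4)) + 1 with hK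
  have hK0 : 0 < K := by positivity
  set θ : ℝ := min (1 / 192) ((ε / 2 / K) ^ (4 : ℕ)) with hθ
  have hθ0 : 0 < θ := lt_min (by norm_num) (by positivity)
  have hθ1 : θ ≤ 1 / 192 := min_le_left _ _
  have hθ2 : K * θ ^ ((1 : ℝ) / 4) ≤ ε / 2 := by
    have h1 : θ ^ ((1 : ℝ) / 4) ≤ ((ε / 2 / K) ^ (4 : ℕ)) ^ ((1 : ℝ) / 4) :=
      Real.rpow_le_rpow hθ0.le (min_le_right _ _) (by norm_num)
    have h2 : ((ε / 2 / K) ^ (4 : ℕ)) ^ ((1 : ℝ) / 4) = ε / 2 / K := by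
      rw [← Real.rpow_natCast, ← Real.rpow_mul (by positivity)]
      norm_num
    rw [h2] at h1
    calc K * θ ^ ((1 : ℝ) / 4) ≤ K * (ε / 2 / K) := mul_le_mul_of_nonneg_left h1 hK0.le
      _ = ε / 2 := by field_simp
  set ρ : ℝ := θ * σ with hρd
  have hρ : 0 < ρ := by positivity
  have hρσ : ρ ≤ σ / 192 := by
    rw [hρd]
    calc θ * σ ≤ 1 / 192 * σ := mul_le_mul_of_nonneg_right hθ1 hσ.le
      _ = σ / 192 := by ring
  refine ⟨ρ, 2 ^ (-t) / (4 * E / a ^ 2 * (σ / 2) ^ (-t)), hρ, by positivity, ?_⟩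
  intro η δ' hη hδ'
  have hA0 : (0 : ℝ) < A := by exact_mod_cast hA
  have hr00 : (0 : ℝ) < r0 := by exact_mod_cast hr0
  refine ⟨min (min η δ') (min (ρ / 16) (σ / (2 * A * (r0 + 1)))), by positivity, ?_⟩
  intro δ hδ hδ0
  simp only [lt_min_iff] at hδ0
  obtain ⟨⟨d1, d2⟩, d3, d4⟩ := hδ0
  have hδσ : 16 * δ ≤ σ := by linarith
  have d5 : δ * (2 * A * (r0 + 1)) < σ := by
    rwa [lt_div_iff₀ (by positivity)] at d4
  -- the scale
  set r : ℕ := ⌊σ / (A * δ)⌋₊ with hr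
  have hAδ : 0 < (A : ℝ) * δ := by positivity
  have f1 : (r : ℝ) ≤ σ / (A * δ) := Nat.floor_le (by positivity)
  have f2 : σ / (A * δ) < (r : ℝ) + 1 := Nat.lt_floor_add_one _
  have f1' : δ * ((A * r : ℕ) : ℝ) ≤ σ := by
    rw [le_div_iff₀ hAδ] at f1
    push_cast
    linarith
  have f2' : σ < (r + 1 : ℝ) * (A * δ) := by
    rwa [div_lt_iff₀ hAδ] at f2
  have hAδσ : A * δ ≤ σ / 2 := by
    have h1 : (1 : ℝ) ≤ r0 + 1 := by linarith
    have h2 : A * δ * 1 ≤ A * δ * (r0 + 1) := mul_le_mul_of_nonneg_left h1 hAδ.le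
    linarith
  have f3 : σ / 2 ≤ δ * ((A * r : ℕ) : ℝ) := by
    push_cast
    linarith
  have hrr : r0 ≤ r := by
    have h1 : ((r0 : ℝ) + 1) * (A * δ) < ((r : ℝ) + 1) * (A * δ) := by linarith
    have h2 : (r0 : ℝ) + 1 < (r : ℝ) + 1 := lt_of_mul_lt_mul_right h1 hAδ.le
    have h3 : (r0 : ℝ) < r := by linarith
    exact_mod_cast h3.le
  obtain ⟨s, hs⟩ : ∃ s : ℕ, A * r = s := ⟨_, rfl⟩
  have hs1 : 1 ≤ s := by rw [← hs]; exact Nat.mul_pos hA (hr0.trans hrr)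
  rw [hs] at f1' f3
  -- the boxes
  set z : ℕ → ℂ := zc z0 σ with hz
  set c : ℕ → ℤ × ℤ := fun j => cpt δ (z j) with hcd
  have hzin : ∀ j < M, csq (z j) (20 * σ) ⊆ csq z0 ρ0 := by
    intro j hj y hy
    obtain ⟨y1, y2⟩ := hy
    have hjM : (j : ℝ) + 1 ≤ M := by exact_mod_cast hj
    have e1 : (z j).re = z0.re + 100 * σ * j := rfl
    have e2 : (z j).im = z0.im := rfl
    rw [e1] at y1
    rw [e2] at y2
    have hj0 : (0 : ℝ) ≤ 100 * σ * j := by positivity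
    have hjM' : 100 * σ * ((j : ℝ) + 1) ≤ 100 * σ * M :=
      mul_le_mul_of_nonneg_left hjM (by positivity)
    rw [abs_le] at y1 y2
    constructor
    · rw [abs_le]; constructor <;> linarith
    · rw [abs_le]; constructor <;> linarith
  have hgeo : ∀ j < M, GeoJ R (z j) σ δ s (c j) := fun j hj =>
    geoJ R (z j) σ δ s hσ ((hzin j hj).trans hD) hδ hδσ f1'
  have hdis : ∀ j < M, ∀ i < j, Disjoint (H12S.blk (c i) (16 * s)) (H12S.blk (c j) (16 * s)) := by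
    intro j hj i hi
    apply cpt_disj hδ f1' hδσ _ (hgeo i (by omega)).h1 (hgeo j hj).h1
    have : (i : ℝ) + 1 ≤ j := by exact_mod_cast hi
    show z0.re + 100 * σ * i + 100 * σ ≤ z0.re + 100 * σ * j
    have h1 := mul_le_mul_of_nonneg_left this (show 0 ≤ 100 * σ by positivity)
    linarith
  have hfail := indep_fail (t := t) (a := a) (E := E) (p := p') (by linarith) hs1 c
    (S := R.edges δ) M (fun j hj => (hgeo j hj).hsub) hdis (fun j hj => by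
      refine hp'p.trans ?_
      have := hmain r hrr (c j) (R.edges δ) (by rw [hs]; exact (hgeo j hj).hsub)
      rw [hs] at this
      exact this)
  -- the net
  set L : ℤ := ((⌈2 * σ / ρ⌉₊ + 1 : ℕ) : ℤ) with hL
  have hL1 : 2 * σ / ρ + 1 ≤ L := by
    rw [hL]; push_cast; linarith [Nat.le_ceil (2 * σ / ρ)]
  have hσρ : σ / ρ = 1 / θ := by rw [hρd]; field_simp
  have hθi : 192 ≤ 1 / θ := by
    rw [le_div_iff₀ hθ0]; linarith
  have hL2 : (L : ℝ) ≤ 3 * (1 / θ) := by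
    have h1 : (⌈2 * σ / ρ⌉₊ : ℝ) < 2 * σ / ρ + 1 := Nat.ceil_lt_add_one (by positivity)
    have h2 : 2 * σ / ρ = 2 * (1 / θ) := by rw [mul_div_assoc, hσρ]
    rw [hL]; push_cast
    linarith
  set I : Finset (ℕ × ℕ × ℤ) := Finset.range M ×ˢ Finset.range 4 ×ˢ Finset.Icc (-L) L with hI
  have hcardI : (I.card : ℝ) ≤ 28 * M * (1 / θ) := by
    rw [hI, Finset.card_product, Finset.card_product, Finset.card_range, Finset.card_range,
      Int.card_Icc]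
    have h1 : (((L + 1 - -L).toNat : ℕ) : ℝ) = 2 * L + 1 := by
      have h2 : (((L + 1 - -L).toNat : ℕ) : ℤ) = 2 * L + 1 := by
        rw [Int.toNat_of_nonneg (by omega)]; ring
      exact_mod_cast h2
    push_cast
    rw [h1]
    have h3 : (2 * (L : ℝ) + 1) ≤ 7 * (1 / θ) := by linarith
    calc (M : ℝ) * (4 * (2 * L + 1)) ≤ M * (4 * (7 * (1 / θ))) := by gcongr
      _ = 28 * M * (1 / θ) := by ring
  have hnet : ∀ i ∈ I, Pr P (R.edges δ) (Cr2 R δ (net δ ρ s (c i.1) i.2.1 i.2.2) (3 * ρ) (σ / 4)) ≤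
      C * 12 ^ ((5 : ℝ) / 4) * θ ^ ((5 : ℝ) / 4) := by
    rintro ⟨j, κ, k⟩ hi
    rw [hI, Finset.mem_product, Finset.mem_product] at hi
    obtain ⟨hj, hκ, hk⟩ := hi
    have hjM := Finset.mem_range.mp hj
    have hk' := Finset.mem_Icc.mp hk
    simp only at hκ hk' ⊢
    have hsub : csq (net δ ρ s (c j) κ k) (σ / 4) ⊆ R.D := by
      refine Set.Subset.trans ?_ ((hzin j hjM).trans hD)
      have g1 := (hgeo j hjM).h1
      have g2 := (hgeo j hjM).h2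
      have hkρ : |(k : ℝ) * ρ| ≤ 3 * σ := by
        rw [abs_mul, abs_of_pos hρ]
        have h1 : |(k : ℝ)| ≤ L := by
          rw [abs_le]
          constructor
          · have : ((-L : ℤ) : ℝ) ≤ k := by exact_mod_cast hk'.1
            push_cast at this; exact this
          · exact_mod_cast hk'.2
        calc |(k : ℝ)| * ρ ≤ (3 * (1 / θ)) * ρ := mul_le_mul_of_nonneg_right (h1.trans hL2) hρ.le
          _ = 3 * σ := by rw [hρd]; field_simp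
      rintro y ⟨y1, y2⟩
      rw [abs_le] at g1 g2 hkρ
      have main := net_near (κ := κ) g1.1 g1.2 g2.1 g2.2 hδ hδσ f1' hkρ.1 hkρ.2
      obtain ⟨n1, n2⟩ := main
      rw [abs_le] at n1 n2 y1 y2
      constructor
      · rw [abs_le]; constructor <;> linarith
      · rw [abs_le]; constructor <;> linarith
    have h1 := hpair R (net δ ρ s (c j) κ k) (σ / 4) (3 * ρ) δ (by positivity) (by linarith) hsub
      hδ (by linarith)
    refine h1.trans (le_of_eq ?_)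
    rw [mul_assoc, ← Real.mul_rpow (by norm_num) hθ0.le]
    congr 2
    rw [hρd]
    field_simp
    ring
  have hCr := pr_exists_le w_ok I (fun i F => Cr2 R δ (net δ ρ s (c i.1) i.2.1 i.2.2) (3 * ρ)
    (σ / 4) F) hnet
  -- conclusion
  have hbad : Pr P (R.edges δ) (fun F => ¬ Good t δ' (2 ^ (-t) / (4 * E / a ^ 2 * (σ / 2) ^ (-t)))
      (TQ (csq z0 ρ0) ρ η (coll R δ F))) ≤ Pr P (R.edges δ) (fun F =>
        (∀ j < M, ¬ Gd t a E (c j) s F) ∨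
        ∃ i ∈ I, Cr2 R δ (net δ ρ s (c i.1) i.2.1 i.2.2) (3 * ρ) (σ / 4) F) := by
    apply Pr_mono w_ok
    intro F _ hF
    by_contra hcon
    push Not at hcon
    obtain ⟨⟨j, hj, hGd⟩, hno⟩ := hcon
    apply hF
    have hsub := touch_sub (η := η) (Q := csq z0 ρ0) hδ hs1 (hgeo j hj) f1' f3 hσ hρ
      (hρσ.trans (by linarith)) d1.le (by linarith) (by
        refine Set.Subset.trans ?_ (hzin j hj)
        rintro y ⟨y1, y2⟩
        exact ⟨y1.trans (by linarith), y2.trans (by linarith)⟩) hL1 hGd.1.2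
      (fun κ hκ k hk => hno (j, κ, k) (by
        rw [hI, Finset.mem_product, Finset.mem_product]
        exact ⟨Finset.mem_range.mpr hj, hκ, hk⟩))
    exact good_of_Gd ht0.le ha hE hs1 hGd hδ d2.le (by positivity) f3 hsub
  refine hbad.trans ((Pr_or_le w_ok _ _ _).trans ?_)
  have h5 : (I.card : ℝ) * (C * 12 ^ ((5 : ℝ) / 4) * θ ^ ((5 : ℝ) / 4)) ≤ ε / 2 := by
    have e1 : (1 / θ) * θ ^ ((5 : ℝ) / 4) = θ ^ ((1 : ℝ) / 4) := by
      rw [show ((5 : ℝ) / 4) = 1 + 1 / 4 by norm_num, Real.rpow_add hθ0, Real.rpow_one]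
      field_simp
    calc (I.card : ℝ) * (C * 12 ^ ((5 : ℝ) / 4) * θ ^ ((5 : ℝ) / 4))
        ≤ (28 * M * (1 / θ)) * (C * 12 ^ ((5 : ℝ) / 4) * θ ^ ((5 : ℝ) / 4)) :=
          mul_le_mul_of_nonneg_right hcardI (by positivity)
      _ = 28 * M * (C * 12 ^ ((5 : ℝ) / 4)) * ((1 / θ) * θ ^ ((5 : ℝ) / 4)) := by ring
      _ = 28 * M * (C * 12 ^ ((5 : ℝ) / 4)) * θ ^ ((1 : ℝ) / 4) := by rw [e1]
      _ ≤ K * θ ^ ((1 : ℝ) / 4) := by
          apply mul_le_mul_of_nonneg_right _ (by positivity)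
          rw [hK]; linarith
      _ ≤ ε / 2 := hθ2
  have h6 : Pr P (R.edges δ) (fun F => ∀ j < M, ¬ Gd t a E (c j) s F) ≤ ε / 2 := hfail.trans hM.le
  linarith

theorem isCompact_csq' (z : ℂ) (s : ℝ) : IsCompact (csq z s) := by
  apply Metric.isCompact_of_isClosed_isBounded (isClosed_csq z s)
  rw [Metric.isBounded_iff_subset_closedBall z]
  refine ⟨|s| + |s|, ?_⟩
  rintro y ⟨y1, y2⟩
  rw [mem_closedBall, Complex.dist_eq]
  refine (Complex.norm_le_abs_re_add_abs_im _).trans ?_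
  rw [Complex.sub_re, Complex.sub_im]
  exact add_le_add (y1.trans (le_abs_self s)) (y2.trans (le_abs_self s))

section

variable (R : Rect) {δ : ℕ → ℝ} (hδ : ∀ i, 0 < δ i) (hlim : Tendsto δ atTop (𝓝 0))
  {μ : ProbabilityMeasure (NonemptyCompacts (NonemptyCompacts ℂ))}
  (hμ : Tendsto (fun i => collLaw R (δ i)) atTop (𝓝 μ))

include hδ hlim hμ

theorem touch_lower_t {t : ℝ} (ht0 : 0 < t) (ht : t < 3 / 4) {z0 : ℂ} {ρ0 : ℝ} (hρ0 : 0 < ρ0)
    (hD : csq z0 ρ0 ⊆ R.D) : ∀ᵐ 𝒞 : NonemptyCompacts (NonemptyCompacts ℂ)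
    ∂(μ : Measure (NonemptyCompacts (NonemptyCompacts ℂ))),
    ENNReal.ofReal t ≤ dimH (dbl 𝒞 ∩ csq z0 ρ0) := by
  rw [ae_iff, ← nonpos_iff_eq_zero]
  apply ENNReal.le_of_forall_pos_le_add
  intro ε hε _
  rw [zero_add]
  obtain ⟨ρ, c0, hρ, hc0, H⟩ := disc_touch ht0 ht R z0 hρ0 hD (ε := (ε : ℝ)) (by exact_mod_cast hε)
  refine lower_lim hμ (isCompact_csq' z0 ρ0) ht0 hc0 hρ ?_
  intro η δ' hη hδ'
  obtain ⟨δ0, hδ0, H2⟩ := H η δ' hη hδ'
  apply Eventually.frequently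
  filter_upwards [hlim.eventually_lt_const hδ0] with i hi
  have hopen : IsOpen {𝒞 : NonemptyCompacts (NonemptyCompacts ℂ) |
      ¬ Good t δ' c0 (TQ (csq z0 ρ0) ρ η 𝒞)} :=
    (isClosed_good_TQ (isCompact_csq' z0 ρ0) ρ η t δ' c0).isOpen_compl
  rw [collLaw_apply R (δ i) hopen.measurableSet, ← ENNReal.ofReal_coe_nnreal]
  exact ENNReal.ofReal_le_ofReal (H2 (δ i) (hδ i) hi)

theorem touch_lower_sq {z0 : ℂ} {ρ0 : ℝ} (hρ0 : 0 < ρ0)
    (hD : csq z0 ρ0 ⊆ R.D) : ∀ᵐ 𝒞 : NonemptyCompacts (NonemptyCompacts ℂ)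
    ∂(μ : Measure (NonemptyCompacts (NonemptyCompacts ℂ))),
    3 / 4 ≤ dimH (dbl 𝒞 ∩ csq z0 ρ0) := by
  have h1 : ∀ m : ℕ, ∀ᵐ 𝒞 : NonemptyCompacts (NonemptyCompacts ℂ)
      ∂(μ : Measure (NonemptyCompacts (NonemptyCompacts ℂ))),
      ENNReal.ofReal (3 / 4 - 1 / 2 * (1 / ((m : ℝ) + 1))) ≤ dimH (dbl 𝒞 ∩ csq z0 ρ0) := by
    intro m
    have h2 : (0 : ℝ) < 1 / ((m : ℝ) + 1) := by positivity
    have h3 : 1 / ((m : ℝ) + 1) ≤ 1 := by
      rw [div_le_one (by positivity)]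
      linarith [(Nat.cast_nonneg m : (0 : ℝ) ≤ m)]
    exact touch_lower_t R hδ hlim hμ (by linarith) (by linarith) hρ0 hD
  filter_upwards [ae_all_iff.mpr h1] with 𝒞 h𝒞
  have e34 : ENNReal.ofReal (3 / 4) = 3 / 4 := by
    rw [ENNReal.ofReal_div_of_pos (by norm_num)]
    norm_num
  rw [← e34]
  have h2 : Tendsto (fun m : ℕ => ENNReal.ofReal (3 / 4 - 1 / 2 * (1 / ((m : ℝ) + 1)))) atTop
      (𝓝 (ENNReal.ofReal (3 / 4))) := by
    apply ENNReal.tendsto_ofReal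
    have := ((tendsto_one_div_add_atTop_nhds_zero_nat (𝕜 := ℝ)).const_mul (1 / 2)).const_sub
      (3 / 4)
    simpa using this
  exact le_of_tendsto' h2 h𝒞

/-- **The points which lie on two distinct nontrivial clusters have dimension `3 / 4` in every
open subset of the rectangle.** -/
theorem touch_dim : ∀ᵐ 𝒞 : NonemptyCompacts (NonemptyCompacts ℂ)
    ∂(μ : Measure (NonemptyCompacts (NonemptyCompacts ℂ))),
    ∀ U : Set ℂ, IsOpen U → U.Nonempty → U ⊆ R.D → dimH (dbl 𝒞 ∩ U) = 3 / 4 := by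
  have key : ∀ (a b : ℚ) (n : ℕ), ∀ᵐ 𝒞 : NonemptyCompacts (NonemptyCompacts ℂ)
      ∂(μ : Measure (NonemptyCompacts (NonemptyCompacts ℂ))),
      csq (⟨a, b⟩ : ℂ) (1 / ((n : ℝ) + 1)) ⊆ R.D →
        3 / 4 ≤ dimH (dbl 𝒞 ∩ csq (⟨a, b⟩ : ℂ) (1 / ((n : ℝ) + 1))) := by
    intro a b n
    by_cases h : csq (⟨a, b⟩ : ℂ) (1 / ((n : ℝ) + 1)) ⊆ R.D
    · filter_upwards [touch_lower_sq R hδ hlim hμ (by positivity) h] with 𝒞 h𝒞 _
      exact h𝒞
    · exact Eventually.of_forall fun _ h' => absurd h' h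
  filter_upwards [pair_upper R hδ hlim hμ, ae_all_iff.mpr (fun a => ae_all_iff.mpr (fun b =>
    ae_all_iff.mpr (fun n => key a b n)))] with 𝒞 h1 h2 U hU hne hUD
  apply le_antisymm
  · exact (dimH_mono (Set.inter_subset_inter_right _ hUD)).trans h1
  · obtain ⟨w, hw⟩ := hne
    obtain ⟨r, hr, hball⟩ := Metric.isOpen_iff.mp hU w hw
    obtain ⟨n, hn⟩ := exists_nat_one_div_lt (show (0 : ℝ) < r / 8 by positivity)
    obtain ⟨a, b, hab1, hab2⟩ := exists_rat_sq' w (show (0 : ℝ) < 1 / ((n : ℝ) + 1) by positivity)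
    have hsub : csq (⟨a, b⟩ : ℂ) (1 / ((n : ℝ) + 1)) ⊆ U := by
      refine Set.Subset.trans ?_ hball
      rintro y ⟨y1, y2⟩
      rw [mem_ball, Complex.dist_eq]
      refine lt_of_le_of_lt (Complex.norm_le_abs_re_add_abs_im _) ?_
      rw [Complex.sub_re, Complex.sub_im]
      rw [abs_lt] at hab1 hab2
      rw [abs_le] at y1 y2
      simp only at hab1 hab2 y1 y2
      have k1 : |y.re - w.re| ≤ 2 * (1 / ((n : ℝ) + 1)) := by rw [abs_le]; constructor <;> linarith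
      have k2 : |y.im - w.im| ≤ 2 * (1 / ((n : ℝ) + 1)) := by rw [abs_le]; constructor <;> linarith
      linarith
    exact (h2 a b n (hsub.trans hUD)).trans (dimH_mono (Set.inter_subset_inter_right _ hsub))

end

end Pool.Agent.W822.PV
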