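import Pool.Agent.H389R2.CL.Gen

/-!
# First moment upper bound for the dimension of a random set, from events of the limit
-/

set_option autoImplicit false
set_option maxHeartbeats 1000000
set_option linter.unusedSimpArgs false

namespace Pool.Agent.W822.PV

open H974 Pool.Agent.H160R2.CV MeasureTheory TopologicalSpace Filter Topology Metric Set
open Pool.Agent.H389R2.Dim Pool.Agent.H389R2.CD Pool.Agent.H389R2.CL
open scoped ENNReal NNReal

/-- First moment upper bound for the dimension of `W y ∩ A` for a limit in law. -/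
theorem upper_gen2 {X : Type*} [MetricSpace X] {Y : Type*} [TopologicalSpace Y]
    [MeasurableSpace Y] [BorelSpace Y] [HasOuterApproxClosed Y]
    {t : ℝ} (ht : 0 < t) {μs : ℕ → ProbabilityMeasure Y}
    {μ : ProbabilityMeasure Y} (hμ : Tendsto μs atTop (𝓝 μ)) {A : Set X}
    {W : Y → Set X}
    {ι : ℕ → Type} [∀ m, Fintype (ι m)] (U : ∀ m, ι m → Set X)
    (r : ℕ → ℝ≥0∞) (hr : Tendsto r atTop (𝓝 0)) (hUr : ∀ m i, ediam (U m i) ≤ r m)
    (hA : ∀ m, A ⊆ ⋃ i, U m i) (H : ∀ m, ι m → Set Y) (hHo : ∀ m i, IsOpen (H m i))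
    (hWH : ∀ m i K, (W K ∩ A ∩ U m i).Nonempty → K ∈ H m i) (p : ∀ m, ι m → ℝ≥0∞)
    (hp : ∀ m i, ∃ᶠ n in atTop, (μs n : Measure Y) (H m i) ≤ p m i)
    (hlim : Tendsto (fun m => ∑ i, ediam (U m i) ^ t * p m i) atTop (𝓝 0)) :
    ∀ᵐ K : Y ∂(μ : Measure Y), dimH (W K ∩ A) ≤ ENNReal.ofReal t := by
  classical
  set Z : ℕ → Y → ℝ≥0∞ := fun m K =>
    ∑ i, (H m i).indicator (fun _ => ediam (U m i) ^ t) K with hZ
  have hZm : ∀ m, Measurable (Z m) := by
    intro m
    apply Finset.measurable_sum
    intro i _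
    exact measurable_const.indicator (hHo m i).measurableSet
  have hZi : ∀ m, ∫⁻ K, Z m K ∂(μ : Measure Y) ≤
      ∑ i, ediam (U m i) ^ t * p m i := by
    intro m
    rw [hZ]
    simp only
    rw [lintegral_finsetSum _ (fun i _ => measurable_const.indicator (hHo m i).measurableSet)]
    apply Finset.sum_le_sum
    intro i _
    rw [lintegral_indicator (hHo m i).measurableSet, setLIntegral_const]
    gcongr
    exact (ProbabilityMeasure.le_liminf_measure_open_of_tendsto hμ (hHo m i)).trans
      (liminf_le_of_frequently_le (hp m i))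
  have h0 : ∫⁻ K, liminf (fun m => Z m K) atTop ∂(μ : Measure Y) = 0 := by
    rw [← nonpos_iff_eq_zero]
    refine (lintegral_liminf_le hZm).trans ?_
    refine (liminf_le_liminf (Eventually.of_forall hZi)).trans ?_
    rw [hlim.liminf_eq]
  rw [lintegral_eq_zero_iff (Measurable.liminf hZm)] at h0
  filter_upwards [h0] with K hK
  borelize X
  have hK' : liminf (fun m => Z m K) atTop = 0 := hK
  have h1 : μH[t] (W K ∩ A) = 0 := by
    rw [← nonpos_iff_eq_zero, ← hK']
    have h2 := Measure.hausdorffMeasure_le_liminf_sum (l := atTop) t (W K ∩ A) r hr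
      (fun m i => if K ∈ H m i then U m i else ∅) (Eventually.of_forall fun m i => by
        by_cases h : K ∈ H m i
        · rw [if_pos h]; exact hUr m i
        · rw [if_neg h]; simp) (Eventually.of_forall fun m => by
        intro x hx
        obtain ⟨i, hi⟩ := Set.mem_iUnion.mp (hA m hx.2)
        refine Set.mem_iUnion.mpr ⟨i, ?_⟩
        rw [if_pos (hWH m i K ⟨x, hx, hi⟩)]
        exact hi)
    refine h2.trans (liminf_le_liminf (Eventually.of_forall fun m => ?_))
    apply le_of_eq
    simp only [hZ]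
    apply Finset.sum_congr rfl
    intro i _
    by_cases h : K ∈ H m i
    · rw [if_pos h, Set.indicator_of_mem h]
    · rw [if_neg h, Set.indicator_of_notMem h]
      simp [ht]
  have h2 : ((t.toNNReal : ℝ≥0) : ℝ) = t := Real.coe_toNNReal t ht.le
  have h3 : μH[((t.toNNReal : ℝ≥0) : ℝ)] (W K ∩ A) ≠ ∞ := by
    rw [h2, h1]; exact ENNReal.zero_ne_top
  exact dimH_le_of_hausdorffMeasure_ne_top h3

/-- Upper bound for the dimension of the limit in a bounded region. -/
theorem upper_sq_ev {Y : Type*} [TopologicalSpace Y]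
    [MeasurableSpace Y] [BorelSpace Y] [HasOuterApproxClosed Y]
    {μs : ℕ → ProbabilityMeasure Y} {μ : ProbabilityMeasure Y} (hμ : Tendsto μs atTop (𝓝 μ))
    {W : Y → Set ℂ} {a : ℝ} (ha2 : a < 2)
    {A : Set ℂ} {M : ℝ}
    (hM : 0 < M) (hAM : ∀ z ∈ A, |z.re| ≤ M ∧ |z.im| ≤ M) {C s0 : ℝ} (hC : 0 < C) (hs0 : 0 < s0)
    (Ev : ℂ → ℝ → Set Y) (hEo : ∀ z s, IsOpen (Ev z s))
    (hWE : ∀ z s y, 0 < s → s ≤ s0 → (W y ∩ A ∩ sq z s).Nonempty → y ∈ Ev z s)
    (h : ∀ z : ℂ, ∀ s : ℝ, 0 < s → s ≤ s0 → (sq z s ∩ A).Nonempty → ∃ᶠ n in atTop,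
      (μs n : Measure Y) (Ev z s) ≤
        ENNReal.ofReal (C * s ^ a)) :
    ∀ᵐ K : Y ∂(μ : Measure Y),
      dimH (W K ∩ A) ≤ ENNReal.ofReal (2 - a) := by
  classical
  have main : ∀ t : ℝ, (2 - a) < t → ∀ᵐ K : Y ∂(μ : Measure Y),
      dimH (W K ∩ A) ≤ ENNReal.ofReal t := by
    intro t ht
    have ht0 : 0 < t := by linarith
    set q : ℕ → ℝ := fun m => s0 * (1 / 2 : ℝ) ^ m with hq
    have hq0 : ∀ m, 0 < q m := fun m => by rw [hq]; positivity
    have hqs : ∀ m, q m ≤ s0 := by
      intro m
      rw [hq]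
      have : (1 / 2 : ℝ) ^ m ≤ 1 := pow_le_one₀ (by norm_num) (by norm_num)
      nlinarith
    have hqlim : Tendsto q atTop (𝓝 0) := by
      have := (tendsto_pow_atTop_nhds_zero_of_lt_one (r := (1 / 2 : ℝ)) (by norm_num)
        (by norm_num)).const_mul s0
      rwa [mul_zero] at this
    set N : ℕ → ℕ := fun m => ⌈2 * M / q m⌉₊ + 2 with hN
    set ct : ∀ m, Fin (N m) × Fin (N m) → ℂ := fun m i =>
      ⟨-M + (i.1 : ℕ) * q m, -M + (i.2 : ℕ) * q m⟩ with hct
    set U : ∀ m, Fin (N m) × Fin (N m) → Set ℂ := fun m i =>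
      if (sq (ct m i) (q m) ∩ A).Nonempty then sq (ct m i) (q m) else ∅ with hU
    set H : ∀ m, Fin (N m) × Fin (N m) → Set Y := fun m i =>
      if (sq (ct m i) (q m) ∩ A).Nonempty then Ev (ct m i) (q m) else ∅ with hH
    refine upper_gen2 ht0 hμ U (fun m => ENNReal.ofReal (4 * q m)) ?_ ?_ ?_ H ?_ ?_
      (fun m _ => ENNReal.ofReal (C * (q m) ^ (a))) ?_ ?_
    · have := (hqlim.const_mul 4)
      rw [mul_zero] at this
      rw [← ENNReal.ofReal_zero]
      exact ENNReal.tendsto_ofReal this
    · intro m i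
      rw [hU]
      simp only
      split_ifs
      · exact ediam_sq _ _
      · rw [ediam_empty]; exact bot_le
    · intro m z hz
      have hm := hq0 m
      obtain ⟨h1, h2⟩ := hAM z hz
      rw [abs_le] at h1 h2
      have key : ∀ x : ℝ, -M ≤ x → x ≤ M → ∃ i : Fin (N m), |x - (-M + (i : ℕ) * q m)| < q m := by
        intro x hx1 hx2
        have h3 : 0 ≤ (x + M) / q m := div_nonneg (by linarith) hm.le
        have h4 : ⌊(x + M) / q m⌋₊ < N m := by
          rw [hN]
          simp only
          have h5 : ⌊(x + M) / q m⌋₊ ≤ ⌈2 * M / q m⌉₊ := by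
            refine (Nat.floor_le_floor ?_).trans (Nat.floor_le_ceil _)
            exact div_le_div_of_nonneg_right (by linarith) hm.le
          omega
        refine ⟨⟨_, h4⟩, ?_⟩
        have h6 := Nat.floor_le h3
        have h7 := Nat.lt_floor_add_one ((x + M) / q m)
        rw [le_div_iff₀ hm] at h6
        rw [div_lt_iff₀ hm] at h7
        rw [abs_lt]
        simp only
        constructor <;> nlinarith
      obtain ⟨i, hi⟩ := key z.re h1.1 h1.2
      obtain ⟨j, hj⟩ := key z.im h2.1 h2.2
      have hzU : z ∈ sq (ct m (i, j)) (q m) := ⟨hi, hj⟩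
      refine Set.mem_iUnion.mpr ⟨(i, j), ?_⟩
      rw [hU]
      simp only
      rw [if_pos ⟨z, hzU, hz⟩]
      exact hzU
    · intro m i
      rw [hH]
      simp only
      split_ifs
      · exact hEo _ _
      · exact isOpen_empty
    · rintro m i K ⟨x, ⟨hx1, hx2⟩, hx3⟩
      rw [hU] at hx3
      simp only at hx3
      by_cases h1 : (sq (ct m i) (q m) ∩ A).Nonempty
      · rw [if_pos h1] at hx3
        rw [hH]
        simp only
        rw [if_pos h1]
        exact hWE _ _ _ (hq0 m) (hqs m) ⟨x, ⟨hx1, hx2⟩, hx3⟩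
      · rw [if_neg h1] at hx3
        exact absurd hx3 (Set.notMem_empty _)
    · intro m i
      by_cases h1 : (sq (ct m i) (q m) ∩ A).Nonempty
      · have h2 := h (ct m i) (q m) (hq0 m) (hqs m) h1
        refine h2.mono ?_
        intro n hn
        rw [hH]
        simp only
        rw [if_pos h1]
        exact hn
      · apply Frequently.of_forall
        intro n
        rw [hH]
        simp only
        rw [if_neg h1, measure_empty]
        exact bot_le
    · -- the sum
      have hbound : ∀ m, ∑ i : Fin (N m) × Fin (N m), ediam (U m i) ^ t *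
          ENNReal.ofReal (C * (q m) ^ (a)) ≤
          ENNReal.ofReal ((2 * M + 3 * s0) ^ 2 * (4 ^ t * C) * (q m) ^ (t - (2 - a))) := by
        intro m
        have hm := hq0 m
        have h1 : ∀ i ∈ (Finset.univ : Finset (Fin (N m) × Fin (N m))), ediam (U m i) ^ t *
            ENNReal.ofReal (C * (q m) ^ (a)) ≤
            ENNReal.ofReal ((4 * q m) ^ t * (C * (q m) ^ (a))) := by
          intro i _
          rw [ENNReal.ofReal_mul (p := (4 * q m) ^ t) (by positivity)]
          refine mul_le_mul' ?_ le_rfl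
          rw [← ENNReal.ofReal_rpow_of_pos (by positivity)]
          apply ENNReal.rpow_le_rpow _ ht0.le
          rw [hU]
          simp only
          split_ifs
          · exact ediam_sq _ _
          · rw [ediam_empty]; exact bot_le
        refine (Finset.sum_le_sum h1).trans ?_
        rw [Finset.sum_const, Finset.card_univ, Fintype.card_prod, Fintype.card_fin, nsmul_eq_mul,
          ← ENNReal.ofReal_natCast, ← ENNReal.ofReal_mul (by positivity)]
        apply ENNReal.ofReal_le_ofReal
        have h2 : ((N m : ℕ) : ℝ) ≤ (2 * M + 3 * s0) / q m := by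
          rw [hN]
          simp only
          push_cast
          have h3 : (⌈2 * M / q m⌉₊ : ℝ) < 2 * M / q m + 1 :=
            Nat.ceil_lt_add_one (div_nonneg (by positivity) hm.le)
          have h4 : 1 ≤ s0 / q m := by rw [le_div_iff₀ hm]; linarith [hqs m]
          have h5 : (2 * M + 3 * s0) / q m = 2 * M / q m + 3 * (s0 / q m) := by ring
          linarith
        have h3 : ((N m * N m : ℕ) : ℝ) ≤ ((2 * M + 3 * s0) / q m) ^ 2 := by
          push_cast
          have : (0 : ℝ) ≤ N m := Nat.cast_nonneg _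
          nlinarith
        calc ((N m * N m : ℕ) : ℝ) * ((4 * q m) ^ t * (C * (q m) ^ (a)))
            ≤ ((2 * M + 3 * s0) / q m) ^ 2 * ((4 * q m) ^ t * (C * (q m) ^ (a))) :=
              mul_le_mul_of_nonneg_right h3 (by positivity)
          _ = (2 * M + 3 * s0) ^ 2 * (4 ^ t * C) *
              ((q m) ^ t * (q m) ^ (a) / (q m) ^ (2 : ℝ)) := by
              rw [Real.mul_rpow (by norm_num) hm.le, Real.rpow_two]
              field_simp
          _ = _ := by
              congr 1
              rw [← Real.rpow_add hm, ← Real.rpow_sub hm]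
              congr 1
              ring
      have hl : Tendsto (fun m => ENNReal.ofReal
          ((2 * M + 3 * s0) ^ 2 * (4 ^ t * C) * (q m) ^ (t - (2 - a)))) atTop (𝓝 0) := by
        rw [← ENNReal.ofReal_zero]
        apply ENNReal.tendsto_ofReal
        have h2 : Tendsto (fun m => (q m) ^ (t - (2 - a))) atTop (𝓝 0) := by
          have := hqlim.rpow_const (p := t - (2 - a)) (Or.inr (by linarith))
          rwa [Real.zero_rpow (by linarith)] at this
        have := h2.const_mul ((2 * M + 3 * s0) ^ 2 * (4 ^ t * C))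
        rwa [mul_zero] at this
      exact tendsto_of_tendsto_of_tendsto_of_le_of_le tendsto_const_nhds hl
        (fun _ => bot_le) hbound
  have hall : ∀ᵐ K : Y ∂(μ : Measure Y),
      ∀ m : ℕ, dimH (W K ∩ A) ≤ ENNReal.ofReal ((2 - a) + 1 / ((m : ℝ) + 1)) := by
    rw [ae_all_iff]
    intro m
    apply main
    have : (0 : ℝ) < 1 / ((m : ℝ) + 1) := by positivity
    linarith
  filter_upwards [hall] with K hK
  have h1 : Tendsto (fun m : ℕ => ENNReal.ofReal ((2 - a) + 1 / ((m : ℝ) + 1))) atTop
      (𝓝 (ENNReal.ofReal ((2 - a)))) := by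
    apply ENNReal.tendsto_ofReal
    have := (tendsto_one_div_add_atTop_nhds_zero_nat (𝕜 := ℝ)).const_add ((2 - a))
    rwa [add_zero] at this
  exact ge_of_tendsto' h1 hK

end Pool.Agent.W822.PV
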