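import Pool.Agent.H389R2.NS.S4

/-!
# A domain with wired left and right parts and two thin fair strips: pivotal blocks have positive
probability
-/

set_option autoImplicit false
set_option maxHeartbeats 1000000
set_option linter.unusedSimpArgs false
set_option linter.unusedVariables false

namespace Pool.Agent.W822.PV

open H974 H12S H389NS Finset

/-- The fair region: a square and a vertical strip. -/
noncomputable def RF (c : ℤ × ℤ) (s : ℕ) : Finset Edg :=
  blk c (4 * s) ∪ RE (c.1 - (s - 1 : ℕ)) (c.1 + (s - 1 : ℕ)) (c.2 - (16 * s : ℕ)) (c.2 + (16 * s : ℕ))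

/-- The open region. -/
noncomputable def OO (c : ℤ × ℤ) (s : ℕ) : Finset Edg := blk c (16 * s) \ RF c s

/-- The probabilities. -/
noncomputable def pE (c : ℤ × ℤ) (s : ℕ) (e : Edg) : ℝ := by
  classical exact if e ∈ RF c s then 1 / 2 else 1

/-- left side -/
def II (c : ℤ × ℤ) (s : ℕ) : Set Vtx := lsd (c.1 - (16 * s : ℕ)) (c.2 - (16 * s : ℕ)) (c.2 + (16 * s : ℕ))
/-- right side -/
def JJ (c : ℤ × ℤ) (s : ℕ) : Set Vtx := lsd (c.1 + (16 * s : ℕ)) (c.2 - (16 * s : ℕ)) (c.2 + (16 * s : ℕ))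
/-- dual bottom -/
def II' (c : ℤ × ℤ) (s : ℕ) : Set Vtx := {v | v.2 = c.2 - (16 * s : ℕ) - 1}
/-- dual top -/
def JJ' (c : ℤ × ℤ) (s : ℕ) : Set Vtx := {v | v.2 = c.2 + (16 * s : ℕ)}

theorem RF_sub (c : ℤ × ℤ) {s : ℕ} (hs : 1 ≤ s) : RF c s ⊆ blk c (16 * s) := by
  unfold RF
  apply Finset.union_subset
  · exact S4a.blk_mono c (by omega)
  · unfold blk
    exact RE_subset (by push_cast; omega) (by push_cast; omega) (by push_cast; omega)
      (by push_cast; omega)

theorem pE_RF {c : ℤ × ℤ} {s : ℕ} {e : Edg} (he : e ∈ RF c s) : pE c s e = 1 / 2 := by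
  unfold pE
  rw [if_pos he]

theorem pE_OO {c : ℤ × ℤ} {s : ℕ} {e : Edg} (he : e ∈ OO c s) : pE c s e = 1 := by
  unfold pE
  rw [if_neg (Finset.mem_sdiff.mp he).2]

theorem pE_ok (c : ℤ × ℤ) (s : ℕ) : Ok (pE c s) := by
  intro e
  unfold pE
  split_ifs <;> norm_num

theorem domE (c : ℤ × ℤ) {s : ℕ} (hs : 1 ≤ s) :
    DomD (blk c (16 * s)) (II c s) (JJ c s) (II' c s) (JJ' c s) := by
  unfold blk
  exact rect_dual (by push_cast; omega) (by push_cast; omega)

theorem far_IJ {c : ℤ × ℤ} {s : ℕ} {v : Vtx} (hv : v ∈ II c s ∪ JJ c s) :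
    v.1 = c.1 - 16 * s ∨ v.1 = c.1 + 16 * s := by
  rcases hv with hv | hv
  · left
    have := hv.1
    push_cast at this
    exact this
  · right
    have := hv.1
    push_cast at this
    exact this

theorem far_IJ' {c : ℤ × ℤ} {s : ℕ} {v : Vtx} (hv : v ∈ II' c s ∪ JJ' c s) :
    v.2 = c.2 - 16 * s - 1 ∨ v.2 = c.2 + 16 * s := by
  rcases hv with hv | hv
  · left
    unfold II' at hv
    simp only [Set.mem_ofPred_eq] at hv
    push_cast at hv
    exact hv
  · right
    unfold JJ' at hv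
    simp only [Set.mem_ofPred_eq] at hv
    push_cast at hv
    exact hv

theorem domBE (c : ℤ × ℤ) {s : ℕ} (hs : 1 ≤ s) (c' : ℤ × ℤ) {t : ℕ}
    (h1 : |c'.1 - c.1| + t ≤ 4 * s) (h2 : |c'.2 - c.2| + t ≤ 4 * s) :
    DomB (pE c s) (blk c (16 * s)) (II c s) (JJ c s) (II' c s) (JJ' c s) c' t := by
  have i1 := abs_le.mp (le_refl |c'.1 - c.1|)
  have i2 := abs_le.mp (le_refl |c'.2 - c.2|)
  have hsub : blk c' t ⊆ blk c (4 * s) := by
    unfold blk
    exact RE_subset (by push_cast; omega) (by push_cast; omega) (by push_cast; omega)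
      (by push_cast; omega)
  refine ⟨pE_ok c s, hsub.trans (S4a.blk_mono c (by omega)), ?_, domE c hs, ?_, ?_⟩
  · intro e he
    apply pE_RF
    unfold RF
    exact Finset.mem_union_left _ (hsub he)
  · intro v hv
    left
    rcases far_IJ hv with h | h
    · rw [h, abs_sub_comm]
      exact le_abs.mpr (Or.inl (by omega))
    · rw [h]
      exact le_abs.mpr (Or.inl (by omega))
  · intro v hv
    right
    push_cast
    rcases far_IJ' hv with h | h
    · rw [h, abs_sub_comm]
      exact le_abs.mpr (Or.inl (by omega))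
    · rw [h]
      exact le_abs.mpr (Or.inl (by omega))

/-- Transfer to the fair region. -/
theorem pr_env (c : ℤ × ℤ) {s : ℕ} (hs : 1 ≤ s) (A : Finset Edg → Prop) :
    Pr (pE c s) (blk c (16 * s)) A = PQ (1/2) (RF c s) (fun F => A (F ∪ OO c s)) := by
  apply S4C_Pr_env (R := RF c s) (O := OO c s)
  · unfold OO; exact Finset.disjoint_sdiff
  · unfold OO
    exact Finset.union_subset (RF_sub c hs) Finset.sdiff_subset
  · exact fun e he => pE_RF he
  · exact fun e he => pE_OO he
  · intro e he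
    exfalso
    rw [Finset.mem_sdiff, Finset.mem_union] at he
    apply he.2
    by_cases h : e ∈ RF c s
    · exact Or.inl h
    · right
      unfold OO
      exact Finset.mem_sdiff.mpr ⟨he.1, h⟩

/-! ### Paths along lines -/

theorem reach_row {G : Set Edg} {a b y : ℤ} (hab : a ≤ b)
    (h : ∀ x, a ≤ x → x < b → ((x, y, true) : Edg) ∈ G) : Reach G (a, y) (b, y) := by
  obtain ⟨n, rfl⟩ := Int.le.dest hab
  induction n with
  | zero => simp only [Nat.cast_zero, add_zero]; exact Reach.refl _ _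
  | succ n ih =>
    have h1 := ih (by omega) (fun x h1 h2 => h x h1 (by push_cast; omega))
    refine h1.trans (Adj.reach ⟨(a + n, y, true), h _ (by omega) (by push_cast; omega), Or.inl ⟨rfl, ?_⟩⟩)
    rw [tgt_true]
    push_cast
    rw [add_assoc]

theorem reach_col {G : Set Edg} {a b x : ℤ} (hab : a ≤ b)
    (h : ∀ y, a ≤ y → y < b → ((x, y, false) : Edg) ∈ G) : Reach G (x, a) (x, b) := by
  obtain ⟨n, rfl⟩ := Int.le.dest hab
  induction n with
  | zero => simp only [Nat.cast_zero, add_zero]; exact Reach.refl _ _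
  | succ n ih =>
    have h1 := ih (by omega) (fun x h1 h2 => h x h1 (by push_cast; omega))
    refine h1.trans (Adj.reach ⟨(x, a + n, false), h _ (by omega) (by push_cast; omega), Or.inl ⟨rfl, ?_⟩⟩)
    rw [tgt_false]
    push_cast
    rw [add_assoc]

/-- All vertices of a full rectangle are connected. -/
theorem reach_rect {G : Set Edg} {a b c d : ℤ} (h : (↑(RE a b c d) : Set Edg) ⊆ G) {x y x' y' : ℤ}
    (h1 : a ≤ x ∧ x ≤ b) (h2 : c ≤ y ∧ y ≤ d) (h3 : a ≤ x' ∧ x' ≤ b) (h4 : c ≤ y' ∧ y' ≤ d) :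
    Reach G (x, y) (x', y') := by
  have row : ∀ x x' y : ℤ, a ≤ x → x ≤ x' → x' ≤ b → c ≤ y → y ≤ d → Reach G (x, y) (x', y) := by
    intro x x' y g1 g2 g3 g4 g5
    apply reach_row g2
    intro z g6 g7
    apply h
    rw [Finset.mem_coe, mem_RE_true]
    omega
  have col : ∀ x y y' : ℤ, a ≤ x → x ≤ b → c ≤ y → y ≤ y' → y' ≤ d → Reach G (x, y) (x, y') := by
    intro x y y' g1 g2 g3 g4 g5
    apply reach_col g4
    intro z g6 g7
    apply h
    rw [Finset.mem_coe, mem_RE_false]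
    omega
  have r1 : Reach G (x, y) (x', y) := by
    rcases le_total x x' with g | g
    · exact row _ _ _ h1.1 g h3.2 h2.1 h2.2
    · exact (row _ _ _ h3.1 g h1.2 h2.1 h2.2).symm
  have r2 : Reach G (x', y) (x', y') := by
    rcases le_total y y' with g | g
    · exact col _ _ _ h3.1 h3.2 h2.1 g h4.2
    · exact (col _ _ _ h3.1 h3.2 h4.1 g h2.2).symm
  exact r1.trans r2

/-! ### The deterministic statement -/

/-- A crossing of the strip which avoids the middle block is above or below the block. -/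
theorem strip_split {F : Finset Edg} {a b c1 d1 lo hi : ℤ} (hab : a < b) (hlh : lo < hi)
    {G : Set Edg} (hG : ∀ e ∈ G, e ∈ F ∧ e ∈ LRE a b c1 d1 ∧ e ∉ RE a b lo hi)
    {y1 y2 : ℤ} (hc1 : c1 ≤ y1 ∧ y1 ≤ d1) (h : Reach G (a, y1) (b, y2)) :
    LRc a b hi d1 F ∨ LRc a b c1 lo F := by
  rcases le_or_gt hi y1 with hy | hy
  · left
    have key : ∀ v, Reach G (a, y1) v → hi ≤ v.2 ∧ Reach (↑F ∩ ↑(RE a b hi d1)) (a, y1) v := by
      intro v hv
      induction hv with
      | refl => exact ⟨hy, Reach.refl _ _⟩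
      | @tail v w _ hs ih =>
        obtain ⟨ih1, ih2⟩ := ih
        obtain ⟨⟨x, y, bo⟩, he, hcase⟩ := hs
        obtain ⟨g1, g2, g3⟩ := hG _ he
        cases bo
        · rw [mem_LRE_false] at g2
          rw [mem_RE_false] at g3
          have hyy : hi ≤ y := by
            simp only [src_mk, tgt_false] at hcase
            rcases hcase with ⟨k1, k2⟩ | ⟨k1, k2⟩
            · rw [← k1] at ih1; exact ih1
            · rw [← k2] at ih1; simp only at ih1
              by_contra hcon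
              apply g3
              omega
          refine ⟨?_, ih2.trans (Adj.reach ⟨(x, y, false), ⟨g1, ?_⟩, hcase⟩)⟩
          · simp only [src_mk, tgt_false] at hcase
            rcases hcase with ⟨k1, k2⟩ | ⟨k1, k2⟩
            · rw [← k2]; simp only; omega
            · rw [← k1]; simp only; omega
          · rw [Finset.mem_coe, mem_RE_false]; omega
        · rw [mem_LRE_true] at g2
          have hyy : hi ≤ y := by
            simp only [src_mk, tgt_true] at hcase
            rcases hcase with ⟨k1, k2⟩ | ⟨k1, k2⟩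
            · rw [← k1] at ih1; exact ih1
            · rw [← k2] at ih1; exact ih1
          refine ⟨?_, ih2.trans (Adj.reach ⟨(x, y, true), ⟨g1, ?_⟩, hcase⟩)⟩
          · simp only [src_mk, tgt_true] at hcase
            rcases hcase with ⟨k1, k2⟩ | ⟨k1, k2⟩
            · rw [← k2]; exact hyy
            · rw [← k1]; exact hyy
          · rw [Finset.mem_coe, mem_RE_true]; omega
    exact LRc_of_reach hab (key _ h).2 rfl rfl
  · rcases le_or_gt y1 lo with hy' | hy'
    · right
      have key : ∀ v, Reach G (a, y1) v → v.2 ≤ lo ∧ Reach (↑F ∩ ↑(RE a b c1 lo)) (a, y1) v := by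
        intro v hv
        induction hv with
        | refl => exact ⟨hy', Reach.refl _ _⟩
        | @tail v w _ hs ih =>
          obtain ⟨ih1, ih2⟩ := ih
          obtain ⟨⟨x, y, bo⟩, he, hcase⟩ := hs
          obtain ⟨g1, g2, g3⟩ := hG _ he
          cases bo
          · rw [mem_LRE_false] at g2
            rw [mem_RE_false] at g3
            have hyy : y + 1 ≤ lo := by
              simp only [src_mk, tgt_false] at hcase
              rcases hcase with ⟨k1, k2⟩ | ⟨k1, k2⟩
              · rw [← k1] at ih1; simp only at ih1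
                by_contra hcon
                apply g3
                omega
              · rw [← k2] at ih1; exact ih1
            refine ⟨?_, ih2.trans (Adj.reach ⟨(x, y, false), ⟨g1, ?_⟩, hcase⟩)⟩
            · simp only [src_mk, tgt_false] at hcase
              rcases hcase with ⟨k1, k2⟩ | ⟨k1, k2⟩
              · rw [← k2]; simp only; omega
              · rw [← k1]; simp only; omega
            · rw [Finset.mem_coe, mem_RE_false]; omega
          · rw [mem_LRE_true] at g2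
            have hyy : y ≤ lo := by
              simp only [src_mk, tgt_true] at hcase
              rcases hcase with ⟨k1, k2⟩ | ⟨k1, k2⟩
              · rw [← k1] at ih1; exact ih1
              · rw [← k2] at ih1; exact ih1
            refine ⟨?_, ih2.trans (Adj.reach ⟨(x, y, true), ⟨g1, ?_⟩, hcase⟩)⟩
            · simp only [src_mk, tgt_true] at hcase
              rcases hcase with ⟨k1, k2⟩ | ⟨k1, k2⟩
              · rw [← k2]; exact hyy
              · rw [← k1]; exact hyy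
            · rw [Finset.mem_coe, mem_RE_true]; omega
      exact LRc_of_reach hab (key _ h).2 rfl rfl
    · exfalso
      have key : ∀ v, Reach G (a, y1) v → v = (a, y1) := by
        intro v hv
        induction hv with
        | refl => rfl
        | @tail v w _ hs ih =>
          exfalso
          obtain ⟨⟨x, y, bo⟩, he, hcase⟩ := hs
          obtain ⟨g1, g2, g3⟩ := hG _ he
          rw [ih] at hcase
          cases bo
          · rw [mem_LRE_false] at g2
            simp only [src_mk, tgt_false, Prod.mk.injEq] at hcase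
            rcases hcase with ⟨⟨k1, k2⟩, -⟩ | ⟨-, k1, k2⟩ <;> omega
          · rw [mem_LRE_true] at g2
            rw [mem_RE_true] at g3
            simp only [src_mk, tgt_true, Prod.mk.injEq] at hcase
            rcases hcase with ⟨⟨k1, k2⟩, -⟩ | ⟨-, k1, k2⟩
            · apply g3; omega
            · omega
      have := key _ h
      rw [Prod.mk.injEq] at this
      omega

theorem mem_OO_of {c : ℤ × ℤ} {s : ℕ} {e : Edg} (h1 : e ∈ blk c (16 * s))
    (h2 : e ∉ blk c (4 * s)) (h3 : e ∉ RE (c.1 - (s - 1 : ℕ)) (c.1 + (s - 1 : ℕ))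
      (c.2 - (16 * s : ℕ)) (c.2 + (16 * s : ℕ))) : e ∈ OO c s := by
  unfold OO RF
  rw [Finset.mem_sdiff, Finset.mem_union]
  exact ⟨h1, fun h => h.elim h2 h3⟩

theorem bpv_of {c : ℤ × ℤ} {s : ℕ} (hs : 3 ≤ s) {F : Finset Edg} (hF : F ⊆ RF c s)
    (E1 : LRc (c.1 - (4 * s : ℕ)) (c.1 - (s - 1 : ℕ)) (c.2 - (s - 1 : ℕ)) (c.2 + (s - 1 : ℕ)) F)
    (E2 : LRc (c.1 + (s - 1 : ℕ)) (c.1 + (4 * s : ℕ)) (c.2 - (s - 1 : ℕ)) (c.2 + (s - 1 : ℕ)) F)
    (E3 : ¬ LRc (c.1 - (s - 1 : ℕ)) (c.1 + (s - 1 : ℕ)) (c.2 + (s - 1 : ℕ)) (c.2 + (16 * s : ℕ)) F)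
    (E4 : ¬ LRc (c.1 - (s - 1 : ℕ)) (c.1 + (s - 1 : ℕ)) (c.2 - (16 * s : ℕ)) (c.2 - (s - 1 : ℕ)) F) :
    BPv (II c s) (JJ c s) (blk c (s - 1)) (↑(F ∪ OO c s) : Set Edg) := by
  obtain ⟨w, hw⟩ : ∃ w : ℕ, s - 1 = w := ⟨_, rfl⟩
  rw [hw] at E1 E2 E3 E4 ⊢
  constructor
  · obtain ⟨y1, y1', a1, a2, a3⟩ := E1
    obtain ⟨y2, y2', b1, b2, b3⟩ := E2
    set G : Set Edg := ↑(F ∪ OO c s) ∪ ↑(blk c w) with hG
    have hO : (↑(OO c s) : Set Edg) ⊆ G := by
      rw [hG, Finset.coe_union]
      exact fun e he => Or.inl (Or.inr he)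
    have hFG : (↑F : Set Edg) ⊆ G := by
      rw [hG, Finset.coe_union]
      exact fun e he => Or.inl (Or.inl he)
    have r1 : Reach G (c.1 - (16 * s : ℕ), y1) (c.1 - (4 * s : ℕ), y1) := by
      apply reach_row (by push_cast; omega)
      intro x h1 h2
      apply hO
      apply mem_OO_of
      · unfold blk; rw [mem_RE_true]; push_cast at *; omega
      · unfold blk; rw [mem_RE_true]; push_cast at *; omega
      · rw [mem_RE_true]; push_cast at *; omega
    have r2 : Reach G (c.1 - (4 * s : ℕ), y1) (c.1 - (w : ℕ), y1') :=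
      a3.mono (fun e he => hFG he.1)
    have r3 : Reach G (c.1 - (w : ℕ), y1') (c.1 + (w : ℕ), y2) := by
      apply reach_rect (a := c.1 - w) (b := c.1 + w) (c := c.2 - w) (d := c.2 + w)
      · intro e he; exact Or.inr he
      · omega
      · omega
      · omega
      · omega
    have r4 : Reach G (c.1 + (w : ℕ), y2) (c.1 + (4 * s : ℕ), y2') :=
      b3.mono (fun e he => hFG he.1)
    have r5 : Reach G (c.1 + (4 * s : ℕ), y2') (c.1 + (16 * s : ℕ), y2') := by
      apply reach_row (by push_cast; omega)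
      intro x h1 h2
      apply hO
      apply mem_OO_of
      · unfold blk; rw [mem_RE_true]; push_cast at *; omega
      · unfold blk; rw [mem_RE_true]; push_cast at *; omega
      · rw [mem_RE_true]; push_cast at *; omega
    refine ⟨(c.1 - (16 * s : ℕ), y1), ⟨rfl, ?_, ?_⟩, (c.1 + (16 * s : ℕ), y2'), ⟨rfl, ?_, ?_⟩,
      (((r1.trans r2).trans r3).trans r4).trans r5⟩
    · simp only; push_cast; omega
    · simp only; push_cast; omega
    · simp only; push_cast; omega
    · simp only; push_cast; omega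
  · rintro ⟨u, hu, v, hv, hr⟩
    have hu1 : u.1 = c.1 - (16 * s : ℕ) := hu.1
    have hv1 : v.1 = c.1 + (16 * s : ℕ) := hv.1
    have hGb : ∀ e ∈ ((↑(F ∪ OO c s) : Set Edg) \ ↑(blk c w)), e ∈ blk c (16 * s) := by
      rintro e ⟨he, -⟩
      rw [Finset.mem_coe, Finset.mem_union] at he
      rcases he with he | he
      · exact RF_sub c (by omega) (hF he)
      · exact (Finset.mem_sdiff.mp he).1
    obtain ⟨y1, y2, k1, k2, k3, -⟩ := sub_LR (a := c.1 - w) (b := c.1 + w)
      (c := c.2 - (16 * s : ℕ)) (d := c.2 + (16 * s : ℕ)) (by omega)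
      (by
        intro x y he _ _
        have := hGb _ he
        unfold blk at this
        rw [mem_RE_true] at this
        omega)
      (by
        intro x y he _ _
        have := hGb _ he
        unfold blk at this
        rw [mem_RE_false] at this
        omega) hr (by rw [hu1]; push_cast; omega) (by rw [hv1]; push_cast; omega)
    have hsp := strip_split (F := F) (a := c.1 - w) (b := c.1 + w) (lo := c.2 - w) (hi := c.2 + w)
      (c1 := c.2 - (16 * s : ℕ)) (d1 := c.2 + (16 * s : ℕ)) (by omega) (by omega) (G :=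
        ((↑(F ∪ OO c s) : Set Edg) \ ↑(blk c w)) ∩ ↑(LRE (c.1 - w) (c.1 + w)
          (c.2 - (16 * s : ℕ)) (c.2 + (16 * s : ℕ)))) (by
        rintro e ⟨⟨he1, he2⟩, he3⟩
        refine ⟨?_, he3, he2⟩
        rw [Finset.mem_coe, Finset.mem_union] at he1
        rcases he1 with he1 | he1
        · exact he1
        · exfalso
          apply (Finset.mem_sdiff.mp he1).2
          unfold RF
          apply Finset.mem_union_right
          rw [hw]
          exact LRE_subset_RE he3) k1 k3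
    rcases hsp with h | h
    · exact E3 h
    · exact E4 h

theorem hh_low {w h : ℤ} (hh0 : 1 ≤ h) (hw : 0 < w) (hwh : w ≤ 16 * h) :
    (1/2:ℝ)^767 ≤ hh (1/2) w h :=
  (WH.main hh0).trans (hh_mono (by norm_num) (by norm_num) hw hwh le_rfl)

theorem LRE_sub_of {a b c d : ℤ} {S : Finset Edg} {a' b' c' d' : ℤ} (hS : RE a' b' c' d' ⊆ S)
    (h1 : a' ≤ a) (h2 : b ≤ b') (h3 : c' ≤ c) (h4 : d ≤ d') : LRE a b c d ⊆ S :=
  LRE_subset_RE.trans ((RE_subset h1 h2 h3 h4).trans hS)

/-- **Pivotality of the middle block has positive probability.** -/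
theorem bpv_low (c : ℤ × ℤ) {s : ℕ} (hs : 3 ≤ s) :
    (1/2:ℝ)^3068 ≤ Pr (pE c s) (blk c (16 * s))
      (fun F => BPv (II c s) (JJ c s) (blk c (s - 1)) ↑F) := by
  rw [pr_env c (by omega)]
  obtain ⟨w, hw⟩ : ∃ w : ℕ, s - 1 = w := ⟨_, rfl⟩
  have hsw : s = w + 1 := by omega
  have ok : Ok (fun _ : Edg => (1/2:ℝ)) := okq (by norm_num) (by norm_num)
  set S := RF c s with hS
  have b1 : RE (c.1 - (4 * s : ℕ)) (c.1 + (4 * s : ℕ)) (c.2 - (4 * s : ℕ)) (c.2 + (4 * s : ℕ)) ⊆ S := by
    rw [hS]; unfold RF blk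
    exact Finset.subset_union_left
  have b2 : RE (c.1 - w) (c.1 + w) (c.2 - (16 * s : ℕ)) (c.2 + (16 * s : ℕ)) ⊆ S := by
    rw [hS]; unfold RF
    rw [hw]
    exact Finset.subset_union_right
  set A1 := LRc (c.1 - (4 * s : ℕ)) (c.1 - w) (c.2 - w) (c.2 + w) with hA1
  set A2 := LRc (c.1 + w) (c.1 + (4 * s : ℕ)) (c.2 - w) (c.2 + w) with hA2
  set A3 := LRc (c.1 - w) (c.1 + w) (c.2 + w) (c.2 + (16 * s : ℕ)) with hA3
  set A4 := LRc (c.1 - w) (c.1 + w) (c.2 - (16 * s : ℕ)) (c.2 - w) with hA4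
  have s1 : LRE (c.1 - (4 * s : ℕ)) (c.1 - w) (c.2 - w) (c.2 + w) ⊆ S :=
    LRE_sub_of b1 le_rfl (by push_cast; omega) (by push_cast; omega) (by push_cast; omega)
  have s2 : LRE (c.1 + w) (c.1 + (4 * s : ℕ)) (c.2 - w) (c.2 + w) ⊆ S :=
    LRE_sub_of b1 (by push_cast; omega) le_rfl (by push_cast; omega) (by push_cast; omega)
  have s3 : LRE (c.1 - w) (c.1 + w) (c.2 + w) (c.2 + (16 * s : ℕ)) ⊆ S :=
    LRE_sub_of b2 le_rfl le_rfl (by push_cast; omega) le_rfl
  have s4 : LRE (c.1 - w) (c.1 + w) (c.2 - (16 * s : ℕ)) (c.2 - w) ⊆ S :=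
    LRE_sub_of b2 le_rfl le_rfl le_rfl (by push_cast; omega)
  have p1 : (1/2:ℝ)^767 ≤ PQ (1/2) S A1 := by
    unfold PQ
    rw [hA1, pr_LRc (1/2) s1]
    apply hh_low <;> push_cast <;> omega
  have p2 : (1/2:ℝ)^767 ≤ PQ (1/2) S A2 := by
    unfold PQ
    rw [hA2, pr_LRc (1/2) s2]
    apply hh_low <;> push_cast <;> omega
  have p3 : (1/2:ℝ)^767 ≤ 1 - PQ (1/2) S A3 := by
    unfold PQ
    rw [hA3, pr_LRc (1/2) s3, hh_dual (by omega) (by push_cast; omega)]
    have : (1:ℝ) - 1/2 = 1/2 := by norm_num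
    rw [this, sub_sub_cancel]
    apply hh_low <;> push_cast <;> omega
  have p4 : (1/2:ℝ)^767 ≤ 1 - PQ (1/2) S A4 := by
    unfold PQ
    rw [hA4, pr_LRc (1/2) s4, hh_dual (by omega) (by push_cast; omega)]
    have : (1:ℝ) - 1/2 = 1/2 := by norm_num
    rw [this, sub_sub_cancel]
    apply hh_low <;> push_cast <;> omega
  have q1 : (1/2:ℝ)^767 * (1/2)^767 ≤ PQ (1/2) S (fun F => A1 F ∧ A2 F) :=
    (mul_le_mul p1 p2 (by positivity) (Pr_nonneg ok _ _)).trans
      (Pr_harris ok (LRc_incr _ _ _ _ _) (LRc_incr _ _ _ _ _))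
  have q2 : (1/2:ℝ)^767 * (1/2)^767 ≤ PQ (1/2) S (fun F => ¬ A3 F ∧ ¬ A4 F) := by
    refine (mul_le_mul p3 p4 (by positivity) ?_).trans
      (Pr_harris_dd ok (LRc_incr _ _ _ _ _) (LRc_incr _ _ _ _ _))
    have := Pr_le_one ok S A3
    unfold PQ
    linarith
  have q3 : PQ (1/2) S (fun F => (A1 F ∧ A2 F) ∧ (¬ A3 F ∧ ¬ A4 F)) =
      PQ (1/2) S (fun F => A1 F ∧ A2 F) * PQ (1/2) S (fun F => ¬ A3 F ∧ ¬ A4 F) := by
    refine Pr_indep (S := LRE (c.1 - (4 * s : ℕ)) (c.1 - w) (c.2 - w) (c.2 + w) ∪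
      LRE (c.1 + w) (c.1 + (4 * s : ℕ)) (c.2 - w) (c.2 + w))
      (T := LRE (c.1 - w) (c.1 + w) (c.2 + w) (c.2 + (16 * s : ℕ)) ∪
        LRE (c.1 - w) (c.1 + w) (c.2 - (16 * s : ℕ)) (c.2 - w))
      (Finset.union_subset s1 s2) (Finset.union_subset s3 s4) ?_ ?_ ?_
    · rw [Finset.disjoint_left]
      rintro ⟨x, y, _ | _⟩ g1 g2
      · simp only [Finset.mem_union, mem_LRE_false] at g1 g2
        omega
      · simp only [Finset.mem_union, mem_LRE_true] at g1 g2
        omega
    · intro F _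
      exact and_congr (LRc_local Finset.subset_union_left) (LRc_local Finset.subset_union_right)
    · intro F _
      exact and_congr (not_congr (LRc_local Finset.subset_union_left))
        (not_congr (LRc_local Finset.subset_union_right))
  have q4 : PQ (1/2) S (fun F => (A1 F ∧ A2 F) ∧ (¬ A3 F ∧ ¬ A4 F)) ≤
      PQ (1/2) S (fun F => BPv (II c s) (JJ c s) (blk c (s - 1)) ↑(F ∪ OO c s)) := by
    apply Pr_mono ok
    rintro F hF ⟨⟨g1, g2⟩, g3, g4⟩
    apply bpv_of hs hF
    · rw [hw]; exact g1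
    · rw [hw]; exact g2
    · rw [hw]; exact g3
    · rw [hw]; exact g4
  calc (1/2:ℝ)^3068 = ((1/2:ℝ)^767 * (1/2)^767) * ((1/2:ℝ)^767 * (1/2)^767) := by
        rw [← pow_add, ← pow_add]
    _ ≤ PQ (1/2) S (fun F => A1 F ∧ A2 F) * PQ (1/2) S (fun F => ¬ A3 F ∧ ¬ A4 F) :=
        mul_le_mul q1 q2 (by positivity) (Pr_nonneg ok _ _)
    _ = _ := q3.symm
    _ ≤ _ := q4

end Pool.Agent.W822.PV
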