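import Pool.Agent.W822.PV.Loc1
import Pool.Agent.W822.PV.A4s
import Pool.Agent.H389R2.NS.E1b
import Pool.Agent.H389R2.CD.Std

/-!
# Touching edges of a box: one-point and two-point estimates
-/

set_option autoImplicit false
set_option maxHeartbeats 1000000
set_option linter.unusedSimpArgs false
set_option linter.unusedVariables false

namespace Pool.Agent.W822.PV

open H974 H12S H389NS Finset
open Pool.Agent.H160R2.CV (nv bx)
open Pool.Agent.H389R2.CD (kn)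

/-- A closed edge whose endpoints are connected to the boundary of the box of radius `4 s`, but
not connected to each other, even when the edges of `OO` are added. -/
def Tch (c : ℤ × ℤ) (s : ℕ) (e : Edg) (F : Finset Edg) : Prop :=
  e ∉ F ∧ (∃ w ∈ bdB c (4 * s), Reach (↑F ∩ ↑(blk c (4 * s))) (src e) w) ∧
    (∃ w ∈ bdB c (4 * s), Reach (↑F ∩ ↑(blk c (4 * s))) (tgt e) w) ∧
    ¬ Reach (↑(F ∩ RF c s) ∪ ↑(OO c s)) (src e) (tgt e)

theorem blk4_RF (c : ℤ × ℤ) (s : ℕ) : blk c (4 * s) ⊆ RF c s := by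
  unfold RF; exact Finset.subset_union_left

theorem OO_disj (c : ℤ × ℤ) (s : ℕ) {e : Edg} (he : e ∈ RF c s) : e ∉ OO c s := fun h =>
  (Finset.mem_sdiff.mp h).2 he

theorem Tch_local {c : ℤ × ℤ} {s : ℕ} {e : Edg} (he : e ∈ RF c s) {F : Finset Edg} :
    Tch c s e F ↔ Tch c s e (F ∩ RF c s) := by
  have h1 : (↑(F ∩ RF c s) : Set Edg) ∩ ↑(blk c (4 * s)) = ↑F ∩ ↑(blk c (4 * s)) := by
    ext x
    simp only [Finset.coe_inter, Set.mem_inter_iff, Finset.mem_coe]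
    have := @blk4_RF c s x
    tauto
  unfold Tch
  rw [h1, Finset.inter_assoc, Finset.inter_self, Finset.mem_inter]
  tauto

/-- Pivotal closed edges are touching edges. -/
theorem tch_of_pv {c : ℤ × ℤ} {s : ℕ} (hs : 1 ≤ s) {e : Edg} {F : Finset Edg} (hF : F ⊆ RF c s)
    (he : e ∈ blk c s) (heF : e ∉ F) (h : Pv (II c s) (JJ c s) e (↑(F ∪ OO c s) : Set Edg)) :
    Tch c s e F := by
  obtain ⟨⟨w, hw, h1⟩, ⟨w', hw', h2⟩, h3⟩ := pv_ends h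
  have heR : e ∈ RF c s := blk4_RF c s (S4a.blk_mono c (by omega) he)
  have heO := OO_disj c s heR
  have hG : (↑(F ∪ OO c s) : Set Edg) \ {e} = ↑F ∪ ↑(OO c s) := by
    rw [Finset.coe_union]
    ext x
    simp only [Set.mem_sdiff, Set.mem_union, Finset.mem_coe, Set.mem_singleton_iff]
    constructor
    · rintro ⟨k, -⟩; exact k
    · intro k
      refine ⟨k, ?_⟩
      rintro rfl
      rcases k with k | k
      · exact heF k
      · exact heO k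
  rw [hG] at h1 h2 h3
  have hsub : ((↑F : Set Edg) ∪ ↑(OO c s)) ∩ ↑(RE (c.1 - (4 * s : ℕ)) (c.1 + (4 * s : ℕ))
      (c.2 - (4 * s : ℕ)) (c.2 + (4 * s : ℕ))) ⊆ ↑F ∩ ↑(blk c (4 * s)) := by
    rintro x ⟨k1 | k1, k2⟩
    · exact ⟨k1, k2⟩
    · exact absurd (Finset.mem_coe.mp k1) (OO_disj c s (blk4_RF c s k2))
  have hfar : ∀ w ∈ II c s ∪ JJ c s, w.1 ≤ c.1 - (4 * s : ℕ) ∨ c.1 + (4 * s : ℕ) ≤ w.1 ∨
      w.2 ≤ c.2 - (4 * s : ℕ) ∨ c.2 + (4 * s : ℕ) ≤ w.2 := by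
    intro w hw
    rcases far_IJ hw with k | k <;> push_cast <;> omega
  have he4 : e ∈ RE (c.1 - (4 * s : ℕ)) (c.1 + (4 * s : ℕ)) (c.2 - (4 * s : ℕ)) (c.2 + (4 * s : ℕ)) :=
    S4a.blk_mono c (by omega) he
  obtain ⟨hs1, ht1⟩ := ends_RE he4
  refine ⟨heF, ?_, ?_, ?_⟩
  · obtain ⟨z, k1, k2, k3⟩ := first_exit hs1 h1 (hfar w hw)
    exact ⟨z, E1b.bdB_iff.2 ⟨k1, k2⟩, k3.mono hsub⟩
  · obtain ⟨z, k1, k2, k3⟩ := first_exit ht1 h2 (hfar w' hw')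
    exact ⟨z, E1b.bdB_iff.2 ⟨k1, k2⟩, k3.mono hsub⟩
  · rw [Finset.inter_eq_left.mpr hF]
    exact h3

theorem inR_blk {c : ℤ × ℤ} {s : ℕ} {e : Edg} (he : e ∈ blk c s) :
    inR (c.1 - s) (c.1 + s) (c.2 - s) (c.2 + s) (src e) ∧
      inR (c.1 - s) (c.1 + s) (c.2 - s) (c.2 + s) (tgt e) := ends_RE he

/-- Touching edges have four arms. -/
theorem tch_a4e {c : ℤ × ℤ} {s k : ℕ} {e : Edg} {F : Finset Edg} (he : e ∈ blk c s)
    (hk : 1 ≤ k) (hks : k ≤ 3 * s) (h : Tch c s e F) : A4e k e ↑F := by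
  obtain ⟨h0, ⟨w, hw, h1⟩, ⟨w', hw', h2⟩, h3⟩ := h
  have hes : |e.1 - c.1| ≤ s ∧ |e.2.1 - c.2| ≤ s := by
    unfold blk at he
    obtain ⟨x, y, _ | _⟩ := e
    · rw [mem_RE_false] at he
      rw [abs_le, abs_le]; simp only; omega
    · rw [mem_RE_true] at he
      rw [abs_le, abs_le]; simp only; omega
  have i1 := abs_le.mp hes.1
  have i2 := abs_le.mp hes.2
  have hsub : ebx e k ⊆ blk c (4 * s) := ebx_sub (by push_cast; omega) (by push_cast; omega)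
  obtain ⟨hs1, ht1⟩ := ends_RE (mem_ebx (e := e) hk)
  have hfar : ∀ w ∈ bdB c (4 * s), w.1 ≤ e.1 - k ∨ e.1 + k ≤ w.1 ∨ w.2 ≤ e.2.1 - k ∨
      e.2.1 + k ≤ w.2 := by
    intro w hw
    obtain ⟨-, k2⟩ := E1b.bdB_iff.1 hw
    push_cast at k2
    omega
  have hset : ((↑F : Set Edg) ∩ ↑(blk c (4 * s))) ∩ ↑(ebx e k) ⊆ (↑F ∩ ↑(ebx e k)) \ {e} := by
    rintro x ⟨⟨k1, -⟩, k2⟩
    refine ⟨⟨k1, k2⟩, ?_⟩
    rintro rfl
    exact h0 (Finset.mem_coe.mp k1)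
  unfold A4e A4
  refine ⟨?_, ?_, fun hr => h3 (hr.mono ?_)⟩
  · obtain ⟨z, k1, k2, k3⟩ := first_exit hs1 h1 (hfar w hw)
    exact ⟨z, ⟨k1, k2⟩, k3.mono hset⟩
  · obtain ⟨z, k1, k2, k3⟩ := first_exit ht1 h2 (hfar w' hw')
    exact ⟨z, ⟨k1, k2⟩, k3.mono hset⟩
  · rintro x ⟨⟨k1, k2⟩, -⟩
    left
    rw [Finset.mem_coe, Finset.mem_inter]
    exact ⟨k1, blk4_RF c s (hsub k2)⟩

/-- Touching edges give four arms in annuli around them. -/
theorem tch_a4a {c c' : ℤ × ℤ} {s d k : ℕ} {e : Edg} {F : Finset Edg} (he : e ∈ blk c' d)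
    (hd : d ≤ k) (hk : blk c' k ⊆ blk c (4 * s))
    (hfar : ∀ w ∈ bdB c (4 * s), w.1 ≤ c'.1 - k ∨ c'.1 + k ≤ w.1 ∨ w.2 ≤ c'.2 - k ∨
      c'.2 + k ≤ w.2)
    (h : Tch c s e F) : A4a c' d k ↑F := by
  obtain ⟨h0, ⟨w, hw, h1⟩, ⟨w', hw', h2⟩, h3⟩ := h
  obtain ⟨hs0, ht0⟩ := inR_blk he
  obtain ⟨hs1, ht1⟩ := inR_blk (S4a.blk_mono c' hd he)
  have arm : ∀ u w : Vtx, inR (c'.1 - d) (c'.1 + d) (c'.2 - d) (c'.2 + d) u → w ∈ bdB c (4 * s) →
      Reach (↑F ∩ ↑(blk c (4 * s))) u w → ∃ v ∈ bdB c' d, (∃ z ∈ bdB c' k,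
        Reach ((↑F : Set Edg) ∩ ↑(blk c' k \ blk c' d)) v z) ∧ Reach (↑F ∩ ↑(blk c' k)) u v := by
    intro u w hu hw hr
    have hu1 : inR (c'.1 - k) (c'.1 + k) (c'.2 - k) (c'.2 + k) u := by
      unfold inR at hu ⊢; omega
    obtain ⟨z, k1, k2, k3⟩ := first_exit hu1 hr (hfar w hw)
    have k4 : Reach ((↑F : Set Edg) ∩ ↑(blk c' k)) u z := k3.mono (by
      rintro x ⟨⟨m1, -⟩, m2⟩
      exact ⟨m1, m2⟩)
    obtain ⟨v, m1, m2, m3⟩ := E1b.last_exit hd (G := ↑F ∩ ↑(blk c' k)) (F := (↑F : Set Edg))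
      Set.inter_subset_left (fun x hx => hx.2) (w := z) (by omega) k4.symm hu
    refine ⟨v, E1b.bdB_iff.2 ⟨m1, m2⟩, ⟨z, E1b.bdB_iff.2 ⟨k1, k2⟩, m3⟩, ?_⟩
    refine k4.trans (m3.symm.mono ?_)
    rintro x ⟨n1, n2⟩
    exact ⟨n1, (Finset.mem_sdiff.mp (Finset.mem_coe.mp n2)).1⟩
  obtain ⟨v, v1, v2, v3⟩ := arm _ _ hs0 hw h1
  obtain ⟨v', v1', v2', v3'⟩ := arm _ _ ht0 hw' h2
  refine ⟨v, v1, v', v1', v2, v2', fun hr => h3 ?_⟩
  have hmono : (↑F : Set Edg) ∩ ↑(blk c' k) ⊆ ↑(F ∩ RF c s) ∪ ↑(OO c s) := by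
    rintro x ⟨n1, n2⟩
    left
    rw [Finset.mem_coe, Finset.mem_inter]
    exact ⟨n1, blk4_RF c s (hk n2)⟩
  have hmono2 : (↑F : Set Edg) ∩ ↑(blk c' k \ blk c' d) ⊆ ↑(F ∩ RF c s) ∪ ↑(OO c s) := by
    rintro x ⟨n1, n2⟩
    exact hmono ⟨n1, (Finset.mem_sdiff.mp (Finset.mem_coe.mp n2)).1⟩
  exact ((v3.mono hmono).trans (hr.mono hmono2)).trans (v3'.mono hmono).symm

/-! ### First moment -/

theorem pr_notMem {S : Finset Edg} {e : Edg} (he : e ∈ S) :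
    PQ (1/2) S (fun F => e ∉ F) = 1 / 2 := by
  unfold PQ
  rw [Pr_local (S' := {e}) (Finset.singleton_subset_iff.mpr he)]
  · unfold Pr
    rw [← insert_empty_eq, Ex_insert _ (Finset.notMem_empty e), Ex_empty, Ex_empty,
      ind_not_of (by simp), ind_of (Finset.notMem_empty e)]
    norm_num
  · intro F _
    simp

theorem pq_pv_closed {c : ℤ × ℤ} {s : ℕ} (hs : 1 ≤ s) {e : Edg} (he : e ∈ blk c s) :
    1 / 2 * Pr (pE c s) (blk c (16 * s)) (fun F => Pv (II c s) (JJ c s) e ↑F) ≤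
      PQ (1/2) (RF c s) (Tch c s e) := by
  have heR : e ∈ RF c s := blk4_RF c s (S4a.blk_mono c (by omega) he)
  rw [pr_env c hs]
  have ok : Ok (fun _ : Edg => (1/2:ℝ)) := okq (by norm_num) (by norm_num)
  have hpv : ∀ F : Finset Edg, F ⊆ RF c s → (Pv (II c s) (JJ c s) e (↑(F ∪ OO c s) : Set Edg) ↔
      Pv (II c s) (JJ c s) e (↑(F ∩ (RF c s \ {e}) ∪ OO c s) : Set Edg)) := by
    intro F hF
    have e1 : insert e (↑(F ∪ OO c s) : Set Edg) =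
        insert e (↑(F ∩ (RF c s \ {e}) ∪ OO c s) : Set Edg) := by
      ext x
      simp only [Finset.coe_union, Finset.coe_inter, Finset.coe_sdiff, Set.mem_insert_iff,
        Set.mem_union, Set.mem_inter_iff, Finset.mem_coe, Set.mem_sdiff, Finset.coe_singleton,
        Set.mem_singleton_iff]
      have := @hF x
      tauto
    have e2 : (↑(F ∪ OO c s) : Set Edg) \ {e} =
        (↑(F ∩ (RF c s \ {e}) ∪ OO c s) : Set Edg) \ {e} := by
      ext x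
      simp only [Finset.coe_union, Finset.coe_inter, Finset.coe_sdiff, Set.mem_insert_iff,
        Set.mem_union, Set.mem_inter_iff, Finset.mem_coe, Set.mem_sdiff, Finset.coe_singleton,
        Set.mem_singleton_iff]
      have := @hF x
      tauto
    unfold Pv
    rw [e1, e2]
  have h1 : PQ (1/2) (RF c s) (fun F => e ∉ F ∧ Pv (II c s) (JJ c s) e (↑(F ∪ OO c s) : Set Edg)) =
      PQ (1/2) (RF c s) (fun F => e ∉ F) *
        PQ (1/2) (RF c s) (fun F => Pv (II c s) (JJ c s) e (↑(F ∪ OO c s) : Set Edg)) := by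
    refine Pr_indep (S := {e}) (T := RF c s \ {e}) (Finset.singleton_subset_iff.mpr heR)
      Finset.sdiff_subset Finset.disjoint_sdiff ?_ hpv
    intro F _
    simp
  rw [pr_notMem heR] at h1
  rw [← h1]
  apply Pr_mono ok
  rintro F hF ⟨g1, g2⟩
  exact tch_of_pv hs hF he g1 g2

/-- **The first moment of the number of touching edges.** -/
theorem first_moment : ∃ (A r0 : ℕ) (m : ℝ), 1 ≤ A ∧ 1 ≤ r0 ∧ 0 < m ∧ ∀ r : ℕ, r0 ≤ r →
    ∀ c : ℤ × ℤ, m * ((A * r : ℕ) : ℝ) ^ (3/4 : ℝ) ≤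
      ∑ e ∈ blk c (A * r), PQ (1/2) (RF c (A * r)) (Tch c (A * r) e) := by
  obtain ⟨A, r0, C, hA, hr0, hC, h⟩ := inward_half ((1/2) ^ 3069) (by positivity)
  refine ⟨A, max r0 3, (1/2) ^ 3070 / C, hA, hr0.trans (le_max_left _ _), by positivity, ?_⟩
  intro r hr c
  have hr1 : r0 ≤ r := (le_max_left _ _).trans hr
  have hr3 : 3 ≤ r := (le_max_right _ _).trans hr
  obtain ⟨s, hs⟩ : ∃ s : ℕ, A * r = s := ⟨_, rfl⟩
  have hs3 : 3 ≤ s := by rw [← hs]; nlinarith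
  have key := h r hr1 (pE c (A * r)) (blk c (16 * (A * r))) (II c (A * r)) (JJ c (A * r))
    (II' c (A * r)) (JJ' c (A * r)) c (domBE c (by omega) c (by simp) (by simp))
  rw [hs] at key ⊢
  have h1 := bpv_low c hs3
  have h2 := Pr_le_one (pE_ok c s) (blk c (16 * s)) (fun F => BPv (II c s) (JJ c s) (blk c (3 * s)) ↑F)
  have h3 : (0:ℝ) ≤ ((s : ℕ) : ℝ) ^ (3/4 : ℝ) := by positivity
  have h4 : (1/2 : ℝ) ^ 3069 ≤ Pr (pE c s) (blk c (16 * s))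
      (fun F => BPv (II c s) (JJ c s) (blk c (s - 1)) ↑F) - (1/2) ^ 3069 *
      Pr (pE c s) (blk c (16 * s)) (fun F => BPv (II c s) (JJ c s) (blk c (3 * s)) ↑F) := by
    have e1 : (1/2 : ℝ) ^ 3068 = 2 * (1/2) ^ 3069 := by
      rw [pow_succ (1/2 : ℝ) 3068]; ring
    have h5 : (1/2 : ℝ) ^ 3069 * Pr (pE c s) (blk c (16 * s))
        (fun F => BPv (II c s) (JJ c s) (blk c (3 * s)) ↑F) ≤ (1/2) ^ 3069 := by
      have := mul_le_mul_of_nonneg_left h2 (show (0:ℝ) ≤ (1/2) ^ 3069 by positivity)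
      rwa [mul_one] at this
    linarith
  have h6 : (1/2 : ℝ) ^ 3069 * ((s : ℕ) : ℝ) ^ (3/4 : ℝ) ≤
      C * ∑ e ∈ blk c s, Pr (pE c s) (blk c (16 * s)) (fun F => Pv (II c s) (JJ c s) e ↑F) :=
    (mul_le_mul_of_nonneg_right h4 h3).trans key
  have h7 : ∑ e ∈ blk c s, Pr (pE c s) (blk c (16 * s)) (fun F => Pv (II c s) (JJ c s) e ↑F) ≤
      2 * ∑ e ∈ blk c s, PQ (1/2) (RF c s) (Tch c s e) := by
    rw [Finset.mul_sum]
    apply Finset.sum_le_sum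
    intro e he
    have := pq_pv_closed (c := c) (s := s) (by omega) he
    linarith
  have e2 : (1/2 : ℝ) ^ 3069 = 2 * (1/2) ^ 3070 := by
    rw [pow_succ (1/2 : ℝ) 3069]; ring
  rw [div_mul_eq_mul_div, div_le_iff₀ hC]
  rw [e2] at h6
  have h8 := mul_le_mul_of_nonneg_left h7 hC.le
  nlinarith

/-! ### Two points -/

/-- Two touching edges at distance `≥ 2k+2` which lie in a square of radius `d`. -/
theorem tch_two {c c' : ℤ × ℤ} {s d k : ℕ} {S : Finset Edg} (hS : RF c s ⊆ S) (hk : 1 ≤ k)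
    (hks : k ≤ 3 * s) {e e' : Edg}
    (he : e ∈ blk c s) (he' : e' ∈ blk c s)
    (h2 : |e.1 - c'.1| + k ≤ d) (h3 : |e.2.1 - c'.2| + k ≤ d)
    (h4 : |e'.1 - c'.1| + k ≤ d) (h5 : |e'.2.1 - c'.2| + k ≤ d)
    (hdist : 2 * (k:ℤ) + 2 ≤ |e.1 - e'.1| ∨ 2 * (k:ℤ) + 2 ≤ |e.2.1 - e'.2.1|)
    {B : Finset Edg → Prop} (hBl : ∀ F, F ⊆ S → (B F ↔ B (F ∩ (S \ blk c' d))))
    (hB : ∀ F, F ⊆ S → Tch c s e F → B F) :
    PQ (1/2) S (fun F => Tch c s e F ∧ Tch c s e' F) ≤ a4 (1/2) k ^ 2 * PQ (1/2) S B := by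
  have h0 : (0:ℝ) ≤ 1/2 := by norm_num
  have h1 : (1/2:ℝ) ≤ 1 := by norm_num
  have hbig : ∀ x : Edg, x ∈ blk c s → ebx x k ⊆ S := by
    intro x hx
    have hes : |x.1 - c.1| ≤ s ∧ |x.2.1 - c.2| ≤ s := by
      unfold blk at hx
      obtain ⟨x, y, _ | _⟩ := x
      · rw [mem_RE_false] at hx
        rw [abs_le, abs_le]; simp only; omega
      · rw [mem_RE_true] at hx
        rw [abs_le, abs_le]; simp only; omega
    exact (ebx_sub (c := c) (s := 4 * s) (by push_cast; omega) (by push_cast; omega)).trans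
      ((blk4_RF c s).trans hS)
  have hsub : ebx e k ⊆ blk c' d := ebx_sub h2 h3
  have hsub' : ebx e' k ⊆ blk c' d := ebx_sub h4 h5
  have hdis : Disjoint (ebx e k) (ebx e' k) := by
    rw [Finset.disjoint_left]
    unfold ebx
    rintro ⟨x, y, _ | _⟩ g1 g2
    · rw [mem_RE_false] at g1 g2
      rcases hdist with g | g
      · rw [le_abs] at g; omega
      · rw [le_abs] at g; omega
    · rw [mem_RE_true] at g1 g2
      rcases hdist with g | g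
      · rw [le_abs] at g; omega
      · rw [le_abs] at g; omega
  have s1 : PQ (1/2) S (fun F => Tch c s e F ∧ Tch c s e' F) ≤
      PQ (1/2) S (fun F => A4e k e ↑F ∧ (A4e k e' ↑F ∧ B F)) := by
    apply Pr_mono (okq h0 h1)
    rintro F hF ⟨g1, g2⟩
    exact ⟨tch_a4e he hk hks g1, tch_a4e he' hk hks g2, hB F hF g1⟩
  have s2 : PQ (1/2) S (fun F => A4e k e ↑F ∧ (A4e k e' ↑F ∧ B F)) ≤
      a4 (1/2) k * PQ (1/2) S (fun F => A4e k e' ↑F ∧ B F) := by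
    refine pr_A4e_and h0 h1 (hbig e he) (T := S \ ebx e k) Finset.sdiff_subset
      Finset.disjoint_sdiff (B := fun F => A4e k e' ↑F ∧ B F) ?_
    intro F hF
    refine and_congr ?_ ?_
    · exact A4e_local (LP_inter_aux hF hdis)
    · rw [hBl F hF, hBl (F ∩ (S \ ebx e k)) (Finset.inter_subset_left.trans hF)]
      rw [LP_inter_aux2 hsub]
  have s3 : PQ (1/2) S (fun F => A4e k e' ↑F ∧ B F) ≤ a4 (1/2) k * PQ (1/2) S B :=
    pr_A4e_and h0 h1 (hbig e' he') (T := S \ blk c' d) Finset.sdiff_subset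
      (Finset.disjoint_of_subset_left hsub' Finset.disjoint_sdiff) (B := B) hBl
  calc PQ (1/2) S (fun F => Tch c s e F ∧ Tch c s e' F) ≤ _ := s1
    _ ≤ _ := s2
    _ ≤ a4 (1/2) k * (a4 (1/2) k * PQ (1/2) S B) :=
        mul_le_mul_of_nonneg_left s3 (LP_a4_nonneg h0 h1 k)
    _ = _ := by ring

theorem blk_ends {c : ℤ × ℤ} {s : ℕ} {e : Edg} (he : e ∈ blk c s) :
    (c.1 - s ≤ e.1 ∧ e.1 ≤ c.1 + s) ∧ (c.2 - s ≤ e.2.1 ∧ e.2.1 ≤ c.2 + s) := by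
  unfold blk at he
  obtain ⟨x, y, _ | _⟩ := e
  · rw [mem_RE_false] at he
    simp only; omega
  · rw [mem_RE_true] at he
    simp only; omega

/-- The power bound for one edge. -/
theorem tch_one : ∃ C : ℝ, 0 < C ∧ ∀ (c : ℤ × ℤ) (s : ℕ), 1 ≤ s → ∀ S : Finset Edg, RF c s ⊆ S →
    ∀ e ∈ blk c s, PQ (1/2) S (Tch c s e) ≤ C * (s:ℝ) ^ (-(5/4) : ℝ) := by
  obtain ⟨_, C, _, hC, h⟩ := Pool.Agent.H988R6.a4_sharp
  refine ⟨C, hC, ?_⟩
  intro c s hs S hS e he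
  have ok : Ok (fun _ : Edg => (1/2:ℝ)) := okq (by norm_num) (by norm_num)
  have hb := blk_ends he
  have hsub : ebx e s ⊆ S := (ebx_sub (c := c) (s := 4 * s)
    (by
      have : |e.1 - c.1| ≤ s := by rw [abs_le]; omega
      push_cast; omega)
    (by
      have : |e.2.1 - c.2| ≤ s := by rw [abs_le]; omega
      push_cast; omega)).trans ((blk4_RF c s).trans hS)
  have h1 : PQ (1/2) S (Tch c s e) ≤ PQ (1/2) S (fun F => A4e s e ↑F) :=
    Pr_mono ok (fun F _ hF => tch_a4e he hs (by omega) hF)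
  exact h1.trans ((pr_A4e (by norm_num) (by norm_num) hsub).trans (h s hs).2)

end Pool.Agent.W822.PV
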