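import Pool.Agent.W822.PV.Loc2

/-!
# Touching edges of a box: the second moment and the energy
-/

set_option autoImplicit false
set_option maxHeartbeats 1000000
set_option linter.unusedSimpArgs false
set_option linter.unusedVariables false

namespace Pool.Agent.W822.PV

open H974 H12S H389NS Finset
open Pool.Agent.H160R2.CV (nv bx w_nv_comm w_card_bx w_mem_bx sum_bx_shift)
open Pool.Agent.H389R2.CD (kn kn_pos sum_pow_le)

theorem A4a_loc {c' : ℤ × ℤ} {d K : ℕ} {S : Finset Edg} (F : Finset Edg) (hF : F ⊆ S) :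
    A4a c' d K (↑F : Set Edg) ↔ A4a c' d K (↑(F ∩ (S \ blk c' d)) : Set Edg) := by
  have h : (↑F : Set Edg) ∩ ↑(blk c' K \ blk c' d) =
      (↑(F ∩ (S \ blk c' d)) : Set Edg) ∩ ↑(blk c' K \ blk c' d) := by
    ext x
    simp only [Finset.coe_inter, Finset.coe_sdiff, Set.mem_inter_iff, Set.mem_sdiff,
      Finset.mem_coe]
    have := @hF x
    tauto
  unfold A4a
  rw [h]

/-- **The two-point estimate.** -/
theorem two_point : ∃ C : ℝ, 0 < C ∧ ∀ (c : ℤ × ℤ) (s : ℕ), 1 ≤ s → ∀ S : Finset Edg,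
    RF c s ⊆ S → ∀ e ∈ blk c s, ∀ e' ∈ blk c s,
      PQ (1/2) S (fun F => Tch c s e F ∧ Tch c s e' F) ≤
        C * (((max (nv (src e' - src e)) 1 : ℕ) : ℝ) ^ (-(5/4) : ℝ) * (s:ℝ) ^ (-(5/4) : ℝ)) := by
  obtain ⟨_, Ca, _, hCa, ha⟩ := Pool.Agent.H988R6.a4_sharp
  obtain ⟨C1, hC1, h1⟩ := tch_one
  obtain ⟨Cb, hCb, hb⟩ := A4a_sharp
  refine ⟨(Ca * 8 ^ (5/4 : ℝ)) ^ 2 * (Cb + 1) + C1 * 4 ^ (5/4 : ℝ), by positivity, ?_⟩
  intro c s hs S hS e he e' he'
  have ok : Ok (fun _ : Edg => (1/2:ℝ)) := okq (by norm_num) (by norm_num)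
  obtain ⟨D, hD⟩ : ∃ D : ℕ, nv (src e' - src e) = D := ⟨_, rfl⟩
  rw [hD]
  have hDm : D = max (e'.1 - e.1).natAbs (e'.2.1 - e.2.1).natAbs := hD.symm
  have b1 := blk_ends he
  have b2 := blk_ends he'
  have hD2 : D ≤ 2 * s := by omega
  have hs0 : (0:ℝ) < s := by exact_mod_cast hs
  have hsp : (0:ℝ) < (s:ℝ) ^ (-(5/4) : ℝ) := by positivity
  by_cases hD4 : D < 4
  · have g1 : PQ (1/2) S (fun F => Tch c s e F ∧ Tch c s e' F) ≤ C1 * (s:ℝ) ^ (-(5/4) : ℝ) :=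
      (Pr_mono ok (fun F _ h => h.1)).trans (h1 c s hs S hS e he)
    have hM : (0:ℝ) < ((max D 1 : ℕ) : ℝ) := by
      have : 0 < max D 1 := by omega
      exact_mod_cast this
    have hM4 : ((max D 1 : ℕ) : ℝ) ≤ 4 := by
      have : max D 1 ≤ 4 := by omega
      exact_mod_cast this
    have g2 : (1:ℝ) ≤ 4 ^ (5/4 : ℝ) * ((max D 1 : ℕ) : ℝ) ^ (-(5/4) : ℝ) := by
      have g3 : (4:ℝ) ^ (-(5/4) : ℝ) ≤ ((max D 1 : ℕ) : ℝ) ^ (-(5/4) : ℝ) :=
        Real.rpow_le_rpow_of_nonpos hM hM4 (by norm_num)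
      have g4 : (4:ℝ) ^ (5/4 : ℝ) * (4:ℝ) ^ (-(5/4) : ℝ) = 1 := by
        rw [← Real.rpow_add (by norm_num)]
        norm_num
      rw [← g4]
      exact mul_le_mul_of_nonneg_left g3 (by positivity)
    refine g1.trans ?_
    calc C1 * (s:ℝ) ^ (-(5/4) : ℝ) = C1 * 1 * (s:ℝ) ^ (-(5/4) : ℝ) := by ring
      _ ≤ C1 * (4 ^ (5/4 : ℝ) * ((max D 1 : ℕ) : ℝ) ^ (-(5/4) : ℝ)) * (s:ℝ) ^ (-(5/4) : ℝ) := by
          gcongr
      _ = (C1 * 4 ^ (5/4 : ℝ)) * (((max D 1 : ℕ) : ℝ) ^ (-(5/4) : ℝ) * (s:ℝ) ^ (-(5/4) : ℝ)) := by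
          ring
      _ ≤ _ := by
          apply mul_le_mul_of_nonneg_right _ (by positivity)
          have : 0 < (Ca * 8 ^ (5/4 : ℝ)) ^ 2 * (Cb + 1) := by positivity
          linarith
  · push Not at hD4
    have hmax : max D 1 = D := by omega
    rw [hmax]
    obtain ⟨k, hk⟩ : ∃ k : ℕ, (D - 2) / 2 = k := ⟨_, rfl⟩
    have hk1 : 1 ≤ k := by omega
    have hkD : 2 * k + 2 ≤ D := by omega
    have hk8 : D ≤ 8 * k := by omega
    have hdist : 2 * (k:ℤ) + 2 ≤ |e.1 - e'.1| ∨ 2 * (k:ℤ) + 2 ≤ |e.2.1 - e'.2.1| := by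
      rw [le_abs, le_abs]
      omega
    have hD0 : (0:ℝ) < D := by
      have : 0 < D := by omega
      exact_mod_cast this
    have hk0 : (0:ℝ) < k := by exact_mod_cast hk1
    have hak : a4 (1/2) k ≤ Ca * 8 ^ (5/4 : ℝ) * (D:ℝ) ^ (-(5/4) : ℝ) := by
      refine (ha k hk1).2.trans ?_
      have g1 : (k:ℝ) ^ (-(5/4) : ℝ) ≤ ((D:ℝ) / 8) ^ (-(5/4) : ℝ) := by
        apply Real.rpow_le_rpow_of_nonpos (by positivity) _ (by norm_num)
        have : (D:ℝ) ≤ 8 * k := by exact_mod_cast hk8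
        linarith
      have g2 : ((D:ℝ) / 8) ^ (-(5/4) : ℝ) = 8 ^ (5/4 : ℝ) * (D:ℝ) ^ (-(5/4) : ℝ) := by
        rw [Real.div_rpow hD0.le (by norm_num), Real.rpow_neg (by norm_num : (0:ℝ) ≤ 8)]
        field_simp
      rw [g2] at g1
      calc Ca * (k:ℝ) ^ (-(5/4) : ℝ) ≤ Ca * (8 ^ (5/4 : ℝ) * (D:ℝ) ^ (-(5/4) : ℝ)) :=
            mul_le_mul_of_nonneg_left g1 hCa.le
        _ = _ := by ring
    have ha0 : 0 ≤ a4 (1/2) k := LP_a4_nonneg (by norm_num) (by norm_num) k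
    have hsq : a4 (1/2) k ^ 2 ≤ (Ca * 8 ^ (5/4 : ℝ)) ^ 2 *
        ((D:ℝ) ^ (-(5/4) : ℝ) * (D:ℝ) ^ (-(5/4) : ℝ)) := by
      calc a4 (1/2) k ^ 2 ≤ (Ca * 8 ^ (5/4 : ℝ) * (D:ℝ) ^ (-(5/4) : ℝ)) ^ 2 :=
            pow_le_pow_left₀ ha0 hak 2
        _ = _ := by ring
    have hX : 0 < (Ca * 8 ^ (5/4 : ℝ)) ^ 2 := by positivity
    have hDp : (0:ℝ) < (D:ℝ) ^ (-(5/4) : ℝ) := by positivity
    rcases le_or_gt D s with hDs | hDs
    · -- close
      have g1 : PQ (1/2) S (fun F => Tch c s e F ∧ Tch c s e' F) ≤ a4 (1/2) k ^ 2 *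
          PQ (1/2) S (fun F => A4a (e.1, e.2.1) (D + k) (3 * s) ↑F) := by
        have hsub : blk (e.1, e.2.1) (3 * s) ⊆ blk c (4 * s) := by
          unfold blk
          exact RE_subset (by push_cast; omega) (by push_cast; omega)
            (by push_cast; omega) (by push_cast; omega)
        refine tch_two (c' := (e.1, e.2.1)) (d := D + k) hS hk1 (by omega) he he' ?_ ?_ ?_ ?_ hdist
          (fun F hF => A4a_loc F hF) ?_
        · simp only [sub_self, abs_zero]; push_cast; omega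
        · simp only [sub_self, abs_zero]; push_cast; omega
        · have : |e'.1 - e.1| ≤ D := by rw [abs_le]; omega
          simp only; push_cast; omega
        · have : |e'.2.1 - e.2.1| ≤ D := by rw [abs_le]; omega
          simp only; push_cast; omega
        · intro F _ hF
          refine tch_a4a ?_ (by omega) hsub ?_ hF
          · unfold blk
            obtain ⟨x, y, _ | _⟩ := e
            · rw [mem_RE_false]; simp only; push_cast; omega
            · rw [mem_RE_true]; simp only; push_cast; omega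
          · intro w hw
            obtain ⟨-, k2⟩ := E1b.bdB_iff.1 hw
            simp only
            push_cast at k2 ⊢
            omega
      have g2 := hb (e.1, e.2.1) (D + k) (3 * s) (by omega) (by omega) S
        (by
          refine Finset.Subset.trans ?_ ((blk4_RF c s).trans hS)
          unfold blk
          exact RE_subset (by push_cast; omega) (by push_cast; omega)
            (by push_cast; omega) (by push_cast; omega))
      have g3 : (((D + k : ℕ) : ℝ) / ((3 * s : ℕ) : ℝ)) ^ (5/4 : ℝ) ≤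
          (D:ℝ) ^ (5/4 : ℝ) * (s:ℝ) ^ (-(5/4) : ℝ) := by
        have g4 : ((D + k : ℕ) : ℝ) / ((3 * s : ℕ) : ℝ) ≤ (D:ℝ) / s := by
          rw [div_le_div_iff₀ (by positivity) hs0]
          have : (D + k) * s ≤ D * (3 * s) := by nlinarith
          exact_mod_cast this
        refine (Real.rpow_le_rpow (by positivity) g4 (by norm_num)).trans (le_of_eq ?_)
        rw [Real.div_rpow hD0.le hs0.le, Real.rpow_neg hs0.le]
        rfl
      have g5 : PQ (1/2) S (fun F => A4a (e.1, e.2.1) (D + k) (3 * s) ↑F) ≤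
          Cb * ((D:ℝ) ^ (5/4 : ℝ) * (s:ℝ) ^ (-(5/4) : ℝ)) :=
        g2.trans (mul_le_mul_of_nonneg_left g3 hCb.le)
      have g6 : (D:ℝ) ^ (-(5/4) : ℝ) * (D:ℝ) ^ (5/4 : ℝ) = 1 := by
        rw [← Real.rpow_add hD0]; norm_num
      calc PQ (1/2) S (fun F => Tch c s e F ∧ Tch c s e' F) ≤ _ := g1
        _ ≤ ((Ca * 8 ^ (5/4 : ℝ)) ^ 2 * ((D:ℝ) ^ (-(5/4) : ℝ) * (D:ℝ) ^ (-(5/4) : ℝ))) *
            (Cb * ((D:ℝ) ^ (5/4 : ℝ) * (s:ℝ) ^ (-(5/4) : ℝ))) :=
            mul_le_mul hsq g5 (Pr_nonneg ok _ _) (by positivity)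
        _ = ((Ca * 8 ^ (5/4 : ℝ)) ^ 2 * Cb) * (((D:ℝ) ^ (-(5/4) : ℝ) * (D:ℝ) ^ (5/4 : ℝ)) *
            ((D:ℝ) ^ (-(5/4) : ℝ) * (s:ℝ) ^ (-(5/4) : ℝ))) := by ring
        _ = ((Ca * 8 ^ (5/4 : ℝ)) ^ 2 * Cb) * ((D:ℝ) ^ (-(5/4) : ℝ) * (s:ℝ) ^ (-(5/4) : ℝ)) := by
            rw [g6, one_mul]
        _ ≤ _ := by
            apply mul_le_mul_of_nonneg_right _ (by positivity)
            have : 0 < C1 * 4 ^ (5/4 : ℝ) := by positivity
            nlinarith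
    · -- far
      have g1 : PQ (1/2) S (fun F => Tch c s e F ∧ Tch c s e' F) ≤ a4 (1/2) k ^ 2 *
          PQ (1/2) S (fun F => True) := by
        refine tch_two (c' := c) (d := s + k) hS hk1 (by omega) he he' ?_ ?_ ?_ ?_ hdist
          (fun F hF => Iff.rfl) (fun _ _ _ => trivial)
        · have : |e.1 - c.1| ≤ s := by rw [abs_le]; omega
          push_cast; omega
        · have : |e.2.1 - c.2| ≤ s := by rw [abs_le]; omega
          push_cast; omega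
        · have : |e'.1 - c.1| ≤ s := by rw [abs_le]; omega
          push_cast; omega
        · have : |e'.2.1 - c.2| ≤ s := by rw [abs_le]; omega
          push_cast; omega
      have g2 : PQ (1/2) S (fun F => True) ≤ 1 := Pr_le_one ok _ _
      have g3 : (D:ℝ) ^ (-(5/4) : ℝ) ≤ (s:ℝ) ^ (-(5/4) : ℝ) :=
        Real.rpow_le_rpow_of_nonpos hs0 (by exact_mod_cast hDs.le) (by norm_num)
      calc PQ (1/2) S (fun F => Tch c s e F ∧ Tch c s e' F) ≤ _ := g1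
        _ ≤ ((Ca * 8 ^ (5/4 : ℝ)) ^ 2 * ((D:ℝ) ^ (-(5/4) : ℝ) * (D:ℝ) ^ (-(5/4) : ℝ))) * 1 :=
            mul_le_mul hsq g2 (Pr_nonneg ok _ _) (by positivity)
        _ ≤ (Ca * 8 ^ (5/4 : ℝ)) ^ 2 * ((D:ℝ) ^ (-(5/4) : ℝ) * (s:ℝ) ^ (-(5/4) : ℝ)) := by
            rw [mul_one]
            gcongr
        _ ≤ _ := by
            apply mul_le_mul_of_nonneg_right _ (by positivity)
            have : 0 < C1 * 4 ^ (5/4 : ℝ) := by positivity
            nlinarith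

/-! ### Sums -/

/-- A sum over the edges of a block as a sum over the vertices of a box. -/
theorem sum_blk_le (c : ℤ × ℤ) (s : ℕ) (g : Vtx → ℝ) (hg : ∀ v, 0 ≤ g v) :
    ∑ e ∈ blk c s, g (src e) ≤ 2 * ∑ y ∈ bx s, g (y + c) := by
  classical
  set φ : Vtx × Bool → Edg := fun p => (p.1.1 + c.1, p.1.2 + c.2, p.2) with hφ
  have hinj : Function.Injective φ := by
    rintro ⟨⟨x, y⟩, b⟩ ⟨⟨x', y'⟩, b'⟩ h
    simp only [hφ, Prod.mk.injEq] at h
    obtain ⟨h1, h2, h3⟩ := h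
    have h4 : x = x' := by omega
    have h5 : y = y' := by omega
    rw [h4, h5, h3]
  have hsub : blk c s ⊆ (bx s ×ˢ (Finset.univ : Finset Bool)).image φ := by
    intro e he
    have hb := blk_ends he
    rw [Finset.mem_image]
    refine ⟨((e.1 - c.1, e.2.1 - c.2), e.2.2), ?_, ?_⟩
    · rw [Finset.mem_product, w_mem_bx]
      refine ⟨?_, Finset.mem_univ _⟩
      simp only
      omega
    · simp only [hφ, sub_add_cancel]
  calc ∑ e ∈ blk c s, g (src e) ≤ ∑ e ∈ (bx s ×ˢ (Finset.univ : Finset Bool)).image φ, g (src e) :=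
        Finset.sum_le_sum_of_subset_of_nonneg hsub (fun _ _ _ => hg _)
    _ = ∑ p ∈ bx s ×ˢ (Finset.univ : Finset Bool), g (src (φ p)) :=
        Finset.sum_image (fun _ _ _ _ h => hinj h)
    _ = ∑ y ∈ bx s, ∑ b : Bool, g (y + c) := by
        rw [Finset.sum_product]
        rfl
    _ = 2 * ∑ y ∈ bx s, g (y + c) := by
        rw [Finset.mul_sum]
        apply Finset.sum_congr rfl
        intro y _
        rw [Finset.sum_const, Finset.card_univ, Fintype.card_bool, nsmul_eq_mul]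
        norm_num

/-- The sum of the kernel. -/
theorem sum_kernel {t : ℝ} (ht0 : 0 ≤ t) (ht : t < 3 / 4) : ∃ C : ℝ, 0 < C ∧
    ∀ (c : ℤ × ℤ) (s : ℕ), 1 ≤ s → ∀ e ∈ blk c s,
      ∑ e' ∈ blk c s, kn t (src e) (src e') *
        ((max (nv (src e' - src e)) 1 : ℕ) : ℝ) ^ (-(5/4) : ℝ) ≤ C * (s:ℝ) ^ (3/4 - t) := by
  set b : ℝ := 1 / 4 + t with hb
  have hb0 : 0 ≤ b := by rw [hb]; linarith
  have hb1 : b < 1 := by rw [hb]; linarith
  have h1b : 0 < 1 - b := by linarith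
  refine ⟨2 * (8 * (2 * (1 + 2 / (1 - b)))), by positivity, ?_⟩
  intro c s hs e he
  have hs1 : (1:ℝ) ≤ s := by exact_mod_cast hs
  have hs0 : (0:ℝ) < s := by linarith
  set f : ℕ → ℝ := fun k => ((max k 1 : ℕ) : ℝ) ^ (-t) * ((max k 1 : ℕ) : ℝ) ^ (-(5/4) : ℝ) with hf
  have hf0 : ∀ k, 0 ≤ f k := by intro k; rw [hf]; positivity
  have hbe := blk_ends he
  have e1 : ∑ e' ∈ blk c s, kn t (src e) (src e') *
      ((max (nv (src e' - src e)) 1 : ℕ) : ℝ) ^ (-(5/4) : ℝ) =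
      ∑ e' ∈ blk c s, (fun v => f (nv (v - src e))) (src e') := by
    apply Finset.sum_congr rfl
    intro e' _
    unfold kn
    rw [w_nv_comm (src e) (src e')]
  rw [e1]
  refine (sum_blk_le c s (fun v => f (nv (v - src e))) (fun v => hf0 _)).trans ?_
  have hx : src e - c ∈ bx s := by
    rw [w_mem_bx]
    show _ ∧ _
    simp only [Prod.fst_sub, Prod.snd_sub, src]
    omega
  have e2 : ∑ y ∈ bx s, (fun v => f (nv (v - src e))) (y + c) =
      ∑ y ∈ bx s, f (nv (y - (src e - c))) := by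
    apply Finset.sum_congr rfl
    intro y _
    simp only
    congr 2
    abel
  rw [e2]
  have h1 := sum_bx_shift s (src e - c) hx f hf0
  have h2 : ∑ k ∈ range (2 * s + 1), ((k : ℝ) + 1) * f k ≤ 2 * ((1 + 2 / (1 - b)) * (s:ℝ) ^ (3/4 - t)) := by
    have h3 : ∀ k ∈ range (2 * s + 1), ((k : ℝ) + 1) * f k ≤ 2 * ((max k 1 : ℕ) : ℝ) ^ (-b) := by
      intro k _
      have hm : (0:ℝ) < ((max k 1 : ℕ) : ℝ) := by
        have : 0 < max k 1 := by omega
        exact_mod_cast this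
      have hk2 : (k:ℝ) + 1 ≤ 2 * ((max k 1 : ℕ) : ℝ) := by
        have : k + 1 ≤ 2 * max k 1 := by omega
        exact_mod_cast this
      have e3 : ((max k 1 : ℕ) : ℝ) ^ (-b) = ((max k 1 : ℕ) : ℝ) * f k := by
        rw [hf]
        simp only
        nth_rewrite 2 [← Real.rpow_one ((max k 1 : ℕ) : ℝ)]
        rw [← Real.rpow_add hm, ← Real.rpow_add hm]
        congr 1
        rw [hb]; ring
      rw [e3]
      calc ((k:ℝ) + 1) * f k ≤ (2 * ((max k 1 : ℕ) : ℝ)) * f k :=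
            mul_le_mul_of_nonneg_right hk2 (hf0 k)
        _ = _ := by ring
    refine (Finset.sum_le_sum h3).trans ?_
    rw [← Finset.mul_sum]
    apply mul_le_mul_of_nonneg_left _ (by norm_num)
    refine (sum_pow_le hb0 hb1 (2 * s)).trans ?_
    have e4 : 1 - b = 3/4 - t := by rw [hb]; ring
    have h4 : (1 : ℝ) ≤ (s : ℝ) ^ (1 - b) := Real.one_le_rpow hs1 h1b.le
    have h5 : ((2 * s : ℕ) : ℝ) ^ (1 - b) ≤ 2 * (s : ℝ) ^ (1 - b) := by
      push_cast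
      rw [Real.mul_rpow (by norm_num) hs0.le]
      apply mul_le_mul_of_nonneg_right _ (by positivity)
      calc (2 : ℝ) ^ (1 - b) ≤ (2 : ℝ) ^ (1 : ℝ) :=
            Real.rpow_le_rpow_of_exponent_le (by norm_num) (by linarith)
        _ = 2 := Real.rpow_one _
    have h6 : ((2 * s : ℕ) : ℝ) ^ (1 - b) / (1 - b) ≤ 2 / (1 - b) * (s : ℝ) ^ (1 - b) := by
      rw [div_mul_eq_mul_div]
      exact div_le_div_of_nonneg_right h5 h1b.le
    rw [← e4]
    calc 1 + ((2 * s : ℕ) : ℝ) ^ (1 - b) / (1 - b)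
        ≤ (s : ℝ) ^ (1 - b) + 2 / (1 - b) * (s : ℝ) ^ (1 - b) := add_le_add h4 h6
      _ = _ := by ring
  have h7 := h1.trans (mul_le_mul_of_nonneg_left h2 (by norm_num : (0:ℝ) ≤ 8))
  calc 2 * ∑ y ∈ bx s, f (nv (y - (src e - c)))
      ≤ 2 * (8 * (2 * ((1 + 2 / (1 - b)) * (s:ℝ) ^ (3/4 - t)))) :=
        mul_le_mul_of_nonneg_left h7 (by norm_num)
    _ = _ := by ring

/-- **The weighted second moment.** -/
theorem second_moment {t : ℝ} (ht0 : 0 ≤ t) (ht : t < 3 / 4) : ∃ C : ℝ, 0 < C ∧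
    ∀ (c : ℤ × ℤ) (s : ℕ), 1 ≤ s → ∀ S : Finset Edg, RF c s ⊆ S →
      ∑ e ∈ blk c s, ∑ e' ∈ blk c s, kn t (src e) (src e') *
        PQ (1/2) S (fun F => Tch c s e F ∧ Tch c s e' F) ≤ C * (s:ℝ) ^ (3/2 - t) := by
  obtain ⟨C1, hC1, h1⟩ := two_point
  obtain ⟨C2, hC2, h2⟩ := sum_kernel ht0 ht
  refine ⟨18 * (C1 * C2), by positivity, ?_⟩
  intro c s hs S hS
  have hs0 : (0:ℝ) < s := by exact_mod_cast hs
  have hsp : (0:ℝ) < (s:ℝ) ^ (-(5/4) : ℝ) := by positivity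
  have h3 : ∀ e ∈ blk c s, ∑ e' ∈ blk c s, kn t (src e) (src e') *
        PQ (1/2) S (fun F => Tch c s e F ∧ Tch c s e' F) ≤
      C1 * (s:ℝ) ^ (-(5/4) : ℝ) * (C2 * (s:ℝ) ^ (3/4 - t)) := by
    intro e he
    have h4 : ∀ e' ∈ blk c s, kn t (src e) (src e') *
        PQ (1/2) S (fun F => Tch c s e F ∧ Tch c s e' F) ≤
        C1 * (s:ℝ) ^ (-(5/4) : ℝ) * (kn t (src e) (src e') *
          ((max (nv (src e' - src e)) 1 : ℕ) : ℝ) ^ (-(5/4) : ℝ)) := by
      intro e' he'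
      calc _ ≤ kn t (src e) (src e') * (C1 * (((max (nv (src e' - src e)) 1 : ℕ) : ℝ) ^
            (-(5/4) : ℝ) * (s:ℝ) ^ (-(5/4) : ℝ))) :=
            mul_le_mul_of_nonneg_left (h1 c s hs S hS e he e' he') (kn_pos _ _ _).le
        _ = _ := by ring
    refine (Finset.sum_le_sum h4).trans ?_
    rw [← Finset.mul_sum]
    exact mul_le_mul_of_nonneg_left (h2 c s hs e he) (by positivity)
  refine (Finset.sum_le_card_nsmul _ _ _ h3).trans ?_
  rw [nsmul_eq_mul]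
  have h5 := S4a.card_blk c hs
  have h6 : 0 ≤ C1 * (s:ℝ) ^ (-(5/4) : ℝ) * (C2 * (s:ℝ) ^ (3/4 - t)) := by positivity
  refine (mul_le_mul_of_nonneg_right h5 h6).trans (le_of_eq ?_)
  have e1 : (s:ℝ) ^ (3/2 - t) = (s:ℝ) ^ 2 * ((s:ℝ) ^ (-(5/4) : ℝ) * (s:ℝ) ^ (3/4 - t)) := by
    rw [← Real.rpow_natCast (s:ℝ) 2, ← Real.rpow_add hs0, ← Real.rpow_add hs0]
    congr 1
    push_cast; ring
  rw [e1]
  ring

end Pool.Agent.W822.PV
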