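import Pool.Agent.W822.PV.Loc3
import Pool.Agent.H974R2.Block

/-!
# The local event: many touching edges with bounded energy, isolated by a closed circuit
-/

set_option autoImplicit false
set_option maxHeartbeats 1000000
set_option linter.unusedSimpArgs false
set_option linter.unusedVariables false

namespace Pool.Agent.W822.PV

open H974 H12S H389NS Finset
open Pool.Agent.H160R2.CV (nv bx)
open Pool.Agent.H389R2.CD (kn kn_pos eng)

/-- Second moment method. -/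
theorem pz0 {p : Edg → ℝ} (hp : Ok p) {S : Finset Edg} {Y : Finset Edg → ℝ} {A m C : ℝ}
    (hA : 0 < A) (hm : 0 < m) (hC : 0 < C) (h1 : m * A ≤ Ex p S Y)
    (h2 : Ex p S (fun F => Y F ^ 2) ≤ C * A ^ 2) :
    m ^ 2 / (4 * C) ≤ Pr p S (fun F => m / 2 * A ≤ Y F) := by
  set a : ℝ := m / 2 with ha
  have ha0 : 0 < a := by positivity
  set Gd : Finset Edg → Prop := fun F => a * A ≤ Y F with hGd
  set s : ℝ := 2 * C * A / m with hs
  have hs0 : 0 < s := by positivity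
  have hpt : ∀ F, Y F ≤ a * A + (1 / (2 * s) * Y F ^ 2 + s / 2 * ind (Gd F)) := by
    intro F
    by_cases hy : a * A ≤ Y F
    · rw [ind_of (show Gd F from hy), mul_one]
      have h10 : Y F ≤ 1 / (2 * s) * Y F ^ 2 + s / 2 := by
        rw [← sub_nonneg]
        have : 1 / (2 * s) * Y F ^ 2 + s / 2 - Y F = 1 / (2 * s) * (Y F - s) ^ 2 := by
          field_simp
          ring
        rw [this]
        positivity
      have : 0 < a * A := by positivity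
      linarith
    · push Not at hy
      have h11 := ind_nonneg (Gd F)
      have : 0 ≤ 1 / (2 * s) * Y F ^ 2 + s / 2 * ind (Gd F) := by positivity
      linarith
  have hint : Ex p S Y ≤
      a * A + (1 / (2 * s) * Ex p S (fun F => Y F ^ 2) + s / 2 * Pr p S Gd) := by
    refine (Ex_mono hp (fun F _ => hpt F)).trans (le_of_eq ?_)
    rw [Ex_add, Ex_const, Ex_add, Ex_mul_left, Ex_mul_left]
    rfl
  have h12 : m * A ≤ a * A + (1 / (2 * s) * (C * A ^ 2) + s / 2 * Pr p S Gd) := by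
    refine h1.trans (hint.trans ?_)
    have : 1 / (2 * s) * Ex p S (fun F => Y F ^ 2) ≤ 1 / (2 * s) * (C * A ^ 2) :=
      mul_le_mul_of_nonneg_left h2 (by positivity)
    linarith
  have h13 : 1 / (2 * s) * (C * A ^ 2) = m * A / 4 := by
    rw [hs]; field_simp; ring
  rw [h13, ha] at h12
  have h14 : m * A / 4 ≤ s / 2 * Pr p S Gd := by linarith
  have h15 : s / 2 = C * A / m := by rw [hs]; ring
  rw [h15] at h14
  have h16 : m / 4 ≤ C / m * Pr p S Gd := by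
    have h17 : (m / 4) * A ≤ (C / m * Pr p S Gd) * A := by
      calc (m / 4) * A = m * A / 4 := by ring
        _ ≤ _ := h14
        _ = _ := by ring
    exact le_of_mul_le_mul_right h17 hA
  rw [div_le_iff₀ (by positivity)]
  have h18 : m / 4 * m ≤ C / m * Pr p S Gd * m := mul_le_mul_of_nonneg_right h16 hm.le
  have h19 : C / m * Pr p S Gd * m = C * Pr p S Gd := by field_simp
  rw [h19] at h18
  nlinarith

/-- Markov's inequality. -/
theorem mkv0 {p : Edg → ℝ} (hp : Ok p) {S : Finset Edg} {Y : Finset Edg → ℝ}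
    (hY0 : ∀ F, 0 ≤ Y F) {m E : ℝ} (hE : 0 < E) (h1 : Ex p S Y ≤ m) :
    Pr p S (fun F => ¬ Y F ≤ E) ≤ m / E := by
  rw [le_div_iff₀ hE, mul_comm]
  refine le_trans ?_ h1
  unfold Pr
  rw [← Ex_mul_left]
  apply Ex_mono hp
  intro F _
  by_cases h : Y F ≤ E
  · rw [ind_not_of (not_not.mpr h), mul_zero]; exact hY0 F
  · rw [ind_of h, mul_one]; exact (not_le.mp h).le

/-- Harris' inequality, conditionally on the edges of `U`. -/
theorem cond_harris {p : Edg → ℝ} (hp : Ok p) {U V : Finset Edg} (hd : Disjoint U V)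
    {A B : Finset Edg → Prop}
    (hA : ∀ F1, F1 ⊆ U → IncrE V (fun F2 => ¬ A (F1 ∪ F2)))
    (hB : ∀ F1, F1 ⊆ U → ∀ F2, F2 ⊆ V → (B (F1 ∪ F2) ↔ B F2))
    (hBi : IncrE V (fun F2 => ¬ B F2)) :
    Pr p (U ∪ V) A * Pr p V B ≤ Pr p (U ∪ V) (fun F => A F ∧ B F) := by
  have h1 : ∀ F1, F1 ⊆ U → Pr p V (fun F2 => A (F1 ∪ F2)) * Pr p V B ≤
      Pr p V (fun F2 => A (F1 ∪ F2) ∧ B (F1 ∪ F2)) := by
    intro F1 hF1
    have h2 := Pr_harris_dd hp (hA F1 hF1) hBi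
    rw [← Pr_not, ← Pr_not] at h2
    have e1 : Pr p V (fun F => ¬ ¬ A (F1 ∪ F)) = Pr p V (fun F2 => A (F1 ∪ F2)) :=
      Pr_congr (fun F _ => not_not)
    have e2 : Pr p V (fun F => ¬ ¬ B F) = Pr p V B := Pr_congr (fun F _ => not_not)
    have e3 : Pr p V (fun F => ¬ ¬ A (F1 ∪ F) ∧ ¬ ¬ B F) =
        Pr p V (fun F2 => A (F1 ∪ F2) ∧ B (F1 ∪ F2)) := by
      apply Pr_congr
      intro F hF
      rw [not_not, not_not, hB F1 hF1 F hF]
    rw [e1, e2, e3] at h2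
    exact h2
  unfold Pr
  rw [Ex_union hd, Ex_union hd, ← Ex_mul_right]
  exact Ex_mono hp (fun F1 hF1 => h1 F1 hF1)

/-! ### Isolation -/

/-- No open crossing of the annulus between the radii `m` and `3 m`. -/
def Iso (c : ℤ × ℤ) (m : ℕ) (F : Finset Edg) : Prop :=
  ¬ (LRc (c.1 + m) (c.1 + 3 * m) (c.2 - 3 * m) (c.2 + 3 * m) F ∨
    LRc (c.1 - 3 * m) (c.1 - m) (c.2 - 3 * m) (c.2 + 3 * m) F) ∧
  ¬ (TBc (c.1 - 3 * m) (c.1 + 3 * m) (c.2 + m) (c.2 + 3 * m) F ∨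
    TBc (c.1 - 3 * m) (c.1 + 3 * m) (c.2 - 3 * m) (c.2 - m) F)

theorem iso_block {c : ℤ × ℤ} {m : ℕ} (hm : 1 ≤ m) {F : Finset Edg} {G : Set Edg}
    (hG : ∀ e ∈ G, e ∈ RE (c.1 - 3 * m) (c.1 + 3 * m) (c.2 - 3 * m) (c.2 + 3 * m) → e ∈ F)
    {u v : Vtx} (hu : inR (c.1 - m) (c.1 + m) (c.2 - m) (c.2 + m) u)
    (h : Reach G u v)
    (hv : v.1 ≤ c.1 - 3 * m ∨ c.1 + 3 * m ≤ v.1 ∨ v.2 ≤ c.2 - 3 * m ∨ c.2 + 3 * m ≤ v.2) :
    ¬ Iso c m F := by
  unfold inR at hu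
  obtain ⟨w, k1, k2, k3⟩ := first_exit (a := c.1 - 3 * m) (b := c.1 + 3 * m)
    (c := c.2 - 3 * m) (d := c.2 + 3 * m) (by unfold inR; omega) h hv
  rintro ⟨hb1, hb2⟩
  have hsub : ∀ (L : Finset Edg), ((G ∩ ↑(RE (c.1 - 3 * m) (c.1 + 3 * m) (c.2 - 3 * m)
      (c.2 + 3 * m)) : Set Edg) ∩ ↑L) ⊆ (↑F : Set Edg) ∩ ↑L := by
    rintro L e ⟨⟨h4, h5⟩, h6⟩
    exact ⟨hG e h4 h5, h6⟩
  rcases k2 with k2 | k2 | k2 | k2
  · apply hb1
    right
    obtain ⟨y1, y2, m1, m2, m3, -⟩ := sub_LR (a := c.1 - 3 * m) (b := c.1 - m) (c := c.2 - 3 * m)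
      (d := c.2 + 3 * m) (by omega)
      (by rintro x y ⟨-, h⟩ _ _; simp only [mem_coe, mem_RE_true] at h; omega)
      (by rintro x y ⟨-, h⟩ _ _; simp only [mem_coe, mem_RE_false] at h; omega)
      k3.symm k2.le (by omega)
    exact ⟨y1, y2, m1, m2, m3.mono (hsub _)⟩
  · apply hb1
    left
    obtain ⟨y1, y2, m1, m2, m3, -⟩ := sub_LR (a := c.1 + m) (b := c.1 + 3 * m) (c := c.2 - 3 * m)
      (d := c.2 + 3 * m) (by omega)
      (by rintro x y ⟨-, h⟩ _ _; simp only [mem_coe, mem_RE_true] at h; omega)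
      (by rintro x y ⟨-, h⟩ _ _; simp only [mem_coe, mem_RE_false] at h; omega)
      k3 (by omega) k2.ge
    exact ⟨y1, y2, m1, m2, m3.mono (hsub _)⟩
  · apply hb2
    right
    obtain ⟨y1, y2, m1, m2, m3, -⟩ := sub_TB (a := c.1 - 3 * m) (b := c.1 + 3 * m)
      (c := c.2 - 3 * m) (d := c.2 - m) (by omega)
      (by rintro x y ⟨-, h⟩ _ _; simp only [mem_coe, mem_RE_false] at h; omega)
      (by rintro x y ⟨-, h⟩ _ _; simp only [mem_coe, mem_RE_true] at h; omega)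
      k3.symm k2.le (by omega)
    exact ⟨y1, y2, m1, m2, m3.mono (hsub _)⟩
  · apply hb2
    left
    obtain ⟨y1, y2, m1, m2, m3, -⟩ := sub_TB (a := c.1 - 3 * m) (b := c.1 + 3 * m) (c := c.2 + m)
      (d := c.2 + 3 * m) (by omega)
      (by rintro x y ⟨-, h⟩ _ _; simp only [mem_coe, mem_RE_false] at h; omega)
      (by rintro x y ⟨-, h⟩ _ _; simp only [mem_coe, mem_RE_true] at h; omega)
      k3 (by omega) k2.ge
    exact ⟨y1, y2, m1, m2, m3.mono (hsub _)⟩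

/-- The ring. -/
noncomputable def ring2 (c : ℤ × ℤ) (m : ℕ) : Finset Edg :=
  (LRE (c.1 + m) (c.1 + 3 * m) (c.2 - 3 * m) (c.2 + 3 * m) ∪
    LRE (c.1 - 3 * m) (c.1 - m) (c.2 - 3 * m) (c.2 + 3 * m)) ∪
  (TBE (c.1 - 3 * m) (c.1 + 3 * m) (c.2 + m) (c.2 + 3 * m) ∪
    TBE (c.1 - 3 * m) (c.1 + 3 * m) (c.2 - 3 * m) (c.2 - m))

theorem ring2_parts (c : ℤ × ℤ) (m : ℕ) :
    LRE (c.1 + m) (c.1 + 3 * m) (c.2 - 3 * m) (c.2 + 3 * m) ⊆ ring2 c m ∧
    LRE (c.1 - 3 * m) (c.1 - m) (c.2 - 3 * m) (c.2 + 3 * m) ⊆ ring2 c m ∧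
    TBE (c.1 - 3 * m) (c.1 + 3 * m) (c.2 + m) (c.2 + 3 * m) ⊆ ring2 c m ∧
    TBE (c.1 - 3 * m) (c.1 + 3 * m) (c.2 - 3 * m) (c.2 - m) ⊆ ring2 c m := by
  unfold ring2
  exact ⟨Finset.subset_union_left.trans Finset.subset_union_left,
    Finset.subset_union_right.trans Finset.subset_union_left,
    Finset.subset_union_left.trans Finset.subset_union_right,
    Finset.subset_union_right.trans Finset.subset_union_right⟩

theorem Iso_local {c : ℤ × ℤ} {m : ℕ} {S : Finset Edg} (hS : ring2 c m ⊆ S) (F : Finset Edg) :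
    Iso c m F ↔ Iso c m (F ∩ S) := by
  obtain ⟨h1, h2, h3, h4⟩ := ring2_parts c m
  unfold Iso
  rw [LRc_local (F := F) (h1.trans hS), LRc_local (F := F) (h2.trans hS),
    TBc_local (F := F) (h3.trans hS), TBc_local (F := F) (h4.trans hS)]

theorem Iso_decr {c : ℤ × ℤ} {m : ℕ} (S : Finset Edg) : IncrE S (fun F => ¬ Iso c m F) := by
  intro F G hFG _ hF hG
  apply hF
  refine ⟨fun h => hG.1 (h.imp (LRc.mono hFG) (LRc.mono hFG)),
    fun h => hG.2 (h.imp (TBc.mono hFG) (TBc.mono hFG))⟩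

theorem ring2_out {c : ℤ × ℤ} {s : ℕ} (hs : 1 ≤ s) : ring2 c (5 * s) ⊆ blk c (16 * s) \ blk c (4 * s) := by
  rintro ⟨x, y, _ | _⟩ h
  · unfold ring2 at h
    simp only [Finset.mem_union, mem_LRE_false, mem_TBE_false] at h
    unfold blk
    rw [Finset.mem_sdiff, mem_RE_false, mem_RE_false]
    push_cast at h ⊢
    omega
  · unfold ring2 at h
    simp only [Finset.mem_union, mem_LRE_true, mem_TBE_true] at h
    unfold blk
    rw [Finset.mem_sdiff, mem_RE_true, mem_RE_true]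
    push_cast at h ⊢
    omega

theorem pr_iso (c : ℤ × ℤ) {m : ℕ} (hm : 5 ≤ m) {S : Finset Edg} (hS : ring2 c m ⊆ S) :
    (1/2 : ℝ)^188 ≤ PQ (1/2) S (Iso c m) := by
  have hm' : (5:ℤ) ≤ m := by exact_mod_cast hm
  have h0 : (0:ℝ) ≤ 1/2 := by norm_num
  have h1 : (1/2:ℝ) ≤ 1 := by norm_num
  have ok := okq h0 h1
  obtain ⟨s1, s2, s3, s4⟩ := ring2_parts c m
  have e1 := pr_LRc (1/2) (s1.trans hS)
  have e2 := pr_LRc (1/2) (s2.trans hS)
  have e3 := pr_TBc (1/2) (s3.trans hS)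
  have e4 := pr_TBc (1/2) (s4.trans hS)
  have d1 : c.1 + 3 * m - (c.1 + m) = 2 * m := by ring
  have d2 : c.2 + 3 * m - (c.2 - 3 * m) = 6 * m := by ring
  have d3 : c.1 - m - (c.1 - 3 * m) = 2 * m := by ring
  have d4 : c.2 + 3 * m - (c.2 + m) = 2 * m := by ring
  have d5 : c.1 + 3 * m - (c.1 - 3 * m) = 6 * m := by ring
  have d6 : c.2 - m - (c.2 - 3 * m) = 2 * m := by ring
  rw [d1, d2] at e1
  rw [d3, d2] at e2
  rw [d4, d5] at e3
  rw [d6, d5] at e4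
  have hdual := hh_dual (q := 1/2) (w := 2 * m) (h := 6 * m) (by omega) (by omega)
  have hrsw : (1/2:ℝ)^47 ≤ hh (1/2) (6 * m + 1) (2 * m - 1) :=
    rsw (n := m - 1) (by omega) (by omega) (by omega) (by omega)
  have e5 : (1:ℝ) - 1/2 = 1/2 := by norm_num
  rw [e5] at hdual
  have hval : (1/2:ℝ)^47 ≤ 1 - hh (1/2) (2 * m) (6 * m) := by linarith
  have i1 := Pr_harris_dd ok
    (LRc_incr S (c.1 + m) (c.1 + 3 * m) (c.2 - 3 * m) (c.2 + 3 * m))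
    (LRc_incr S (c.1 - 3 * m) (c.1 - m) (c.2 - 3 * m) (c.2 + 3 * m))
  have i2 := Pr_harris_dd ok
    (TBc_incr S (c.1 - 3 * m) (c.1 + 3 * m) (c.2 + m) (c.2 + 3 * m))
    (TBc_incr S (c.1 - 3 * m) (c.1 + 3 * m) (c.2 - 3 * m) (c.2 - m))
  rw [e1, e2] at i1
  rw [e3, e4] at i2
  have c1 : IncrE S (fun F => LRc (c.1 + m) (c.1 + 3 * m) (c.2 - 3 * m) (c.2 + 3 * m) F ∨
      LRc (c.1 - 3 * m) (c.1 - m) (c.2 - 3 * m) (c.2 + 3 * m) F) :=
    fun F G hFG _ hF => hF.imp (LRc.mono hFG) (LRc.mono hFG)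
  have c2 : IncrE S (fun F => TBc (c.1 - 3 * m) (c.1 + 3 * m) (c.2 + m) (c.2 + 3 * m) F ∨
      TBc (c.1 - 3 * m) (c.1 + 3 * m) (c.2 - 3 * m) (c.2 - m) F) :=
    fun F G hFG _ hF => hF.imp (TBc.mono hFG) (TBc.mono hFG)
  have i3 := Pr_harris_dd ok c1 c2
  rw [← Pr_not, ← Pr_not] at i3
  have j1 : Pr (fun _ => (1/2:ℝ)) S (fun F => ¬ (LRc (c.1 + m) (c.1 + 3 * m) (c.2 - 3 * m)
      (c.2 + 3 * m) F ∨ LRc (c.1 - 3 * m) (c.1 - m) (c.2 - 3 * m) (c.2 + 3 * m) F)) =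
      Pr (fun _ => (1/2:ℝ)) S (fun F => ¬ LRc (c.1 + m) (c.1 + 3 * m) (c.2 - 3 * m)
      (c.2 + 3 * m) F ∧ ¬ LRc (c.1 - 3 * m) (c.1 - m) (c.2 - 3 * m) (c.2 + 3 * m) F) :=
    Pr_congr (fun F _ => not_or)
  have j2 : Pr (fun _ => (1/2:ℝ)) S (fun F => ¬ (TBc (c.1 - 3 * m) (c.1 + 3 * m) (c.2 + m)
      (c.2 + 3 * m) F ∨ TBc (c.1 - 3 * m) (c.1 + 3 * m) (c.2 - 3 * m) (c.2 - m) F)) =
      Pr (fun _ => (1/2:ℝ)) S (fun F => ¬ TBc (c.1 - 3 * m) (c.1 + 3 * m) (c.2 + m)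
      (c.2 + 3 * m) F ∧ ¬ TBc (c.1 - 3 * m) (c.1 + 3 * m) (c.2 - 3 * m) (c.2 - m) F) :=
    Pr_congr (fun F _ => not_or)
  rw [j1, j2] at i3
  set z : ℝ := (1/2:ℝ)^47 with hz
  have hz0 : 0 < z := by rw [hz]; positivity
  have k1 : z * z ≤ (1 - hh (1/2) (2 * m) (6 * m)) * (1 - hh (1/2) (2 * m) (6 * m)) :=
    mul_le_mul hval hval hz0.le (hz0.le.trans hval)
  have k2 : (z * z) * (z * z) ≤ _ := mul_le_mul (k1.trans i1) (k1.trans i2) (by positivity)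
    ((by positivity : 0 ≤ z * z).trans (k1.trans i1))
  calc (1/2:ℝ)^188 = (z * z) * (z * z) := by rw [hz]; norm_num
    _ ≤ _ := k2
    _ ≤ _ := i3

/-! ### The local event -/

/-- number of touching edges -/
noncomputable def NT (c : ℤ × ℤ) (s : ℕ) (F : Finset Edg) : ℝ := ∑ e ∈ blk c s, ind (Tch c s e F)

/-- the energy of the touching edges -/
noncomputable def EnT (t : ℝ) (c : ℤ × ℤ) (s : ℕ) (F : Finset Edg) : ℝ :=
  ∑ e ∈ blk c s, ∑ e' ∈ blk c s, kn t (src e) (src e') * ind (Tch c s e F ∧ Tch c s e' F)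

theorem EnT_nonneg (t : ℝ) (c : ℤ × ℤ) (s : ℕ) (F : Finset Edg) : 0 ≤ EnT t c s F :=
  Finset.sum_nonneg fun _ _ => Finset.sum_nonneg fun _ _ =>
    mul_nonneg (kn_pos _ _ _).le (ind_nonneg _)

/-- Outside of the box of radius `4 s`, closing edges creates touching edges. -/
theorem Tch_mono_out {c : ℤ × ℤ} {s : ℕ} {e : Edg} {V F1 F2 F2' : Finset Edg}
    (hV : Disjoint (blk c (4 * s)) V) (h2 : F2' ⊆ V) (h : F2 ⊆ F2') (hT : Tch c s e (F1 ∪ F2')) :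
    Tch c s e (F1 ∪ F2) := by
  have hin : ∀ X : Finset Edg, X ⊆ V → (↑(F1 ∪ X) : Set Edg) ∩ ↑(blk c (4 * s)) =
      ↑F1 ∩ ↑(blk c (4 * s)) := by
    intro X hX
    ext x
    simp only [Finset.coe_union, Set.mem_inter_iff, Set.mem_union, Finset.mem_coe]
    constructor
    · rintro ⟨k | k, k'⟩
      · exact ⟨k, k'⟩
      · exact absurd (hX k) (Finset.disjoint_left.mp hV k')
    · rintro ⟨k, k'⟩
      exact ⟨Or.inl k, k'⟩
  obtain ⟨t0, t1, t2, t3⟩ := hT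
  rw [hin F2' h2] at t1 t2
  refine ⟨?_, ?_, ?_, fun hr => t3 (hr.mono ?_)⟩
  · intro he
    apply t0
    rw [Finset.mem_union] at he ⊢
    exact he.imp id (fun k => h k)
  · rw [hin F2 (h.trans h2)]; exact t1
  · rw [hin F2 (h.trans h2)]; exact t2
  · apply Set.union_subset_union_left
    intro x hx
    rw [Finset.mem_coe, Finset.mem_inter, Finset.mem_union] at hx ⊢
    exact ⟨hx.1.imp id (fun k => h k), hx.2⟩

theorem NT_decr {c : ℤ × ℤ} {s : ℕ} {V F1 : Finset Edg}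
    (hV : Disjoint (blk c (4 * s)) V) (x : ℝ) : IncrE V (fun F2 => ¬ x ≤ NT c s (F1 ∪ F2)) := by
  intro F2 F2' h h2 h3 h4
  apply h3
  refine h4.trans ?_
  unfold NT
  apply Finset.sum_le_sum
  intro e _
  exact ind_mono (Tch_mono_out hV h2 h)

/-- **Many touching edges, bounded energy and isolation.** -/
theorem main_prob {t : ℝ} (ht0 : 0 ≤ t) (ht : t < 3 / 4) : ∃ (A r0 : ℕ) (p a E : ℝ),
    1 ≤ A ∧ 1 ≤ r0 ∧ 0 < p ∧ 0 < a ∧ 0 < E ∧ ∀ r : ℕ, r0 ≤ r → ∀ (c : ℤ × ℤ) (S : Finset Edg),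
      blk c (16 * (A * r)) ⊆ S →
      p ≤ PQ (1/2) S (fun F => (a * ((A * r : ℕ) : ℝ) ^ (3/4 : ℝ) ≤ NT c (A * r) F ∧
        Iso c (5 * (A * r)) F) ∧
        EnT t c (A * r) F ≤ E * ((A * r : ℕ) : ℝ) ^ (3/2 - t)) := by
  obtain ⟨A, r0, m, hA, hr0, hm, h1⟩ := first_moment
  obtain ⟨C0, hC0, h2⟩ := second_moment (t := 0) le_rfl (by norm_num)
  obtain ⟨C3, hC3, h3⟩ := second_moment ht0 ht
  set p1 : ℝ := m ^ 2 / (4 * C0) * (1/2) ^ 188 with hp1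
  have hp10 : 0 < p1 := by positivity
  refine ⟨A, r0, p1 / 2, m / 2, 2 * C3 / p1, hA, hr0, by positivity, by positivity,
    by positivity, ?_⟩
  intro r hr c S hS
  have hr1 : 1 ≤ r := hr0.trans hr
  obtain ⟨s, hs⟩ : ∃ s : ℕ, A * r = s := ⟨_, rfl⟩
  have hs1 : 1 ≤ s := by rw [← hs]; exact Nat.mul_pos hA hr1
  have h1' := h1 r hr c
  rw [hs] at h1' hS ⊢
  have hs0 : (0:ℝ) < s := by exact_mod_cast hs1
  have ok : Ok (fun _ : Edg => (1/2:ℝ)) := okq (by norm_num) (by norm_num)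
  have hRF : RF c s ⊆ S := (RF_sub c hs1).trans hS
  have hpow : (0:ℝ) < (s:ℝ) ^ (3/4 : ℝ) := by positivity
  -- moments
  have m1 : m * (s:ℝ) ^ (3/4 : ℝ) ≤ Ex (fun _ => (1/2:ℝ)) S (NT c s) := by
    refine h1'.trans (le_of_eq ?_)
    unfold NT
    rw [Ex_sum]
    apply Finset.sum_congr rfl
    intro e he
    have heR : e ∈ RF c s := blk4_RF c s (S4a.blk_mono c (by omega) he)
    exact (Pr_local hRF (fun F _ => Tch_local heR)).symm
  have m2 : Ex (fun _ => (1/2:ℝ)) S (fun F => NT c s F ^ 2) ≤ C0 * ((s:ℝ) ^ (3/4 : ℝ)) ^ 2 := by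
    have e1 : Ex (fun _ => (1/2:ℝ)) S (fun F => NT c s F ^ 2) =
        ∑ e ∈ blk c s, ∑ e' ∈ blk c s, kn 0 (src e) (src e') *
        PQ (1/2) S (fun F => Tch c s e F ∧ Tch c s e' F) := by
      have e2 : ∀ F, NT c s F ^ 2 = ∑ e ∈ blk c s, ∑ e' ∈ blk c s,
          ind (Tch c s e F ∧ Tch c s e' F) := by
        intro F
        unfold NT
        rw [sq, Finset.sum_mul_sum]
        apply Finset.sum_congr rfl
        intro e _
        apply Finset.sum_congr rfl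
        intro e' _
        rw [ind_and]
      rw [Ex_congr (fun F _ => e2 F), Ex_sum]
      apply Finset.sum_congr rfl
      intro e _
      rw [Ex_sum]
      apply Finset.sum_congr rfl
      intro e' _
      unfold kn
      rw [neg_zero, Real.rpow_zero, one_mul]
      rfl
    rw [e1]
    refine (h2 c s hs1 S hRF).trans (le_of_eq ?_)
    rw [sub_zero, ← Real.rpow_natCast ((s:ℝ) ^ (3/4 : ℝ)) 2, ← Real.rpow_mul hs0.le]
    norm_num
  have m3 : Ex (fun _ => (1/2:ℝ)) S (EnT t c s) ≤ C3 * (s:ℝ) ^ (3/2 - t) := by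
    refine le_trans (le_of_eq ?_) (h3 c s hs1 S hRF)
    unfold EnT
    rw [Ex_sum]
    apply Finset.sum_congr rfl
    intro e _
    rw [Ex_sum]
    apply Finset.sum_congr rfl
    intro e' _
    rw [Ex_mul_left]
    rfl
  -- many touching edges
  have g1 := pz0 ok hpow hm hC0 m1 m2
  -- isolation
  have hU : blk c (4 * s) ⊆ S := (S4a.blk_mono c (by omega)).trans hS
  have hUV : blk c (4 * s) ∪ (S \ blk c (4 * s)) = S := Finset.union_sdiff_of_subset hU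
  have hdis : Disjoint (blk c (4 * s)) (S \ blk c (4 * s)) := Finset.disjoint_sdiff
  have hring : ring2 c (5 * s) ⊆ S \ blk c (4 * s) :=
    (ring2_out hs1).trans (Finset.sdiff_subset_sdiff hS (Finset.Subset.refl _))
  have g2 := cond_harris ok hdis (A := fun F => m / 2 * (s:ℝ) ^ (3/4 : ℝ) ≤ NT c s F)
    (B := Iso c (5 * s)) (fun F1 _ => NT_decr hdis _) (by
      intro F1 hF1 F2 hF2
      rw [Iso_local hring (F1 ∪ F2), Iso_local hring F2]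
      have : (F1 ∪ F2) ∩ (S \ blk c (4 * s)) = F2 ∩ (S \ blk c (4 * s)) := by
        ext x
        simp only [Finset.mem_inter, Finset.mem_union, Finset.mem_sdiff]
        constructor
        · rintro ⟨k | k, k1, k2⟩
          · exact absurd (hF1 k) k2
          · exact ⟨k, k1, k2⟩
        · rintro ⟨k, k1, k2⟩
          exact ⟨Or.inr k, k1, k2⟩
      rw [this]) (Iso_decr _)
  rw [hUV] at g2
  have g3 : (1/2:ℝ) ^ 188 ≤ Pr (fun _ => (1/2:ℝ)) (S \ blk c (4 * s)) (Iso c (5 * s)) :=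
    pr_iso c (by omega) hring
  have g4 : p1 ≤ Pr (fun _ => (1/2:ℝ)) S (fun F => m / 2 * (s:ℝ) ^ (3/4 : ℝ) ≤ NT c s F ∧
      Iso c (5 * s) F) :=
    (mul_le_mul g1 g3 (by positivity) (Pr_nonneg ok _ _)).trans g2
  -- energy
  have hpow2 : (0:ℝ) < (s:ℝ) ^ (3/2 - t) := by positivity
  have g5 := mkv0 ok (EnT_nonneg t c s) (E := 2 * C3 / p1 * (s:ℝ) ^ (3/2 - t)) (by positivity) m3
  have g6 : C3 * (s:ℝ) ^ (3/2 - t) / (2 * C3 / p1 * (s:ℝ) ^ (3/2 - t)) = p1 / 2 := by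
    field_simp
  rw [g6] at g5
  have g7 : Pr (fun _ => (1/2:ℝ)) S (fun F => m / 2 * (s:ℝ) ^ (3/4 : ℝ) ≤ NT c s F ∧
      Iso c (5 * s) F) ≤ Pr (fun _ => (1/2:ℝ)) S (fun F =>
        ((m / 2 * (s:ℝ) ^ (3/4 : ℝ) ≤ NT c s F ∧ Iso c (5 * s) F) ∧
          EnT t c s F ≤ 2 * C3 / p1 * (s:ℝ) ^ (3/2 - t)) ∨
        ¬ EnT t c s F ≤ 2 * C3 / p1 * (s:ℝ) ^ (3/2 - t)) := by
    apply Pr_mono ok
    intro F _ hF
    by_cases h : EnT t c s F ≤ 2 * C3 / p1 * (s:ℝ) ^ (3/2 - t)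
    · exact Or.inl ⟨hF, h⟩
    · exact Or.inr h
  have g8 := Pr_or_le ok S (fun F =>
        (m / 2 * (s:ℝ) ^ (3/4 : ℝ) ≤ NT c s F ∧ Iso c (5 * s) F) ∧
          EnT t c s F ≤ 2 * C3 / p1 * (s:ℝ) ^ (3/2 - t))
    (fun F => ¬ EnT t c s F ≤ 2 * C3 / p1 * (s:ℝ) ^ (3/2 - t))
  have g9 : p1 / 2 ≤ Pr (fun _ => (1/2:ℝ)) S (fun F =>
        (m / 2 * (s:ℝ) ^ (3/4 : ℝ) ≤ NT c s F ∧ Iso c (5 * s) F) ∧
          EnT t c s F ≤ 2 * C3 / p1 * (s:ℝ) ^ (3/2 - t)) := by linarith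
  exact g9

end Pool.Agent.W822.PV
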