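import Pool.Agent.W822.PV.Loc4
import Pool.Agent.W822.PV.DiscP
import Pool.Agent.H389R2.CD.Gen

/-!
# The good event: locality, independence, consequences
-/

set_option autoImplicit false
set_option maxHeartbeats 1000000
set_option linter.unusedSimpArgs false
set_option linter.unusedVariables false

namespace Pool.Agent.W822.PV

open H974 H12S H389NS Finset
open Pool.Agent.H160R2.CV (nv bx)
open Pool.Agent.H389R2.CD (kn kn_pos eng dist_pt)
open Pool.Agent.H389R2.Dim (Good good_of_energy)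

/-- The good event. -/
def Gd (t a E : ℝ) (c : ℤ × ℤ) (s : ℕ) (F : Finset Edg) : Prop :=
  (a * (s : ℝ) ^ (3/4 : ℝ) ≤ NT c s F ∧ Iso c (5 * s) F) ∧ EnT t c s F ≤ E * (s : ℝ) ^ (3/2 - t)

theorem Gd_local {t a E : ℝ} {c : ℤ × ℤ} {s : ℕ} (hs : 1 ≤ s) {T : Finset Edg}
    (hT : blk c (16 * s) ⊆ T) (F : Finset Edg) : Gd t a E c s F ↔ Gd t a E c s (F ∩ T) := by
  have h1 : ∀ e ∈ blk c s, (Tch c s e F ↔ Tch c s e (F ∩ T)) := by
    intro e he
    have heR : e ∈ RF c s := blk4_RF c s (S4a.blk_mono c (by omega) he)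
    rw [Tch_local heR (F := F), Tch_local heR (F := F ∩ T), Finset.inter_assoc,
      Finset.inter_eq_right.mpr ((RF_sub c hs).trans hT)]
  have h2 : NT c s F = NT c s (F ∩ T) := by
    unfold NT
    exact Finset.sum_congr rfl (fun e he => ind_congr (h1 e he))
  have h3 : EnT t c s F = EnT t c s (F ∩ T) := by
    unfold EnT
    apply Finset.sum_congr rfl
    intro e he
    apply Finset.sum_congr rfl
    intro e' he'
    rw [ind_congr (and_congr (h1 e he) (h1 e' he'))]
  unfold Gd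
  rw [h2, h3, Iso_local (((ring2_out hs).trans Finset.sdiff_subset).trans hT) F]

/-- Independence of the good events in disjoint boxes. -/
theorem indep_fail {t a E p : ℝ} (hp1 : p ≤ 1) {s : ℕ} (hs : 1 ≤ s) (c : ℕ → ℤ × ℤ)
    {S : Finset Edg} (M : ℕ)
    (hsub : ∀ j < M, blk (c j) (16 * s) ⊆ S)
    (hdis : ∀ j < M, ∀ i < j, Disjoint (blk (c i) (16 * s)) (blk (c j) (16 * s)))
    (hp : ∀ j < M, p ≤ PQ (1/2) S (Gd t a E (c j) s)) :
    PQ (1/2) S (fun F => ∀ j < M, ¬ Gd t a E (c j) s F) ≤ (1 - p) ^ M := by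
  have ok := okq (q := 1/2) (by norm_num) (by norm_num)
  induction M with
  | zero =>
    rw [pow_zero]
    exact Pr_le_one ok _ _
  | succ M ih =>
    have i1 := ih (fun j hj => hsub j (by omega)) (fun j hj => hdis j (by omega))
      (fun j hj => hp j (by omega))
    have e1 : PQ (1/2) S (fun F => ∀ j < M + 1, ¬ Gd t a E (c j) s F) =
        PQ (1/2) S (fun F => (∀ j < M, ¬ Gd t a E (c j) s F) ∧ ¬ Gd t a E (c M) s F) := by
      apply Pr_congr
      intro F _
      constructor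
      · intro h
        exact ⟨fun j hj => h j (by omega), h M (by omega)⟩
      · rintro ⟨h, h'⟩ j hj
        rcases Nat.lt_or_ge j M with hlt | hge
        · exact h j hlt
        · have : j = M := by omega
          rw [this]; exact h'
    classical
    have i2 := Pr_indep (p := fun _ => (1/2:ℝ)) (U := S)
      (S := (Finset.range M).biUnion (fun j => blk (c j) (16 * s)))
      (T := blk (c M) (16 * s))
      (A := fun F => ∀ j < M, ¬ Gd t a E (c j) s F)
      (B := fun F => ¬ Gd t a E (c M) s F)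
      (by
        rw [Finset.biUnion_subset]
        intro j hj
        exact hsub j (by have := Finset.mem_range.mp hj; omega))
      (hsub M (by omega))
      (by
        rw [Finset.disjoint_biUnion_left]
        intro j hj
        exact hdis M (by omega) j (Finset.mem_range.mp hj))
      (fun F _ => forall_congr' fun j => forall_congr' fun hj => not_congr
        (Gd_local hs (Finset.subset_biUnion_of_mem (fun j => blk (c j) (16 * s))
          (Finset.mem_range.mpr hj)) F))
      (fun F _ => not_congr (Gd_local hs (Finset.Subset.refl _) F))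
    rw [e1]
    unfold PQ at i1 ⊢
    rw [i2, Pr_not, pow_succ]
    have hb := hp M (by omega)
    unfold PQ at hb
    apply mul_le_mul i1 (by linarith)
    · have := Pr_le_one ok S (Gd t a E (c M) s)
      linarith
    · apply pow_nonneg
      linarith

/-! ### Touching vertices -/

/-- The touching edges. -/
noncomputable def TE (c : ℤ × ℤ) (s : ℕ) (F : Finset Edg) : Finset Edg := by
  classical exact (blk c s).filter (fun e => Tch c s e F)

theorem mem_TE {c : ℤ × ℤ} {s : ℕ} {F : Finset Edg} {e : Edg} :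
    e ∈ TE c s F ↔ e ∈ blk c s ∧ Tch c s e F := by
  classical
  unfold TE
  exact Finset.mem_filter

/-- The first endpoints of the touching edges. -/
noncomputable def TV (c : ℤ × ℤ) (s : ℕ) (F : Finset Edg) : Finset Vtx := (TE c s F).image src

theorem mem_TV {c : ℤ × ℤ} {s : ℕ} {F : Finset Edg} {x : Vtx} (hx : x ∈ TV c s F) :
    ∃ e ∈ blk c s, src e = x ∧ Tch c s e F := by
  unfold TV at hx
  rw [Finset.mem_image] at hx
  obtain ⟨e, he, rfl⟩ := hx
  rw [mem_TE] at he
  exact ⟨e, he.1, rfl, he.2⟩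

theorem NT_le_TV (c : ℤ × ℤ) (s : ℕ) (F : Finset Edg) : NT c s F ≤ 2 * ((TV c s F).card : ℝ) := by
  classical
  have h1 : NT c s F = ((TE c s F).card : ℝ) := by
    unfold NT TE
    rw [Finset.card_filter]
    push_cast
    apply Finset.sum_congr rfl
    intro e _
    unfold ind
    split_ifs <;> rfl
  rw [h1]
  have h2 : (TE c s F).card ≤ 2 * (TV c s F).card := by
    unfold TV
    apply Finset.card_le_mul_card_image
    intro v _
    have h3 : ((TE c s F).filter (fun e => src e = v)) ⊆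
        {((v.1, v.2, true) : Edg), ((v.1, v.2, false) : Edg)} := by
      rintro ⟨x, y, b⟩ he
      rw [Finset.mem_filter] at he
      have := he.2
      rw [src_mk] at this
      subst this
      cases b <;> simp
    exact (Finset.card_le_card h3).trans Finset.card_le_two
  exact_mod_cast h2

theorem sum_image_le' {α β : Type*} [DecidableEq β] (S : Finset α) (f : α → β) (g : β → ℝ)
    (hg : ∀ b, 0 ≤ g b) : ∑ b ∈ S.image f, g b ≤ ∑ a ∈ S, g (f a) := by
  rw [← Finset.sum_fiberwise_of_maps_to (g := f) (t := S.image f)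
    (fun a ha => Finset.mem_image_of_mem f ha)]
  apply Finset.sum_le_sum
  intro b hb
  obtain ⟨a, ha, rfl⟩ := Finset.mem_image.mp hb
  have h1 : g (f a) = ∑ x ∈ {a}, g (f x) := by rw [Finset.sum_singleton]
  rw [h1]
  exact Finset.sum_le_sum_of_subset_of_nonneg (by
    intro x hx
    rw [Finset.mem_singleton] at hx
    rw [Finset.mem_filter]
    subst hx
    exact ⟨ha, rfl⟩) (fun _ _ _ => hg _)

theorem eng_TV (t : ℝ) (c : ℤ × ℤ) (s : ℕ) (F : Finset Edg) : eng t (TV c s F) ≤ EnT t c s F := by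
  classical
  set L := TE c s F with hL
  have h1 : eng t (TV c s F) ≤ ∑ e ∈ L, ∑ e' ∈ L, kn t (src e) (src e') := by
    unfold eng TV
    refine (sum_image_le' L src (fun x => ∑ y ∈ L.image src, kn t x y)
      (fun _ => Finset.sum_nonneg fun _ _ => (kn_pos _ _ _).le)).trans ?_
    apply Finset.sum_le_sum
    intro e _
    exact sum_image_le' L src (fun y => kn t (src e) y) (fun _ => (kn_pos _ _ _).le)
  refine h1.trans ?_
  unfold EnT
  have h2 : ∀ e ∈ L, e ∈ blk c s ∧ Tch c s e F := fun e he => mem_TE.mp he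
  calc ∑ e ∈ L, ∑ e' ∈ L, kn t (src e) (src e')
      = ∑ e ∈ L, ∑ e' ∈ L, kn t (src e) (src e') * ind (Tch c s e F ∧ Tch c s e' F) := by
        apply Finset.sum_congr rfl
        intro e he
        apply Finset.sum_congr rfl
        intro e' he'
        rw [ind_of ⟨(h2 e he).2, (h2 e' he').2⟩, mul_one]
    _ ≤ ∑ e ∈ L, ∑ e' ∈ blk c s, kn t (src e) (src e') * ind (Tch c s e F ∧ Tch c s e' F) := by
        apply Finset.sum_le_sum
        intro e _
        exact Finset.sum_le_sum_of_subset_of_nonneg (fun x hx => (h2 x hx).1)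
          (fun _ _ _ => mul_nonneg (kn_pos _ _ _).le (ind_nonneg _))
    _ ≤ _ := Finset.sum_le_sum_of_subset_of_nonneg (fun x hx => (h2 x hx).1)
          (fun _ _ _ => Finset.sum_nonneg fun _ _ => mul_nonneg (kn_pos _ _ _).le (ind_nonneg _))

/-- From the good event to a good set of points. -/
theorem good_of_Gd {t a E : ℝ} (ht : 0 ≤ t) (ha : 0 < a) (hE : 0 < E) {c : ℤ × ℤ} {s : ℕ}
    (hs1 : 1 ≤ s) {F : Finset Edg} (hG : Gd t a E c s F) {δ δ' : ℝ} (hδ : 0 < δ) (hδδ : δ ≤ δ')
    {σ : ℝ} (hσ : 0 < σ) (hsr : σ ≤ δ * s) {K : Set ℂ}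
    (hK : H934E.pt δ '' ↑(TV c s F) ⊆ K) :
    Good t δ' (2 ^ (-t) / (4 * E / a ^ 2 * σ ^ (-t))) K := by
  classical
  obtain ⟨⟨g1, g2⟩, g3⟩ := hG
  have hr0 : (0 : ℝ) < s := by exact_mod_cast hs1
  set T := TV c s F with hT
  have hX : (0:ℝ) < (s:ℝ) ^ (3/4 : ℝ) := by positivity
  have hcT : a / 2 * (s:ℝ) ^ (3/4 : ℝ) ≤ (T.card : ℝ) := by
    have := NT_le_TV c s F
    linarith
  have hTne : T.Nonempty := by
    rw [Finset.nonempty_iff_ne_empty]
    intro h0
    rw [h0, Finset.card_empty, Nat.cast_zero] at hcT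
    have : 0 < a / 2 * (s:ℝ) ^ (3/4 : ℝ) := by positivity
    linarith
  have hinj : Function.Injective (H934E.pt δ) := by
    intro x y h
    have := dist_pt hδ x y
    rw [h, dist_self] at this
    have h1 : (nv (x - y) : ℝ) ≤ 0 := by
      by_contra h2
      push Not at h2
      have := mul_pos hδ h2
      linarith
    have h2 : nv (x - y) = 0 := by
      have : nv (x - y) ≤ 0 := by exact_mod_cast h1
      omega
    unfold Pool.Agent.H160R2.CV.nv at h2
    rw [Prod.fst_sub, Prod.snd_sub] at h2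
    apply Prod.ext <;> omega
  have hcard : (T.image (H934E.pt δ)).card = T.card := Finset.card_image_of_injective T hinj
  refine (good_of_energy (S := T.image (H934E.pt δ)) (lt_of_lt_of_le hδ hδδ) ht
    (E := 4 * E / a ^ 2 * σ ^ (-t)) (by positivity) (hTne.image _)
    (by rw [Finset.coe_image]; exact hK) ?_)
  rw [Finset.sum_image (fun x _ y _ h => hinj h), hcard]
  have h1 : ∀ x ∈ T, ∑ z ∈ T.image (H934E.pt δ), (max (dist (H934E.pt δ x) z) δ') ^ (-t) ≤
      δ ^ (-t) * ∑ y ∈ T, kn t x y := by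
    intro x _
    rw [Finset.sum_image (fun x _ y _ h => hinj h), Finset.mul_sum]
    apply Finset.sum_le_sum
    intro y _
    unfold kn
    have hp : (0 : ℝ) < ((max (nv (x - y)) 1 : ℕ) : ℝ) := by
      have : 0 < max (nv (x - y)) 1 := lt_of_lt_of_le Nat.one_pos (le_max_right _ _)
      exact_mod_cast this
    rw [← Real.mul_rpow hδ.le hp.le]
    apply Real.rpow_le_rpow_of_nonpos (by positivity) _ (by linarith)
    rw [Nat.cast_max, mul_max_of_nonneg _ _ hδ.le, Nat.cast_one, mul_one]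
    exact max_le_max (dist_pt hδ x y) hδδ
  refine (Finset.sum_le_sum h1).trans ?_
  rw [← Finset.mul_sum]
  have h2 : ∑ x ∈ T, ∑ y ∈ T, kn t x y ≤ E * (s : ℝ) ^ (3/2 - t) := (eng_TV t c s F).trans g3
  have e3 : (s : ℝ) ^ (3/2 - t) = ((s:ℝ) ^ (3/4 : ℝ)) ^ 2 * (s:ℝ) ^ (-t) := by
    rw [← Real.rpow_natCast ((s:ℝ) ^ (3/4 : ℝ)) 2, ← Real.rpow_mul hr0.le, ← Real.rpow_add hr0]
    congr 1
    push_cast; ring
  rw [e3] at h2
  have h4 : ((s:ℝ) ^ (3/4 : ℝ)) ^ 2 ≤ 4 * (T.card : ℝ) ^ 2 / a ^ 2 := by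
    rw [le_div_iff₀ (by positivity), ← mul_pow]
    have : (s:ℝ) ^ (3/4 : ℝ) * a ≤ 2 * (T.card : ℝ) := by linarith
    calc ((s:ℝ) ^ (3/4 : ℝ) * a) ^ 2 ≤ (2 * (T.card : ℝ)) ^ 2 :=
          pow_le_pow_left₀ (by positivity) this 2
      _ = _ := by ring
  have h5 : δ ^ (-t) * (s : ℝ) ^ (-t) ≤ σ ^ (-t) := by
    rw [← Real.mul_rpow hδ.le hr0.le]
    exact Real.rpow_le_rpow_of_nonpos hσ hsr (by linarith)
  have h6 : (0 : ℝ) < δ ^ (-t) := by positivity
  have h7 : (0 : ℝ) < (s : ℝ) ^ (-t) := by positivity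
  have h8 : (0 : ℝ) < σ ^ (-t) := by positivity
  calc δ ^ (-t) * ∑ x ∈ T, ∑ y ∈ T, kn t x y ≤
        δ ^ (-t) * (E * (((s:ℝ) ^ (3/4 : ℝ)) ^ 2 * (s:ℝ) ^ (-t))) :=
        mul_le_mul_of_nonneg_left h2 h6.le
    _ = E * ((s:ℝ) ^ (3/4 : ℝ)) ^ 2 * (δ ^ (-t) * (s : ℝ) ^ (-t)) := by ring
    _ ≤ E * (4 * (T.card : ℝ) ^ 2 / a ^ 2) * σ ^ (-t) := by
        apply mul_le_mul (mul_le_mul_of_nonneg_left h4 hE.le) h5 (by positivity) (by positivity)
    _ = _ := by ring

/-! ### The endpoints are in distinct clusters -/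

theorem reach_or_exit {G : Set Edg} {a b c d : ℤ} {u v : Vtx} (hu : inR a b c d u)
    (h : Reach G u v) :
    (∃ w, inR a b c d w ∧ (w.1 = a ∨ w.1 = b ∨ w.2 = c ∨ w.2 = d) ∧
      Reach (G ∩ ↑(RE a b c d)) u w) ∨ Reach (G ∩ ↑(RE a b c d)) u v := by
  by_cases hv : v.1 ≤ a ∨ b ≤ v.1 ∨ v.2 ≤ c ∨ d ≤ v.2
  · exact Or.inl (first_exit hu h hv)
  · have key : ∀ w, Reach G u w → (∃ w, inR a b c d w ∧ (w.1 = a ∨ w.1 = b ∨ w.2 = c ∨ w.2 = d) ∧
        Reach (G ∩ ↑(RE a b c d)) u w) ∨ Reach (G ∩ ↑(RE a b c d)) u w := by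
      intro w hw
      induction hw with
      | refl => exact Or.inr (Reach.refl _ _)
      | @tail w w' hw hs ih =>
        rcases ih with ih | ih
        · exact Or.inl ih
        · by_cases hb : w.1 ≤ a ∨ b ≤ w.1 ∨ w.2 ≤ c ∨ d ≤ w.2
          · exact Or.inl (first_exit hu hw hb)
          · right
            refine ih.trans ?_
            obtain ⟨⟨x0, y0, bo⟩, heG, hcase⟩ := hs
            refine Adj.reach ⟨(x0, y0, bo), ⟨heG, ?_⟩, hcase⟩
            rw [Finset.mem_coe]
            cases bo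
            · simp only [src_mk, tgt_false] at hcase
              rw [mem_RE_false]
              rcases hcase with ⟨h3, h4⟩ | ⟨h3, h4⟩
              · rw [← h3] at hb; simp only at hb; omega
              · rw [← h4] at hb; simp only at hb; omega
            · simp only [src_mk, tgt_true] at hcase
              rw [mem_RE_true]
              rcases hcase with ⟨h3, h4⟩ | ⟨h3, h4⟩
              · rw [← h3] at hb; simp only at hb; omega
              · rw [← h4] at hb; simp only at hb; omega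
    exact key v h

/-- The endpoints of a touching edge of an isolated box are in distinct clusters. -/
theorem tch_ne {c : ℤ × ℤ} {s : ℕ} (hs : 1 ≤ s) {e : Edg} (he : e ∈ blk c s) {F : Finset Edg}
    {W : Set Edg} (hW : ∀ x ∈ W, x ∉ blk c (16 * s)) (hT : Tch c s e F) (hI : Iso c (5 * s) F) :
    ¬ Reach (↑F ∪ W) (src e) (tgt e) := by
  intro hr
  obtain ⟨hsr, -⟩ := inR_blk (S4a.blk_mono c (show s ≤ 16 * s by omega) he)
  obtain ⟨hsr5, -⟩ := inR_blk (S4a.blk_mono c (show s ≤ 5 * s by omega) he)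
  have hsub : ((↑F : Set Edg) ∪ W) ∩ ↑(RE (c.1 - (16 * s : ℕ)) (c.1 + (16 * s : ℕ))
      (c.2 - (16 * s : ℕ)) (c.2 + (16 * s : ℕ))) ⊆ ↑(F ∩ blk c (16 * s)) := by
    rintro x ⟨k1 | k1, k2⟩
    · rw [Finset.coe_inter]
      exact ⟨k1, k2⟩
    · exact absurd (Finset.mem_coe.mp k2) (hW x k1)
  rcases reach_or_exit hsr hr with ⟨w, k1, k2, k3⟩ | k3
  · have k4 := k3.mono hsub
    refine iso_block (c := c) (m := 5 * s) (by omega) (F := F) ?_ hsr5 k4 ?_ hI
    · intro x hx _
      rw [Finset.mem_coe, Finset.mem_inter] at hx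
      exact hx.1
    · push_cast at k2 ⊢
      omega
  · refine hT.2.2.2 ((k3.mono hsub).mono ?_)
    intro x hx
    rw [Finset.mem_coe, Finset.mem_inter] at hx
    by_cases h : x ∈ RF c s
    · left
      rw [Finset.mem_coe, Finset.mem_inter]
      exact ⟨hx.1, h⟩
    · right
      exact Finset.mem_sdiff.mpr ⟨hx.2, h⟩

end Pool.Agent.W822.PV
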