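import Pool.Agent.W822.PV.Gen2
import Pool.Agent.W822.PV.DiscP
import Pool.Agent.H389R2.CL.Up

/-!
# Distinct clusters of the scaling limit meet in a set of dimension at most `3 / 4`
-/

set_option autoImplicit false
set_option maxHeartbeats 1000000
set_option linter.unusedSimpArgs false

namespace Pool.Agent.W822.PV

open H974 H934E Pool.Agent.H160R2.CV MeasureTheory TopologicalSpace Filter Topology Metric Set
open Pool.Agent.H389R2.Dim Pool.Agent.H389R2.CD Pool.Agent.H389R2.CL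
open scoped ENNReal NNReal

theorem isOpen_pair {X : Type*} [MetricSpace X] {O : Set (X × X)} (hO : IsOpen O) :
    IsOpen {C : NonemptyCompacts X | ∃ x ∈ C, ∃ y ∈ C, (x, y) ∈ O} := by
  rw [isOpen_iff_mem_nhds]
  rintro C ⟨x, hx, y, hy, hxy⟩
  obtain ⟨U, V, hU, hV, hxU, hyV, hUV⟩ := isOpen_prod_iff.1 hO x y hxy
  have h1 : IsOpen {C : NonemptyCompacts X | ((C : Set X) ∩ U).Nonempty} :=
    NonemptyCompacts.isOpen_inter_nonempty_of_isOpen hU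
  have h2 : IsOpen {C : NonemptyCompacts X | ((C : Set X) ∩ V).Nonempty} :=
    NonemptyCompacts.isOpen_inter_nonempty_of_isOpen hV
  refine mem_of_superset ((h1.inter h2).mem_nhds ⟨⟨x, hx, hxU⟩, ⟨y, hy, hyV⟩⟩) ?_
  rintro C' ⟨⟨x', hx', hxU'⟩, ⟨y', hy', hyV'⟩⟩
  exact ⟨x', hx', y', hy', hUV ⟨hxU', hyV'⟩⟩

/-- The compact sets of sup-diameter larger than `2 ρ`. -/
def Big (ρ : ℝ) : Set (NonemptyCompacts ℂ) :=
  {K | ∃ x ∈ K, ∃ y ∈ K, (x, y) ∈ {p : ℂ × ℂ | 2 * ρ < max |p.1.re - p.2.re| |p.1.im - p.2.im|}}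

theorem isOpen_Big (ρ : ℝ) : IsOpen (Big ρ) := by
  apply isOpen_pair
  apply isOpen_lt continuous_const
  exact ((Complex.continuous_re.comp continuous_fst).sub
    (Complex.continuous_re.comp continuous_snd)).abs.max
    ((Complex.continuous_im.comp continuous_fst).sub
    (Complex.continuous_im.comp continuous_snd)).abs

theorem Big_out {ρ : ℝ} {K : NonemptyCompacts ℂ} (hK : K ∈ Big ρ) (z : ℂ) {ρ' : ℝ} (h : ρ' ≤ ρ) :
    ((K : Set ℂ) ∩ (csq z ρ')ᶜ).Nonempty := by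
  obtain ⟨x, hx, y, hy, hxy⟩ := hK
  simp only [Set.mem_ofPred_eq] at hxy
  by_contra hcon
  have hall : ∀ w ∈ (K : Set ℂ), w ∈ csq z ρ' := by
    intro w hw
    by_contra h1
    exact hcon ⟨w, hw, h1⟩
  obtain ⟨x1, x2⟩ := hall x hx
  obtain ⟨y1, y2⟩ := hall y hy
  rw [abs_le] at x1 x2 y1 y2
  have h1 : max |x.re - y.re| |x.im - y.im| ≤ 2 * ρ := by
    apply max_le
    · rw [abs_le]; constructor <;> linarith
    · rw [abs_le]; constructor <;> linarith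
  linarith

theorem exists_Big {K : NonemptyCompacts ℂ} (h : (K : Set ℂ).Nontrivial) :
    ∃ n : ℕ, ∀ m : ℕ, n ≤ m → K ∈ Big (1 / ((m : ℝ) + 1)) := by
  obtain ⟨x, hx, y, hy, hxy⟩ := h
  have hpos : 0 < max |x.re - y.re| |x.im - y.im| := by
    rw [lt_max_iff, abs_pos, abs_pos]
    by_contra hcon
    push Not at hcon
    apply hxy
    apply Complex.ext
    · linarith [hcon.1]
    · linarith [hcon.2]
  obtain ⟨n, hn⟩ := exists_nat_one_div_lt (show (0 : ℝ) <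
    max |x.re - y.re| |x.im - y.im| / 2 by positivity)
  refine ⟨n, fun m hm => ⟨x, hx, y, hy, ?_⟩⟩
  simp only [Set.mem_ofPred_eq]
  have : 1 / ((m : ℝ) + 1) ≤ 1 / ((n : ℝ) + 1) := Nat.one_div_le_one_div hm
  linarith

/-- The points which lie on two distinct members of the collection which are not points. -/
def dbl (𝒞 : NonemptyCompacts (NonemptyCompacts ℂ)) : Set ℂ :=
  {w | ∃ K ∈ 𝒞, ∃ K' ∈ 𝒞, (K : Set ℂ).Nontrivial ∧ (K' : Set ℂ).Nontrivial ∧ K ≠ K' ∧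
    w ∈ K ∧ w ∈ K'}

/-- Points which belong to two distinct large members. -/
def W2 (ρ : ℝ) (𝒞 : NonemptyCompacts (NonemptyCompacts ℂ)) : Set ℂ :=
  {x | ∃ K ∈ 𝒞, ∃ K' ∈ 𝒞, K ≠ K' ∧ K ∈ Big ρ ∧ K' ∈ Big ρ ∧ x ∈ K ∧ x ∈ K'}

/-- Two distinct large members meet the open square. -/
def Ev2 (ρ : ℝ) (z : ℂ) (s : ℝ) : Set (NonemptyCompacts (NonemptyCompacts ℂ)) :=
  {𝒞 | ∃ K ∈ 𝒞, ∃ K' ∈ 𝒞, (K, K') ∈ ({p : NonemptyCompacts ℂ × NonemptyCompacts ℂ | p.1 ≠ p.2} ∩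
    ((Big ρ ∩ {K | ((K : Set ℂ) ∩ sq z s).Nonempty}) ×ˢ
      (Big ρ ∩ {K | ((K : Set ℂ) ∩ sq z s).Nonempty})))}

theorem isOpen_Ev2 (ρ : ℝ) (z : ℂ) (s : ℝ) : IsOpen (Ev2 ρ z s) := by
  apply isOpen_pair
  refine (isOpen_ne_fun continuous_fst continuous_snd).inter (IsOpen.prod ?_ ?_)
  · exact (isOpen_Big ρ).inter (NonemptyCompacts.isOpen_inter_nonempty_of_isOpen (isOpen_sq z s))
  · exact (isOpen_Big ρ).inter (NonemptyCompacts.isOpen_inter_nonempty_of_isOpen (isOpen_sq z s))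

section

variable (R : Rect) {δ : ℕ → ℝ} (hδ : ∀ i, 0 < δ i) (hlim : Tendsto δ atTop (𝓝 0))
  {μ : ProbabilityMeasure (NonemptyCompacts (NonemptyCompacts ℂ))}
  (hμ : Tendsto (fun i => collLaw R (δ i)) atTop (𝓝 μ))

include hδ hlim hμ

theorem pair_upper_aux {ρ η : ℝ} (hρ : 0 < ρ) (hη : 0 < η) :
    ∀ᵐ 𝒞 : NonemptyCompacts (NonemptyCompacts ℂ)
      ∂(μ : Measure (NonemptyCompacts (NonemptyCompacts ℂ))),
      dimH (W2 ρ 𝒞 ∩ Am R η) ≤ ENNReal.ofReal (2 - 5 / 4) := by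
  obtain ⟨C, hC, hH⟩ := disc_pair
  have hA0 := R.hA
  have hB0 := R.hB
  have hH0 := R.hH
  set ρ' : ℝ := min (η / 2) ρ with hρ'
  have hρ'0 : 0 < ρ' := lt_min (by positivity) hρ
  have hρ'1 : ρ' ≤ η / 2 := min_le_left _ _
  have hρ'2 : ρ' ≤ ρ := min_le_right _ _
  refine upper_sq_ev hμ (W := W2 ρ) (a := 5 / 4) (by norm_num)
    (A := Am R η) (M := R.A + R.B + R.H) (by positivity) ?_
    (C := C * (1 / ρ') ^ ((5 : ℝ) / 4)) (s0 := ρ' / 16) (by positivity) (by positivity)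
    (Ev2 ρ) (isOpen_Ev2 ρ) ?_ ?_
  · rintro z ⟨⟨h1, h2⟩, h3, h4⟩
    rw [abs_le, abs_le]
    refine ⟨⟨by linarith, by linarith⟩, ⟨by linarith, by linarith⟩⟩
  · rintro z s 𝒞 hs hs0 ⟨x, ⟨⟨K, hK, K', hK', h1, h2, h3, h4, h5⟩, _⟩, h6⟩
    exact ⟨K, hK, K', hK', h1, ⟨h2, x, h4, h6⟩, ⟨h3, x, h5, h6⟩⟩
  · rintro z s hs hs0 ⟨w, ⟨hw1, hw2⟩, ⟨hw3, hw4⟩, hw5, hw6⟩
    apply Eventually.frequently
    filter_upwards [hlim.eventually_lt_const (show (0 : ℝ) < s / 16 by positivity)] with i hi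
    rw [collLaw_apply R (δ i) (isOpen_Ev2 ρ z s).measurableSet]
    apply ENNReal.ofReal_le_ofReal
    rw [abs_lt] at hw1 hw2
    have hD : csq z ρ' ⊆ R.D := by
      rintro y ⟨hy1, hy2⟩
      rw [abs_le] at hy1 hy2
      exact ⟨by linarith, by linarith, by linarith, by linarith⟩
    have h5 := hH R z ρ' s (δ i) hs (by linarith) hD (hδ i) (by linarith)
    refine (Pr_mono w_ok ?_).trans (h5.trans (le_of_eq ?_))
    · rintro F _ ⟨K, hK, K', hK', h1, ⟨h2, h3⟩, h4, h6⟩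
      obtain ⟨v, rfl⟩ := mem_coll hK
      obtain ⟨v', rfl⟩ := mem_coll hK'
      exact ⟨v, v', h1, ⟨h3, Big_out h2 z hρ'2⟩, ⟨h6, Big_out h4 z hρ'2⟩⟩
    · rw [mul_assoc, ← Real.mul_rpow (by positivity) hs.le]
      congr 2
      field_simp

/-- **The points which lie on two distinct nontrivial clusters: upper bound.** -/
theorem pair_upper : ∀ᵐ 𝒞 : NonemptyCompacts (NonemptyCompacts ℂ)
    ∂(μ : Measure (NonemptyCompacts (NonemptyCompacts ℂ))),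
    dimH (dbl 𝒞 ∩ R.D) ≤ 3 / 4 := by
  have key : ∀ (n m : ℕ), ∀ᵐ 𝒞 : NonemptyCompacts (NonemptyCompacts ℂ)
      ∂(μ : Measure (NonemptyCompacts (NonemptyCompacts ℂ))),
      dimH (W2 (1 / ((n : ℝ) + 1)) 𝒞 ∩ Am R (1 / ((m : ℝ) + 1))) ≤ ENNReal.ofReal (2 - 5 / 4) :=
    fun n m => pair_upper_aux R hδ hlim hμ (by positivity) (by positivity)
  filter_upwards [ae_all_iff.mpr (fun n => ae_all_iff.mpr (fun m => key n m))] with 𝒞 h2
  have e34 : ENNReal.ofReal (2 - 5 / 4) = 3 / 4 := by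
    rw [show (2 - 5 / 4 : ℝ) = 3 / 4 by norm_num, ENNReal.ofReal_div_of_pos (by norm_num)]
    norm_num
  have hsub : dbl 𝒞 ∩ R.D ⊆
      ⋃ n : ℕ, ⋃ m : ℕ, W2 (1 / ((n : ℝ) + 1)) 𝒞 ∩ Am R (1 / ((m : ℝ) + 1)) := by
    rintro z ⟨⟨K, hK, K', hK', hnt, hnt', hne, hz1, hz2⟩, h1, h2, h3, h4⟩
    obtain ⟨n1, hn1⟩ := exists_Big hnt
    obtain ⟨n2, hn2⟩ := exists_Big hnt'
    rw [Set.mem_iUnion]
    refine ⟨max n1 n2, ?_⟩
    rw [Set.mem_iUnion]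
    obtain ⟨m, hm⟩ := exists_nat_one_div_lt (lt_min (lt_min (show 0 < z.re + R.A by linarith)
      (show 0 < R.B - z.re by linarith)) (lt_min h3 (show 0 < R.H - z.im by linarith)))
    simp only [lt_min_iff] at hm
    obtain ⟨⟨m1, m2⟩, m3, m4⟩ := hm
    exact ⟨m, ⟨K, hK, K', hK', hne, hn1 _ (le_max_left _ _), hn2 _ (le_max_right _ _), hz1, hz2⟩,
      ⟨by linarith, by linarith⟩, by linarith, by linarith⟩
  refine (dimH_mono hsub).trans ?_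
  rw [dimH_iUnion, ← e34]
  refine iSup_le fun n => ?_
  rw [dimH_iUnion]
  exact iSup_le fun m => h2 n m

end

end Pool.Agent.W822.PV
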